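import Pool.Agent.Helper84.T5.Form

/-!
# A criterion: the discriminant
-/

set_option autoImplicit false

namespace Pool.Agent.Helper84.T5

variable {F : Type} [Field F]

/-- the discriminant -/
def disc {R : Type} [CommRing R] (l : Fin 4 → Fin 4 → R) : R :=
  let a := (l 0 2 * l 1 3 - l 0 3 * l 1 2) * (l 2 0 * l 3 1 - l 2 1 * l 3 0)
  let b := (l 0 1 * l 2 3 - l 0 3 * l 2 1) * (l 1 0 * l 3 2 - l 1 2 * l 3 0)
  let c := (l 0 1 * l 3 2 - l 0 2 * l 3 1) * (l 1 0 * l 2 3 - l 1 3 * l 2 0)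
  a ^ 2 + b ^ 2 + c ^ 2 - 2 * (a * b + b * c + c * a)

/-- the matrix of the quadratic form -/
def JJ (F : Type) [Field F] : Matrix (Fin 6) (Fin 6) F :=
  !![0, 0, 0, 0, 0, 1; 0, 0, 0, 0, -1, 0; 0, 0, 0, 1, 0, 0; 0, 0, 1, 0, 0, 0;
    0, -1, 0, 0, 0, 0; 1, 0, 0, 0, 0, 0]

lemma det_JJ : (JJ F).det = -1 := by
  simp [JJ, Matrix.det_succ_row_zero, Fin.sum_univ_succ, Fin.succAbove]
  norm_num

/-- a Gram matrix -/
def gram (a b c d e f h₀ h₁ h₂ h₃ s : F) : Matrix (Fin 6) (Fin 6) F :=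
  !![0, a, b, c, 0, h₀; a, 0, d, e, 0, h₁; b, d, 0, f, 0, h₂; c, e, f, 0, 0, h₃;
    0, 0, 0, 0, 0, s; h₀, h₁, h₂, h₃, s, 0]

lemma det_gram (a b c d e f h₀ h₁ h₂ h₃ s : F) : (gram a b c d e f h₀ h₁ h₂ h₃ s).det =
    - s ^ 2 * ((a * f) ^ 2 + (b * e) ^ 2 + (c * d) ^ 2 -
      2 * ((a * f) * (b * e) + (b * e) * (c * d) + (c * d) * (a * f))) := by
  rw [gram, Matrix.det_succ_row _ 4]
  simp [Matrix.det_succ_row_zero, Fin.sum_univ_succ, Fin.succAbove, Matrix.submatrix]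
  ring

/-- the rows of the relations, a solution and a further vector -/
def MM (l : Fin 4 → Fin 4 → F) (x y : Fin 6 → F) : Matrix (Fin 6) (Fin 6) F :=
  !![l 0 1, l 0 2, l 0 3, 0, 0, 0; -l 1 0, 0, 0, l 1 2, l 1 3, 0; 0, -l 2 0, 0, -l 2 1, 0, l 2 3;
    0, 0, -l 3 0, 0, -l 3 1, -l 3 2; x 5, -x 4, x 3, x 2, -x 1, x 0;
    y 0, y 1, y 2, y 3, y 4, y 5]

set_option maxHeartbeats 4000000 in
lemma gram_eq (l : Fin 4 → Fin 4 → F) (x y : Fin 6 → F) (hx : eqsL l x = 0)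
    (h0 : pf (alt x) = 0) (hy : pf (alt y) = 0) : ∃ h₀ h₁ h₂ h₃ : F,
    MM l x y * JJ F * (MM l x y).transpose =
      gram (-(l 0 2 * l 1 3 - l 0 3 * l 1 2)) (l 0 1 * l 2 3 - l 0 3 * l 2 1)
        (-(l 0 1 * l 3 2 - l 0 2 * l 3 1)) (-(l 1 0 * l 2 3 - l 1 3 * l 2 0))
        (l 1 0 * l 3 2 - l 1 2 * l 3 0) (-(l 2 0 * l 3 1 - l 2 1 * l 3 0)) h₀ h₁ h₂ h₃
        (x 0 * y 0 + x 1 * y 1 + x 2 * y 2 + x 3 * y 3 + x 4 * y 4 + x 5 * y 5) := by
  have e0 := congrFun hx 0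
  have e1 := congrFun hx 1
  have e2 := congrFun hx 2
  have e3 := congrFun hx 3
  simp [eqsL, eqs, alt, Fin.sum_univ_four] at e0 e1 e2 e3
  have e4 : x 0 * x 5 - x 1 * x 4 + x 2 * x 3 = 0 := h0
  have e5 : y 0 * y 5 - y 1 * y 4 + y 2 * y 3 = 0 := hy
  refine ⟨(MM l x y * JJ F * (MM l x y).transpose) 0 5, (MM l x y * JJ F * (MM l x y).transpose) 1 5,
    (MM l x y * JJ F * (MM l x y).transpose) 2 5, (MM l x y * JJ F * (MM l x y).transpose) 3 5, ?_⟩
  ext i j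
  fin_cases i <;> fin_cases j <;>
    simp [MM, JJ, gram, Matrix.mul_apply, Fin.sum_univ_succ, Matrix.transpose_apply] <;>
    first
      | ring1
      | linear_combination e0
      | linear_combination e1
      | linear_combination e2
      | linear_combination e3
      | linear_combination -e0
      | linear_combination -e1
      | linear_combination -e2
      | linear_combination -e3
      | linear_combination 2 * e4
      | linear_combination 2 * e5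

/-- the criterion -/
theorem aniso_of_disc {l : Fin 4 → Fin 4 → F} (h : ¬ IsSquare (disc l)) : Aniso l := by
  intro x hx h0
  by_contra hne
  apply h
  obtain ⟨m, hm⟩ : ∃ m, x m ≠ 0 := by
    by_contra hcon
    push Not at hcon
    exact hne (funext hcon)
  obtain ⟨h₀, h₁, h₂, h₃, h5⟩ := gram_eq l x (Pi.single m 1) hx h0
    (by fin_cases m <;> simp [pf, alt])
  have h6 : x 0 * (Pi.single m 1 : Fin 6 → F) 0 + x 1 * (Pi.single m 1 : Fin 6 → F) 1 +
      x 2 * (Pi.single m 1 : Fin 6 → F) 2 + x 3 * (Pi.single m 1 : Fin 6 → F) 3 +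
      x 4 * (Pi.single m 1 : Fin 6 → F) 4 + x 5 * (Pi.single m 1 : Fin 6 → F) 5 = x m := by
    fin_cases m <;> simp
  rw [h6] at h5
  have h7 := congrArg Matrix.det h5
  rw [Matrix.det_mul, Matrix.det_mul, Matrix.det_transpose, det_JJ, det_gram] at h7
  refine ⟨(MM l x (Pi.single m 1)).det / x m, ?_⟩
  rw [div_mul_div_comm, eq_div_iff (mul_ne_zero hm hm)]
  rw [disc]
  linear_combination h7

end Pool.Agent.Helper84.T5
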