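import Pool.Agent.Helper84.T5.Lin

/-!
# Two examples with equal valuations
-/

set_option autoImplicit false

namespace Pool.Agent.Helper84.T5

lemma flatC {n : ℕ} (hn : n ≤ 5) : Flat 7 n ![43, 71, 113, 127] lC := by
  refine ⟨1, ![6, 10, 16, 18], ?_, ?_, fun m hm => linRigidC m (hm.trans hn)⟩
  · intro i
    fin_cases i <;> norm_num
  · intro i
    fin_cases i <;> decide

lemma flatD {n : ℕ} (hn : n ≤ 4) : Flat 5 n ![11, 41, 61, 71] lD := by
  refine ⟨1, ![2, 8, 12, 14], ?_, ?_, fun m hm => linRigidD m (hm.trans hn)⟩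
  · intro i
    fin_cases i <;> norm_num
  · intro i
    fin_cases i <;> decide

end Pool.Agent.Helper84.T5
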