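import Pool.Agent.Helper84.T5.Points
import Pool.Agent.Helper27.TFM.Base
import Pool.Agent.Helper38.EQ.AdicComplete

/-!
# Rings of power series have enough points

`oddPoints_power`: rings of power series over complete discrete valuation rings.
`isAdicComplete_power`: they are complete local rings, with the same residue field
(`residuePower`).
-/

set_option autoImplicit false

open IsLocalRing PowerSeries

namespace Pool.Agent.Helper84.T5

section eval

variable {O : Type} [CommRing O] [IsDomain O] [IsDiscreteValuationRing O]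
  [IsAdicComplete (maximalIdeal O) O]

/-- A nonzero power series in one variable has a nonzero value. -/
private theorem PS_one {F : O⟦X⟧} (hF : F ≠ 0) : ∃ Φ : O⟦X⟧ →+* O, Φ F ≠ 0 := by
  classical
  have hex : ∃ n, coeff n F ≠ 0 := by
    by_contra h
    push Not at h
    exact hF (PowerSeries.ext fun n => by rw [h n, map_zero])
  obtain ⟨m, hm, hmin⟩ : ∃ m, coeff m F ≠ 0 ∧ ∀ i < m, coeff i F = 0 :=
    ⟨Nat.find hex, Nat.find_spec hex, fun i hi => by
      have := Nat.find_min hex hi
      push Not at this
      exact this⟩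
  obtain ⟨G, rfl⟩ := PowerSeries.X_pow_dvd_iff.2 hmin
  set c := constantCoeff G with hc
  have hc0 : c ≠ 0 := by
    rw [hc, ← coeff_zero_eq_constantCoeff_apply]
    have h1 : coeff m ((X : O⟦X⟧) ^ m * G) = coeff 0 G := by
      rw [PowerSeries.coeff_X_pow_mul', if_pos le_rfl, Nat.sub_self]
    rwa [h1] at hm
  obtain ⟨N, hN⟩ : ∃ N, c ∉ maximalIdeal O ^ N := by
    by_contra h
    push Not at h
    apply hc0
    refine IsHausdorff.haus (I := maximalIdeal O) inferInstance c fun n => ?_
    rw [SModEq.zero]
    simpa using h n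
  obtain ⟨ϖ, hϖ⟩ := IsDiscreteValuationRing.exists_irreducible O
  have hmax := hϖ.maximalIdeal_eq
  have hN0 : N ≠ 0 := by
    rintro rfl
    apply hN
    rw [pow_zero, Ideal.one_eq_top]
    trivial
  have hy : ϖ ^ N ∈ maximalIdeal O := by
    refine Ideal.pow_mem_of_mem _ ?_ N (Nat.pos_of_ne_zero hN0)
    rw [hmax]
    exact Ideal.mem_span_singleton_self _
  obtain ⟨Φ, hΦ⟩ := Helper27.TFM.exists_evalHom (R := O) (maximalIdeal O) (ϖ ^ N) hy
  have hX : Φ X = ϖ ^ N := by
    have := hΦ Polynomial.X
    rwa [Polynomial.coe_X, Polynomial.aeval_X] at this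
  have hC : ∀ x, Φ (C x) = x := by
    intro x
    have := hΦ (Polynomial.C x)
    rwa [Polynomial.coe_C, Polynomial.aeval_C, Algebra.algebraMap_self, RingHom.id_apply] at this
  refine ⟨Φ, ?_⟩
  have hG : Φ G ≠ 0 := by
    intro h
    obtain ⟨H, hH⟩ : (X : O⟦X⟧) ∣ G - C c := by
      rw [PowerSeries.X_dvd_iff, map_sub, hc]
      simp
    apply hN
    have h2 := congrArg Φ hH
    rw [map_sub, map_mul, h, hX, hC, zero_sub] at h2
    have h3 : c = ϖ ^ N * (-Φ H) := by linear_combination -h2
    rw [h3, hmax, Ideal.span_singleton_pow]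
    exact Ideal.mul_mem_right _ _ (Ideal.mem_span_singleton_self _)
  rw [map_mul, map_pow, hX]
  exact mul_ne_zero (pow_ne_zero _ (pow_ne_zero _ hϖ.ne_zero)) hG

/-- A nonzero power series has a nonzero value. -/
private theorem PS_many (d : ℕ) : ∀ {F : MvPowerSeries (Fin d) O}, F ≠ 0 →
    ∃ Φ : MvPowerSeries (Fin d) O →+* O, Φ F ≠ 0 := by
  induction d with
  | zero =>
    intro F hF
    refine ⟨MvPowerSeries.constantCoeff, fun h => hF ?_⟩
    ext α
    have hα : α = 0 := Subsingleton.elim _ _
    rw [hα, MvPowerSeries.coeff_zero_eq_constantCoeff_apply, h, map_zero]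
  | succ d ih =>
    intro F hF
    have hF' : MvPowerSeries.finSuccEquiv O d F ≠ 0 := by
      rwa [Ne, EmbeddingLike.map_eq_zero_iff]
    obtain ⟨n, hn⟩ : ∃ n, coeff n (MvPowerSeries.finSuccEquiv O d F) ≠ 0 := by
      by_contra h
      push Not at h
      exact hF' (PowerSeries.ext fun n => by rw [h n, map_zero])
    obtain ⟨j, hj⟩ := ih hn
    have h1 : PowerSeries.map j (MvPowerSeries.finSuccEquiv O d F) ≠ 0 := by
      intro h
      apply hj
      rw [← PowerSeries.coeff_map, h, map_zero]
    obtain ⟨Φ, hΦ⟩ := PS_one h1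
    exact ⟨(Φ.comp (PowerSeries.map j)).comp (MvPowerSeries.finSuccEquiv O d).toRingHom, hΦ⟩

end eval

/-- (a) -/
theorem oddPoints_power {p n : ℕ} [Fact p.Prime] {u : Prop} (O : Type) [CommRing O] [IsDomain O]
    [IsDiscreteValuationRing O] [IsAdicComplete (maximalIdeal O) O] {f : ℕ} (hf : Odd f)
    (hcard : Nat.card (ResidueField O) = p ^ f)
    (hp : (p : O) = 0 ∨ u ∨ ∃ e, (p : O) ∉ maximalIdeal O ^ (e + 1) ∧ e * n + 1 < p) (d : ℕ) :
    OddPoints p n u (MvPowerSeries (Fin d) O) := by
  intro I hI a _ haI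
  have h0 : a ≠ 0 := by
    rintro rfl
    exact haI 1 (by rw [pow_one]; exact I.zero_mem)
  by_cases hI0 : I = ⊥
  · obtain ⟨Φ, hΦ⟩ := PS_many d h0
    refine ⟨O, inferInstance, inferInstance, inferInstance, Φ, f, inferInstance, hf, hcard,
      ?_, hΦ, hp⟩
    intro x hx
    rw [hI0] at hx
    rw [(Submodule.mem_bot _).1 hx, map_zero]
  · have h1 := hI.resolve_left hI0
    have hp0 : (p : O) ≠ 0 := by
      intro h
      apply hI0
      rw [h1, ← map_natCast (MvPowerSeries.C (σ := Fin d) (R := O)), h, map_zero,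
        Ideal.span_singleton_eq_bot]
    obtain ⟨ϖ, hϖ⟩ := IsDiscreteValuationRing.exists_irreducible O
    obtain ⟨E, v, hE⟩ := IsDiscreteValuationRing.eq_unit_mul_pow_irreducible hp0 hϖ
    set k := ResidueField O with hk
    -- the reduction is not zero
    have h2 : MvPowerSeries.map (σ := Fin d) (residue O) a ≠ 0 := by
      intro h
      have h3 : ∀ α, ϖ ∣ MvPowerSeries.coeff α a := by
        intro α
        have h4 := congrArg (MvPowerSeries.coeff α) h
        rw [MvPowerSeries.coeff_map, map_zero, residue_eq_zero_iff, hϖ.maximalIdeal_eq,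
          Ideal.mem_span_singleton] at h4
        exact h4
      choose b hb using h3
      have h5 : a = MvPowerSeries.C ϖ * (show MvPowerSeries (Fin d) O from b) := by
        ext α
        rw [MvPowerSeries.coeff_C_mul, hb α]
        rfl
      apply haI E
      rw [h1, Ideal.mem_span_singleton, h5, mul_pow, ← map_pow,
        ← map_natCast (MvPowerSeries.C (σ := Fin d) (R := O)), hE, mul_comm (v : O)]
      refine Dvd.dvd.mul_right ?_ _
      refine map_dvd _ ?_
      exact (IsUnit.dvd_mul_right v.isUnit).1 (dvd_of_eq (by ring)) |>.trans (dvd_refl _)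
    let φ : O →+* k⟦X⟧ := (PowerSeries.C (R := k)).comp (residue O)
    have h3 : MvPowerSeries.map (σ := Fin d) φ a ≠ 0 := by
      intro h
      apply h2
      ext α
      have h4 := congrArg (MvPowerSeries.coeff α) h
      rw [MvPowerSeries.coeff_map, map_zero] at h4
      rw [MvPowerSeries.coeff_map, map_zero]
      exact PowerSeries.C_injective (h4.trans (map_zero _).symm)
    have hcompl : IsAdicComplete (maximalIdeal k⟦X⟧) k⟦X⟧ := by
      rw [PowerSeries.maximalIdeal_eq_span_X]
      infer_instance
    obtain ⟨Φ, hΦ⟩ := PS_many d h3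
    have hfin : Finite k := Nat.finite_of_card_ne_zero (by
      rw [hcard]
      exact pow_ne_zero _ (Fact.out : p.Prime).ne_zero)
    have hpk : (p : k) = 0 := by
      have hft : Fintype k := Fintype.ofFinite k
      have h5 : ((Nat.card k : ℕ) : k) = 0 := by
        rw [Nat.card_eq_fintype_card]
        exact Nat.cast_card_eq_zero k
      rw [hcard, Nat.cast_pow] at h5
      exact pow_eq_zero_iff hf.pos.ne' |>.1 h5
    have hpX : (p : k⟦X⟧) = 0 := by
      rw [← map_natCast (PowerSeries.C (R := k)), hpk, map_zero]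
    refine ⟨k⟦X⟧, inferInstance, inferInstance, inferInstance, Φ.comp (MvPowerSeries.map φ), f,
      hcompl, hf, ?_, ?_, hΦ, Or.inl hpX⟩
    · rw [← hcard]
      exact Nat.card_congr PowerSeries.residueFieldOfPowerSeries.toEquiv
    · intro x hx
      rw [h1] at hx
      obtain ⟨y, rfl⟩ := Ideal.mem_span_singleton.1 hx
      rw [map_mul, map_natCast, hpX, zero_mul]

section complete

variable {R : Type} [CommRing R] [IsLocalRing R]

private theorem PS_mem (f : R⟦X⟧) : f ∈ maximalIdeal R⟦X⟧ ↔ constantCoeff f ∈ maximalIdeal R := by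
  rw [mem_maximalIdeal, mem_maximalIdeal, mem_nonunits_iff, mem_nonunits_iff,
    PowerSeries.isUnit_iff_constantCoeff]

/-- the powers of the maximal ideal -/
private theorem PS_mem_pow (n : ℕ) (f : R⟦X⟧) : f ∈ maximalIdeal R⟦X⟧ ^ n ↔
    ∀ i < n, coeff i f ∈ maximalIdeal R ^ (n - i) := by
  constructor
  · intro h
    induction n generalizing f with
    | zero => intro i hi; omega
    | succ n ih =>
      rw [pow_succ] at h
      refine Submodule.mul_induction_on h ?_ ?_
      · intro g hg x hx i hi
        rw [PowerSeries.coeff_mul]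
        refine Ideal.sum_mem _ fun z hz => ?_
        have hz' : z.1 + z.2 = i := Finset.HasAntidiagonal.mem_antidiagonal.1 hz
        rcases Nat.eq_zero_or_pos z.2 with h0 | h0
        · have h1 : coeff z.2 x ∈ maximalIdeal R := by
            rw [h0, coeff_zero_eq_constantCoeff_apply]
            exact (PS_mem x).1 hx
          rcases Nat.lt_or_ge z.1 n with h2 | h2
          · have h3 := Ideal.mul_mem_mul (ih g hg z.1 h2) h1
            rw [← pow_succ] at h3
            exact Ideal.pow_le_pow_right (by omega) h3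
          · have h3 : n + 1 - i = 1 := by omega
            rw [h3, pow_one]
            exact Ideal.mul_mem_left _ _ h1
        · rcases Nat.lt_or_ge z.1 n with h2 | h2
          · exact Ideal.mul_mem_right _ _ (Ideal.pow_le_pow_right (by omega) (ih g hg z.1 h2))
          · omega
      · intro g x hg hx i hi
        rw [map_add]
        exact add_mem (hg i hi) (hx i hi)
  · intro h
    have h1 : f = (∑ i ∈ Finset.range n, C (coeff i f) * X ^ i) +
      (f - ∑ i ∈ Finset.range n, C (coeff i f) * X ^ i) := by ring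
    rw [h1]
    have hX : (X : R⟦X⟧) ∈ maximalIdeal R⟦X⟧ := by
      rw [PS_mem]
      simp
    refine add_mem ?_ ?_
    · refine Ideal.sum_mem _ fun i hi => ?_
      have h3 := h i (Finset.mem_range.1 hi)
      have h4 : (maximalIdeal R).map (C (R := R)) ≤ maximalIdeal R⟦X⟧ := by
        rw [Ideal.map_le_iff_le_comap]
        intro x hx
        rw [Ideal.mem_comap, PS_mem]
        simpa using hx
      have h5 : C (coeff i f) ∈ maximalIdeal R⟦X⟧ ^ (n - i) := by
        refine Ideal.pow_right_mono h4 _ ?_
        rw [← Ideal.map_pow]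
        exact Ideal.mem_map_of_mem _ h3
      have h6 := Ideal.mul_mem_mul h5 (Ideal.pow_mem_pow hX i)
      rw [← pow_add] at h6
      rwa [Nat.sub_add_cancel (Finset.mem_range.1 hi).le] at h6
    · obtain ⟨g, hg⟩ : (X : R⟦X⟧) ^ n ∣ f - ∑ i ∈ Finset.range n, C (coeff i f) * X ^ i := by
        rw [PowerSeries.X_pow_dvd_iff]
        intro i hi
        rw [map_sub, map_sum, Finset.sum_eq_single i]
        · rw [PowerSeries.coeff_C_mul_X_pow, if_pos rfl, sub_self]
        · intro j _ hj
          rw [PowerSeries.coeff_C_mul_X_pow, if_neg hj.symm]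
        · intro h0
          exact absurd (Finset.mem_range.2 hi) h0
      rw [hg]
      exact Ideal.mul_mem_right _ _ (Ideal.pow_mem_pow hX n)

private theorem PS_complete (h : IsAdicComplete (maximalIdeal R) R) :
    IsAdicComplete (maximalIdeal R⟦X⟧) R⟦X⟧ := by
  have hsm := @Helper38.EQ.AdicComplete_smodEq
  refine { haus' := ?_, prec' := ?_ }
  · intro x hx
    ext i
    rw [map_zero]
    refine h.haus' _ fun n => ?_
    rw [hsm, sub_zero]
    have h1 := (hsm _ _ _ _).1 (hx (n + i))
    rw [sub_zero, PS_mem_pow] at h1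
    rcases Nat.eq_zero_or_pos n with rfl | hn
    · rw [pow_zero, Ideal.one_eq_top]
      trivial
    · have h2 := h1 i (by omega)
      rwa [Nat.add_sub_cancel] at h2
  · intro f hf
    have h1 : ∀ (i : ℕ) {m n : ℕ}, m ≤ n →
        coeff i (f (m + i)) - coeff i (f (n + i)) ∈ maximalIdeal R ^ m := by
      intro i m n hmn
      have h2 := (hsm _ _ _ _).1 (hf (m := m + i) (n := n + i) (by omega))
      rw [PS_mem_pow] at h2
      rcases Nat.eq_zero_or_pos m with rfl | hm
      · rw [pow_zero, Ideal.one_eq_top]
        trivial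
      · have h3 := h2 i (by omega)
        rwa [Nat.add_sub_cancel, map_sub] at h3
    have h2 : ∀ i : ℕ, ∃ L : R, ∀ n, coeff i (f (n + i)) - L ∈ maximalIdeal R ^ n := by
      intro i
      obtain ⟨L, hL⟩ := h.prec' (fun n => coeff i (f (n + i))) (by
        intro m n hmn
        exact (hsm _ _ _ _).2 (h1 i hmn))
      exact ⟨L, fun n => (hsm _ _ _ _).1 (hL n)⟩
    choose L hL using h2
    refine ⟨PowerSeries.mk L, fun n => ?_⟩
    rw [hsm, PS_mem_pow]
    intro i hi
    rw [map_sub, coeff_mk]
    have h3 := hL i (n - i)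
    rwa [Nat.sub_add_cancel hi.le] at h3

end complete

/-- (b) -/
theorem isAdicComplete_power (O : Type) [CommRing O] [IsLocalRing O]
    [IsAdicComplete (maximalIdeal O) O] (d : ℕ) :
    IsAdicComplete (maximalIdeal (MvPowerSeries (Fin d) O)) (MvPowerSeries (Fin d) O) := by
  induction d with
  | zero =>
    exact Helper38.EQ.AdicComplete_equiv (MvPowerSeries.isEmptyEquiv (Fin 0) O).toRingEquiv.symm
      inferInstance
  | succ d ih =>
    exact Helper38.EQ.AdicComplete_equiv (MvPowerSeries.finSuccEquiv O d).toRingEquiv.symm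
      (PS_complete ih)

/-- The residue field of the ring of power series. -/
theorem residuePower (O : Type) [CommRing O] [IsLocalRing O] (d : ℕ) :
    Nonempty (ResidueField (MvPowerSeries (Fin d) O) ≃+* ResidueField O) := by
  have hloc : IsLocalHom (MvPowerSeries.constantCoeff (σ := Fin d) (R := O)) :=
    ⟨fun f hf => MvPowerSeries.isUnit_iff_constantCoeff.2 hf⟩
  refine ⟨RingEquiv.ofBijective (ResidueField.map
    (MvPowerSeries.constantCoeff (σ := Fin d) (R := O))) ⟨RingHom.injective _, fun y => ?_⟩⟩
  obtain ⟨x, rfl⟩ := residue_surjective y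
  exact ⟨residue _ (MvPowerSeries.C x), by
    rw [ResidueField.map_residue, MvPowerSeries.constantCoeff_C]⟩

theorem finite_residue_power (O : Type) [CommRing O] [IsLocalRing O] [Finite (ResidueField O)]
    (d : ℕ) : Finite (ResidueField (MvPowerSeries (Fin d) O)) := by
  obtain ⟨e⟩ := residuePower O d
  exact Finite.of_equiv _ e.symm.toEquiv

theorem charP_residue_power (O : Type) [CommRing O] [IsLocalRing O] (p : ℕ)
    [CharP (ResidueField O) p] (d : ℕ) : CharP (ResidueField (MvPowerSeries (Fin d) O)) p := by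
  obtain ⟨e⟩ := residuePower O d
  exact charP_of_injective_ringHom (f := e.symm.toRingHom) e.symm.injective p

theorem card_residue_power (O : Type) [CommRing O] [IsLocalRing O] (d : ℕ) :
    Nat.card (ResidueField (MvPowerSeries (Fin d) O)) = Nat.card (ResidueField O) := by
  obtain ⟨e⟩ := residuePower O d
  exact Nat.card_congr e.toEquiv

end Pool.Agent.Helper84.T5
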