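import Pool.Agent.Helper84.T5.Crit
import Pool.Agent.Helper42.SOG.Count

/-!
# The proportion of the linking data whose discriminant is not a square

For fixed values of the other entries, the discriminant is a quadratic polynomial in the entry `l 2 0`
whose leading coefficient is a square, and it takes values which are not squares for half of the
values of this entry.
-/

set_option autoImplicit false

namespace Pool.Agent.Helper84.T5

open Finset

section field

variable {p : ℕ} [Fact p.Prime]

private lemma Prop_card_hyp (hp : p ≠ 2) {γ : ZMod p} (hγ : γ ≠ 0) :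
    (univ.filter fun z : ZMod p × ZMod p => z.1 ^ 2 - z.2 ^ 2 = γ).card + 1 = p := by
  classical
  have h2 : (2 : ZMod p) ≠ 0 := by
    intro h
    have h3 : ((2 : ℕ) : ZMod p) = 0 := by exact_mod_cast h
    rw [ZMod.natCast_eq_zero_iff] at h3
    exact hp ((Nat.prime_dvd_prime_iff_eq (Fact.out : p.Prime) Nat.prime_two).1 h3)
  have h1 : (univ.filter fun z : ZMod p × ZMod p => z.1 ^ 2 - z.2 ^ 2 = γ).card =
      (univ.erase (0 : ZMod p)).card := by
    refine Finset.card_nbij' (fun z => z.1 + z.2) (fun u => ((u + γ / u) / 2, (u - γ / u) / 2))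
      ?_ ?_ ?_ ?_
    · intro z hz
      have hz' := (mem_filter.1 hz).2
      refine mem_coe.2 (mem_erase.2 ⟨fun h => hγ ?_, mem_univ _⟩)
      simp only at h
      rw [← hz']
      linear_combination (z.1 - z.2) * h
    · intro u hu
      have hu' : u ≠ 0 := (mem_erase.1 (mem_coe.1 hu)).1
      refine mem_coe.2 (mem_filter.2 ⟨mem_univ _, ?_⟩)
      simp only
      field_simp
      ring
    · intro z hz
      have hz' := (mem_filter.1 (mem_coe.1 hz)).2
      have h3 : z.1 + z.2 ≠ 0 := by
        intro h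
        apply hγ
        rw [← hz']
        linear_combination (z.1 - z.2) * h
      have h4 : γ / (z.1 + z.2) = z.1 - z.2 := by
        rw [div_eq_iff h3, ← hz']
        ring
      simp only [h4]
      refine Prod.ext ?_ ?_
      · simp only
        field_simp
        ring
      · simp only
        field_simp
        ring
    · intro u hu
      have hu' : u ≠ 0 := (mem_erase.1 (mem_coe.1 hu)).1
      simp only
      field_simp
      ring
  rw [h1, Finset.card_erase_of_mem (mem_univ _), card_univ, ZMod.card]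
  have := (Fact.out : p.Prime).pos
  omega

private lemma Prop_card_sq (hp : p ≠ 2) {γ : ZMod p} (hγ : γ ≠ 0) :
    p ≤ 2 * (univ.filter fun y : ZMod p => ¬ IsSquare (y ^ 2 - γ)).card + 1 := by
  classical
  have h2 : (2 : ZMod p) ≠ 0 := by
    intro h
    have h3 : ((2 : ℕ) : ZMod p) = 0 := by exact_mod_cast h
    rw [ZMod.natCast_eq_zero_iff] at h3
    exact hp ((Nat.prime_dvd_prime_iff_eq (Fact.out : p.Prime) Nat.prime_two).1 h3)
  have hN := Prop_card_hyp hp hγ
  have h3 : (univ.filter fun z : ZMod p × ZMod p => z.1 ^ 2 - z.2 ^ 2 = γ).card =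
      ∑ y : ZMod p, (univ.filter fun r : ZMod p => y ^ 2 - r ^ 2 = γ).card := by
    rw [Finset.card_filter, ← Finset.univ_product_univ, Finset.sum_product]
    refine Finset.sum_congr rfl fun y _ => ?_
    rw [Finset.card_filter]
  have h4 : ∀ y : ZMod p, 2 * (if IsSquare (y ^ 2 - γ) then 1 else 0) ≤
      (univ.filter fun r : ZMod p => y ^ 2 - r ^ 2 = γ).card + if y ^ 2 = γ then 1 else 0 := by
    intro y
    split_ifs with h5 h6 h6
    · have h7 : (0 : ZMod p) ∈ univ.filter fun r : ZMod p => y ^ 2 - r ^ 2 = γ := by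
        rw [mem_filter]
        refine ⟨mem_univ _, ?_⟩
        rw [h6]
        ring
      have := Finset.card_pos.2 ⟨_, h7⟩
      omega
    · obtain ⟨r, hr⟩ := h5
      have hr0 : r ≠ 0 := by
        rintro rfl
        apply h6
        linear_combination hr
      have h7 : ({r, -r} : Finset (ZMod p)) ⊆ univ.filter fun r : ZMod p => y ^ 2 - r ^ 2 = γ := by
        intro s hs
        rw [mem_filter]
        refine ⟨mem_univ _, ?_⟩
        rcases mem_insert.1 hs with rfl | hs
        · linear_combination hr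
        · rw [mem_singleton.1 hs]
          linear_combination hr
      have h8 : ({r, -r} : Finset (ZMod p)).card = 2 := by
        refine Finset.card_pair fun h => ?_
        have h9 : 2 * r = 0 := by linear_combination h
        rcases mul_eq_zero.1 h9 with h | h
        · exact h2 h
        · exact hr0 h
      have := Finset.card_le_card h7
      omega
    · omega
    · omega
  have h5 : (univ.filter fun y : ZMod p => y ^ 2 = γ).card ≤ 2 := by
    by_cases h : ∃ y : ZMod p, y ^ 2 = γ
    · obtain ⟨y, hy⟩ := h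
      have h6 : (univ.filter fun y : ZMod p => y ^ 2 = γ) ⊆ {y, -y} := by
        intro z hz
        have hz' := (mem_filter.1 hz).2
        rw [← hy] at hz'
        rcases sq_eq_sq_iff_eq_or_eq_neg.1 hz' with h | h
        · rw [h]
          exact mem_insert_self _ _
        · rw [h]
          exact mem_insert_of_mem (mem_singleton_self _)
      exact (Finset.card_le_card h6).trans Finset.card_le_two
    · have h6 : (univ.filter fun y : ZMod p => y ^ 2 = γ) = ∅ := by
        rw [Finset.filter_eq_empty_iff]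
        intro y _ hy
        exact h ⟨y, hy⟩
      rw [h6, Finset.card_empty]
      omega
  have h6 := Finset.sum_le_sum fun y (_ : y ∈ (univ : Finset (ZMod p))) => h4 y
  rw [Finset.sum_add_distrib, ← h3, ← Finset.mul_sum, ← Finset.card_filter,
    ← Finset.card_filter] at h6
  have h7 := Finset.card_filter_add_card_filter_not (s := (univ : Finset (ZMod p)))
    (fun y : ZMod p => IsSquare (y ^ 2 - γ))
  rw [card_univ, ZMod.card] at h7
  omega

private lemma Prop_card_quad (hp : p ≠ 2) {α β γ : ZMod p} (hα : α ≠ 0) (hγ : γ ≠ 0) :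
    p ≤ 2 * (univ.filter fun x : ZMod p => ¬ IsSquare ((α * x + β) ^ 2 - γ)).card + 1 := by
  classical
  have h1 : (univ.filter fun x : ZMod p => ¬ IsSquare ((α * x + β) ^ 2 - γ)).card =
      (univ.filter fun y : ZMod p => ¬ IsSquare (y ^ 2 - γ)).card := by
    refine Finset.card_nbij' (fun x => α * x + β) (fun y => (y - β) / α) ?_ ?_ ?_ ?_
    · intro x hx
      exact mem_coe.2 (mem_filter.2 ⟨mem_univ _, (mem_filter.1 (mem_coe.1 hx)).2⟩)
    · intro y hy
      refine mem_coe.2 (mem_filter.2 ⟨mem_univ _, ?_⟩)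
      have h2 : α * ((y - β) / α) + β = y := by
        field_simp
        ring
      simp only [h2]
      exact (mem_filter.1 (mem_coe.1 hy)).2
    · intro x _
      simp only
      field_simp
      ring
    · intro y _
      simp only
      field_simp
      ring
  rw [h1]
  exact Prop_card_sq hp hγ

end field

/-- the square root of the leading coefficient -/
private def Prop_alp {R : Type} [CommRing R] (l : Fin 4 → Fin 4 → R) : R :=
  (l 0 2 * l 1 3 - l 0 3 * l 1 2) * l 3 1 + (l 0 1 * l 3 2 - l 0 2 * l 3 1) * l 1 3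

/-- the discriminant of the discriminant -/
private def Prop_gam {R : Type} [CommRing R] (l : Fin 4 → Fin 4 → R) : R :=
  let a₁ := (l 0 2 * l 1 3 - l 0 3 * l 1 2) * l 3 1
  let a₀ := - ((l 0 2 * l 1 3 - l 0 3 * l 1 2) * l 2 1 * l 3 0)
  let c₁ := - ((l 0 1 * l 3 2 - l 0 2 * l 3 1) * l 1 3)
  let c₀ := (l 0 1 * l 3 2 - l 0 2 * l 3 1) * l 1 0 * l 2 3
  let b := (l 0 1 * l 2 3 - l 0 3 * l 2 1) * (l 1 0 * l 3 2 - l 1 2 * l 3 0)
  4 * b * (b * a₁ * c₁ + (a₁ - c₁) * (a₁ * c₀ - c₁ * a₀))

/-- the constant coefficient -/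
private def Prop_bet {R : Type} [CommRing R] (l : Fin 4 → Fin 4 → R) : R :=
  let a₁ := (l 0 2 * l 1 3 - l 0 3 * l 1 2) * l 3 1
  let a₀ := - ((l 0 2 * l 1 3 - l 0 3 * l 1 2) * l 2 1 * l 3 0)
  let c₁ := - ((l 0 1 * l 3 2 - l 0 2 * l 3 1) * l 1 3)
  let c₀ := (l 0 1 * l 3 2 - l 0 2 * l 3 1) * l 1 0 * l 2 3
  let b := (l 0 1 * l 2 3 - l 0 3 * l 2 1) * (l 1 0 * l 3 2 - l 1 2 * l 3 0)
  (a₁ - c₁) * (a₀ - c₀) - b * (a₁ + c₁)

private lemma Prop_disc_eq {R : Type} [CommRing R] (l : Fin 4 → Fin 4 → R) :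
    Prop_alp l ^ 2 * disc l = (Prop_alp l ^ 2 * l 2 0 + Prop_bet l) ^ 2 - Prop_gam l := by
  simp only [Prop_alp, Prop_bet, Prop_gam, disc]
  ring

/-- summation over one coordinate -/
private lemma Prop_sum_update {σ K : Type} [Fintype σ] [DecidableEq σ] [Fintype K] (a : σ)
    (F : (σ → K) → ℕ) :
    ∑ f : σ → K, ∑ x : K, F (Function.update f a x) = Fintype.card K * ∑ f : σ → K, F f := by
  classical
  have h1 : ∑ f : σ → K, ∑ x : K, F (Function.update f a x) =
      ∑ z : (σ → K) × K, F (Function.update z.1 a z.2) := by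
    rw [Fintype.sum_prod_type]
  have h2 : ∑ z : (σ → K) × K, F (Function.update z.1 a z.2) = ∑ z : (σ → K) × K, F z.1 := by
    refine Finset.sum_nbij' (fun z => (Function.update z.1 a z.2, z.1 a))
      (fun z => (Function.update z.1 a z.2, z.1 a)) ?_ ?_ ?_ ?_ ?_
    · intro z _; exact mem_univ _
    · intro z _; exact mem_univ _
    · intro z _
      simp
    · intro z _
      simp
    · intro z _
      rfl
  have h3 : ∑ z : (σ → K) × K, F z.1 = Fintype.card K * ∑ f : σ → K, F f := by
    rw [Fintype.sum_prod_type, Finset.mul_sum]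
    refine Finset.sum_congr rfl fun f _ => ?_
    change ∑ _y : K, F f = Fintype.card K * F f
    rw [Finset.sum_const, card_univ, smul_eq_mul]
  rw [h1, h2, h3]

private lemma Prop_half (p : ℕ) [Fact p.Prime] (hp : p ≠ 2) :
    (univ.filter (fun f : Fin 4 × Fin 4 → ZMod p =>
      Prop_alp (fun i j => f (i, j)) * Prop_gam (fun i j => f (i, j)) ≠ 0)).card * p ≤
    (univ.filter (fun f : Fin 4 × Fin 4 → ZMod p =>
      Prop_alp (fun i j => f (i, j)) * Prop_gam (fun i j => f (i, j)) ≠ 0)).card +
    2 * p * (univ.filter (fun f : Fin 4 × Fin 4 → ZMod p =>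
      ¬ IsSquare (disc fun i j => f (i, j)))).card := by
  classical
  set good : (Fin 4 × Fin 4 → ZMod p) → Prop := fun f =>
    Prop_alp (fun i j => f (i, j)) * Prop_gam (fun i j => f (i, j)) ≠ 0 with hgood
  set ns : (Fin 4 × Fin 4 → ZMod p) → Prop := fun f => ¬ IsSquare (disc fun i j => f (i, j)) with hns
  have h1 : ∀ (f : Fin 4 × Fin 4 → ZMod p), good f →
      p ≤ 2 * (univ.filter fun x : ZMod p => ns (Function.update f (2, 0) x)).card + 1 := by
    intro f hf
    have hα : Prop_alp (fun i j => f (i, j)) ≠ 0 := left_ne_zero_of_mul hf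
    have hγ : Prop_gam (fun i j => f (i, j)) ≠ 0 := right_ne_zero_of_mul hf
    have h2 := Prop_card_quad hp (β := Prop_bet (fun i j => f (i, j)))
      (pow_ne_zero 2 hα) hγ
    have h3 : (univ.filter fun x : ZMod p => ns (Function.update f (2, 0) x)) =
        univ.filter fun x : ZMod p => ¬ IsSquare ((Prop_alp (fun i j => f (i, j)) ^ 2 * x +
          Prop_bet (fun i j => f (i, j))) ^ 2 - Prop_gam (fun i j => f (i, j))) := by
      refine Finset.filter_congr fun x _ => ?_
      have h4 := Prop_disc_eq fun i j => Function.update f ((2 : Fin 4), (0 : Fin 4)) x (i, j)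
      have h5 : Prop_alp (fun i j => Function.update f ((2 : Fin 4), (0 : Fin 4)) x (i, j)) =
          Prop_alp (fun i j => f (i, j)) := by
        simp [Prop_alp]
      have h6 : Prop_bet (fun i j => Function.update f ((2 : Fin 4), (0 : Fin 4)) x (i, j)) =
          Prop_bet (fun i j => f (i, j)) := by
        simp [Prop_bet]
      have h7 : Prop_gam (fun i j => Function.update f ((2 : Fin 4), (0 : Fin 4)) x (i, j)) =
          Prop_gam (fun i j => f (i, j)) := by
        simp [Prop_gam]
      rw [h5, h6, h7, Function.update_self] at h4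
      rw [← h4, hns]
      simp only
      refine not_congr ⟨fun h => ?_, fun h => ?_⟩
      · exact (IsSquare.sq _).mul h
      · have h8 : disc (fun i j => Function.update f ((2 : Fin 4), (0 : Fin 4)) x (i, j)) =
            (Prop_alp (fun i j => f (i, j)))⁻¹ ^ 2 * (Prop_alp (fun i j => f (i, j)) ^ 2 *
              disc (fun i j => Function.update f ((2 : Fin 4), (0 : Fin 4)) x (i, j))) := by
          rw [← mul_assoc, ← mul_pow, inv_mul_cancel₀ hα, one_pow, one_mul]
        rw [h8]
        exact (IsSquare.sq _).mul h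
    rw [h3]
    exact h2
  have h2 := Prop_sum_update (K := ZMod p) ((2 : Fin 4), (0 : Fin 4))
    (fun f => if good f ∧ ns f then 1 else 0)
  rw [ZMod.card, ← Finset.card_filter] at h2
  have hgu : ∀ (f : Fin 4 × Fin 4 → ZMod p) (x : ZMod p),
      good (Function.update f ((2 : Fin 4), (0 : Fin 4)) x) ↔ good f := by
    intro f x
    simp [hgood, Prop_alp, Prop_gam]
  have h3 : ∑ f : Fin 4 × Fin 4 → ZMod p, (if good f then p else 0) ≤
      ∑ f : Fin 4 × Fin 4 → ZMod p, ((if good f then 1 else 0) +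
        2 * ∑ x : ZMod p, if good (Function.update f ((2 : Fin 4), (0 : Fin 4)) x) ∧
          ns (Function.update f ((2 : Fin 4), (0 : Fin 4)) x) then 1 else 0) := by
    refine Finset.sum_le_sum fun f _ => ?_
    by_cases hf : good f
    · simp only [hgu, hf, true_and, if_true]
      have := h1 f hf
      rw [Finset.card_filter] at this
      omega
    · rw [if_neg hf]
      exact Nat.zero_le _
  rw [Finset.sum_add_distrib, ← Finset.mul_sum, h2, ← Finset.card_filter] at h3
  have h4 : ∑ f : Fin 4 × Fin 4 → ZMod p, (if good f then p else 0) =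
      (univ.filter good).card * p := by
    rw [← Finset.sum_filter, Finset.sum_const, smul_eq_mul]
  rw [h4] at h3
  refine h3.trans (Nat.add_le_add_left ?_ _)
  rw [← mul_assoc]
  refine Nat.mul_le_mul_left _ (Finset.card_le_card fun f hf => ?_)
  rw [mem_filter] at hf ⊢
  exact ⟨hf.1, hf.2.2⟩

/-- The proportion of the data `l`, `c` (on the diagonal) for which the discriminant is not a square and a given
polynomial does not vanish, is at least `1 / 2 - C / p`. -/
theorem proportion {D : MvPolynomial (Fin 4 × Fin 4) ℤ} (hD : D ≠ 0) : ∃ C : ℕ,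
    ∀ (p : ℕ) [Fact p.Prime], p ≠ 2 →
      p ^ 16 ≤ 2 * (univ.filter (fun f : Fin 4 × Fin 4 → ZMod p =>
        ¬ IsSquare (disc fun i j => f (i, j)) ∧ MvPolynomial.aeval f D ≠ 0 ∧
          ∀ i, f (i, i) ≠ 0)).card + C * p ^ 15 := by
  classical
  set D' : MvPolynomial (Fin 4 × Fin 4) ℤ := D * ∏ i, MvPolynomial.X (i, i) with hD'def
  have hD' : D' ≠ 0 := mul_ne_zero hD (prod_ne_zero_iff.mpr fun i _ => MvPolynomial.X_ne_zero _)
  set G : MvPolynomial (Fin 4 × Fin 4) ℤ := Prop_alp (fun i j => MvPolynomial.X (i, j)) *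
    Prop_gam (fun i j => MvPolynomial.X (i, j)) with hGdef
  have haev : ∀ (R : Type) [CommRing R] (f : Fin 4 × Fin 4 → R), MvPolynomial.aeval f G =
      Prop_alp (fun i j => f (i, j)) * Prop_gam (fun i j => f (i, j)) := by
    intro R _ f
    simp [hGdef, Prop_alp, Prop_gam]
  have hG : G ≠ 0 := by
    intro h
    have h1 := haev ℤ (fun s => (![![0, 2, 1, 0], ![1, 0, 0, 1], ![0, 1, 0, 1], ![1, 1, 1, 0]] :
      Fin 4 → Fin 4 → ℤ) s.1 s.2)
    rw [h, map_zero] at h1
    revert h1
    simp [Prop_alp, Prop_gam]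
  obtain ⟨C₁, hC₁⟩ := Helper42.SOG.card_int_zeros_le hD'
  obtain ⟨C₂, hC₂⟩ := Helper42.SOG.card_int_zeros_le hG
  refine ⟨2 * C₁ + C₂ + 1, fun p _ hp => ?_⟩
  have hp0 : 0 < p := (Fact.out : p.Prime).pos
  have e1 : (univ.filter (fun f : Fin 4 × Fin 4 → ZMod p =>
      MvPolynomial.aeval f D' = 0)).card ≤ C₁ * p ^ 15 := by
    have h1 := hC₁ p
    rw [Fintype.card_prod, Fintype.card_fin] at h1
    refine Nat.le_of_mul_le_mul_right (c := p) ?_ hp0
    calc _ ≤ C₁ * p ^ (4 * 4) := h1
      _ = C₁ * p ^ 15 * p := by ring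
  have e2 : (univ.filter (fun f : Fin 4 × Fin 4 → ZMod p =>
      MvPolynomial.aeval f G = 0)).card ≤ C₂ * p ^ 15 := by
    have h1 := hC₂ p
    rw [Fintype.card_prod, Fintype.card_fin] at h1
    refine Nat.le_of_mul_le_mul_right (c := p) ?_ hp0
    calc _ ≤ C₂ * p ^ (4 * 4) := h1
      _ = C₂ * p ^ 15 * p := by ring
  -- the good data
  have e3 := Prop_half p hp
  have e4 : (univ.filter (fun f : Fin 4 × Fin 4 → ZMod p =>
      MvPolynomial.aeval f G = 0)).card + (univ.filter (fun f : Fin 4 × Fin 4 → ZMod p =>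
      Prop_alp (fun i j => f (i, j)) * Prop_gam (fun i j => f (i, j)) ≠ 0)).card = p ^ 16 := by
    have h1 := Finset.card_filter_add_card_filter_not
      (s := (univ : Finset (Fin 4 × Fin 4 → ZMod p))) (fun f => MvPolynomial.aeval f G = 0)
    rw [card_univ, Fintype.card_fun, ZMod.card, Fintype.card_prod, Fintype.card_fin] at h1
    rw [← h1]
    congr 1
    congr 1
    refine Finset.filter_congr fun f _ => ?_
    rw [haev]
  have e5 : (univ.filter (fun f : Fin 4 × Fin 4 → ZMod p =>
      ¬ IsSquare (disc fun i j => f (i, j)))).card ≤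
      (univ.filter (fun f : Fin 4 × Fin 4 → ZMod p =>
        ¬ IsSquare (disc fun i j => f (i, j)) ∧ MvPolynomial.aeval f D ≠ 0 ∧
          ∀ i, f (i, i) ≠ 0)).card + (univ.filter (fun f : Fin 4 × Fin 4 → ZMod p =>
      MvPolynomial.aeval f D' = 0)).card := by
    refine (Finset.card_le_card ?_).trans (Finset.card_union_le _ _)
    intro f hf
    rw [mem_union, mem_filter, mem_filter]
    by_cases h0 : MvPolynomial.aeval f D' = 0
    · exact Or.inr ⟨mem_univ _, h0⟩
    · refine Or.inl ⟨mem_univ _, (mem_filter.1 hf).2, ?_, ?_⟩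
      · rw [hD'def, map_mul] at h0
        exact left_ne_zero_of_mul h0
      · intro i hi
        apply h0
        rw [hD'def, map_mul, map_prod, prod_eq_zero (mem_univ i), mul_zero]
        rw [MvPolynomial.aeval_X]
        exact hi
  -- conclusion
  set G₀ := (univ.filter (fun f : Fin 4 × Fin 4 → ZMod p =>
      Prop_alp (fun i j => f (i, j)) * Prop_gam (fun i j => f (i, j)) ≠ 0)).card
  set N₀ := (univ.filter (fun f : Fin 4 × Fin 4 → ZMod p =>
      ¬ IsSquare (disc fun i j => f (i, j)))).card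
  set N₁ := (univ.filter (fun f : Fin 4 × Fin 4 → ZMod p =>
        ¬ IsSquare (disc fun i j => f (i, j)) ∧ MvPolynomial.aeval f D ≠ 0 ∧
          ∀ i, f (i, i) ≠ 0)).card
  have e6 : G₀ ≤ p ^ 16 := by omega
  have e7 : p ^ 16 ≤ G₀ + C₂ * p ^ 15 := by omega
  have e8 : p ^ 16 ≤ 2 * N₀ + (C₂ + 1) * p ^ 15 := by
    refine Nat.le_of_mul_le_mul_right (c := p) ?_ hp0
    have e9 : p ^ 16 * p ≤ (G₀ + C₂ * p ^ 15) * p := Nat.mul_le_mul_right _ e7
    have e10 : (G₀ + C₂ * p ^ 15) * p = G₀ * p + C₂ * p ^ 16 := by ring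
    have e11 : (2 * N₀ + (C₂ + 1) * p ^ 15) * p = 2 * p * N₀ + C₂ * p ^ 16 + p ^ 16 := by ring
    rw [e10] at e9
    rw [e11]
    omega
  have e12 : (2 * C₁ + C₂ + 1) * p ^ 15 = 2 * (C₁ * p ^ 15) + (C₂ + 1) * p ^ 15 := by ring
  rw [e12]
  omega

end Pool.Agent.Helper84.T5
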