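import Pool.Agent.Helper84.T5.Fam
import Pool.Agent.Helper91.FM.Gen

/-!
# Two inertia groups acting with square zero
-/

set_option autoImplicit false
set_option linter.unusedSectionVars false

open NumberField IsLocalRing Pool.Agent.Helper16.TR Pool.Agent.Helper27.TE
  Pool.Agent.Helper27.LP Pool.Agent.Helper27.TFM Matrix

open scoped Pointwise Topology

namespace Pool.Agent.Helper84.T5

open Pool.Agent.Helper77
open Pool.Agent.Helper77.SO hiding Dv Cont ResP FinIm aug IsOrd Irr cf Criterion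
open Pool.Agent.Helper42.SOM

/-- the number of elements of the residue field -/
lemma exists_card (p : ℕ) [Fact p.Prime] (k : Type) [Field k] [Finite k] [CharP k p] :
    ∃ f, Nat.card k = p ^ f := by
  have hft : Fintype k := Fintype.ofFinite k
  obtain ⟨f, -, hf⟩ := FiniteField.card k p
  exact ⟨f, by rw [Nat.card_eq_fintype_card, hf]⟩

/-- unipotent inertia with square zero above two of the prime numbers -/
theorem finite_squares (p : ℕ) [Fact p.Prime] (hp2 : p ≠ 2)
    (A : Type) [CommRing A] [IsLocalRing A] [IsNoetherianRing A] [TopologicalSpace A]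
    [CharP (ResidueField A) p] [Finite (ResidueField A)] [IsAdicComplete (maximalIdeal A) A]
    {q g : Fin 4 → ℕ} {l : Fin 4 → Fin 4 → ℕ} (hL : LinkData p q g l)
    (hAn : Aniso (fun i j => (l i j : ZMod p))) {T : Finset ℕ} (hT : ∀ r ∈ T, r.Prime)
    (hTq : ∀ r ∈ T, p ∣ r - 1 → ∃ i, q i = r) (hA : IsAdic (maximalIdeal A))
    {n : ℕ} (ρ : GK ℚ →* GL (Fin n) A) (hρ : Continuous ρ)
    (hTame : TameSub ℚ (above T) ρ.ker)
    (hr : ∀ g, ∃ (m : ℕ) (a : ResidueField A),
      ((residual ρ g ^ p ^ m : GL (Fin n) (ResidueField A)) :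
        Matrix (Fin n) (Fin n) (ResidueField A)) = a • 1)
    (hchar : (p : A) = 0 ∨ ((n < p ∧ (Spread p q l ∨ Flat p n q l)) ∧
      ∀ Q : Ideal (𝓞 (AlgebraicClosure ℚ)), Q.IsMaximal →
        ∀ τ ∈ Q.inertia (GK ℚ), IsNilpotent ((ρ τ : Matrix (Fin n) (Fin n) A) - 1)))
    (hsq : ∃ a b : Fin 4, a ≠ b ∧ ∀ i, (i = a ∨ i = b) →
      ∀ Q : Ideal (𝓞 (AlgebraicClosure ℚ)), Q.IsMaximal →
        ((q i : ℕ) : 𝓞 (AlgebraicClosure ℚ)) ∈ Q → ∀ τ ∈ Q.inertia (GK ℚ),
          ((ρ τ : Matrix (Fin n) (Fin n) A) - 1) ^ 2 = 0) :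
    (Set.range ρ).Finite := by
  rcases Nat.eq_zero_or_pos n with rfl | hpos
  · exact Set.toFinite _
  set R := ρ.ker with hR
  have hfab : FAb (GK ℚ ⧸ R) := fab_quot hTame (finite_above_rat T hT)
  have hopen : ∀ j : ℕ, IsOpen (KI (quotA ρ) (maximalIdeal A ^ j) : Set (GK ℚ ⧸ R)) := by
    intro j
    have h1 : (KI (quotA ρ) (maximalIdeal A ^ j) : Set (GK ℚ ⧸ R)) =
        (QuotientGroup.mk : GK ℚ → GK ℚ ⧸ R) ''
          (KI ((Units.coeHom _).comp ρ : GK ℚ →* Matrix (Fin n) (Fin n) A)
            (maximalIdeal A ^ j) : Set (GK ℚ)) := by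
      ext x
      constructor
      · intro hx
        obtain ⟨g, rfl⟩ := QuotientGroup.mk'_surjective R x
        exact ⟨g, hx, rfl⟩
      · rintro ⟨g, hg, rfl⟩
        exact hg
    rw [h1]
    exact QuotientGroup.isOpenMap_coe _ (isOpen_KI_of_continuous hA ρ hρ j)
  have hcore : Helper91.FM.DvrFin p (quotA ρ) := by
    intro O _ _ _ hG j ϖ hϖ hc
    have hch := hG.char
    have hfin := hG.finite
    have hcomp := hG.complete
    obtain ⟨f, hf⟩ := exists_card p (ResidueField O)
    let _ : TopologicalSpace O := (maximalIdeal O).adicTopology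
    have hO : IsAdic (maximalIdeal O) := rfl
    have hcont : Continuous (push j ρ) := by
      have h1 : Continuous (Units.map
          ((j.mapMatrix : Matrix (Fin n) (Fin n) A →+* Matrix (Fin n) (Fin n) O) :
            Matrix (Fin n) (Fin n) A →* Matrix (Fin n) (Fin n) O)) :=
        Continuous.units_map _ (Continuous.matrix_map continuous_id (continuous_hom j hA hO))
      exact h1.comp hρ
    have h2 : (Set.range (push j ρ)).Finite := by
      refine finite_main p hp2 hL hAn hT hTq O hO hf (push j ρ) hcont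
        (hTame.mono (push_ker j ρ)) (push_res p A j ρ hr) ?_ (Or.inr ?_)
      · by_cases hp0 : (p : O) = 0
        · exact Or.inl hp0
        · right
          obtain ⟨hval, hU⟩ := hchar.resolve_left fun h => hp0 (by
            rw [← map_natCast j, h, map_zero])
          refine ⟨hval, Or.inr ?_⟩
          intro Q hQ τ hτ
          have h2 := (hU Q hQ τ hτ).map (j.mapMatrix : Matrix (Fin n) (Fin n) A →+* _)
          rwa [map_sub, map_one] at h2
      · obtain ⟨a, b, hab, h⟩ := hsq
        refine ⟨a, b, hab, fun i hi Q hQ hqQ τ hτ => ?_⟩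
        have h2 := congrArg (j.mapMatrix : Matrix (Fin n) (Fin n) A →+* _) (h i hi Q hQ hqQ τ hτ)
        rwa [map_pow, map_sub, map_one, map_zero] at h2
    have h3 : IsOpen (KI (quotA ρ) (RingHom.ker j) : Set (GK ℚ ⧸ R)) :=
      isOpen_KI_of_finiteIndex _ hopen _ (finiteIndex_of_push j ρ h2)
    refine ⟨_, h3, fun g hg => ?_⟩
    change j.mapMatrix (quotA ρ g) = 1
    rw [← sub_eq_zero, ← map_one j.mapMatrix, ← map_sub]
    ext a b
    exact hg a b
  obtain ⟨U, hU', hU1⟩ := Helper91.FM.general_of_dvr hfab p A (quotA ρ) hcore fun j =>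
    ⟨_, hopen j, fun g hg i l => hg i l⟩
  refine Helper27.TE.finite_range_of_open (N := U.comap (QuotientGroup.mk' R))
    (hU'.preimage continuous_quotient_mk') ?_
  intro g hg
  rw [MonoidHom.mem_ker]
  apply Units.ext
  exact hU1 _ hg

end Pool.Agent.Helper84.T5
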