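import Pool.Agent.Helper84.T5.Three

/-!
# Three operators, the inhomogeneous case
-/

set_option autoImplicit false

open Module

namespace Pool.Agent.Helper84.T5

section

variable {K : Type} [Field K] {V : Type} [AddCommGroup V] [Module K V]

/-- three linearly dependent nilpotent operators -/
lemma common_ker_dep [Nontrivial V] {A B C : End K V} (hA : IsNilpotent A)
    (hB : IsNilpotent B) (hC : IsNilpotent C) {a1 b1 c1 s t : K}
    (hAB : A * B - B * A = a1 • A + b1 • B + c1 • C) (h : C = s • A + t • B) :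
    ∃ x : V, x ≠ 0 ∧ A x = 0 ∧ B x = 0 ∧ C x = 0 := by
  have h1 : A * B - B * A = (a1 + c1 * s) • A + (b1 + c1 * t) • B := by
    rw [hAB]
    conv_lhs => rw [h]
    module
  refine common_ker_three hA hB hC (a1 := a1 + c1 * s) (b1 := b1 + c1 * t)
    (a2 := t * (a1 + c1 * s)) (b2 := t * (b1 + c1 * t))
    (a3 := - (s * (a1 + c1 * s))) (b3 := - (s * (b1 + c1 * t))) h1 ?_ ?_
  · have h2 : A * C - C * A = t • (A * B - B * A) := by
      rw [h, mul_add, add_mul, mul_smul_comm, mul_smul_comm, smul_mul_assoc, smul_mul_assoc,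
        smul_sub]
      abel
    rw [h2, h1]
    module
  · have h2 : B * C - C * B = (-s) • (A * B - B * A) := by
      rw [h, mul_add, add_mul, mul_smul_comm, mul_smul_comm, smul_mul_assoc, smul_mul_assoc,
        neg_smul, smul_sub]
      abel
    rw [h2, h1]
    module

/-- Three nilpotent operators with three inhomogeneous relations. -/
theorem common_ker_jac [Nontrivial V] {A B C : End K V} (hA : IsNilpotent A)
    (hB : IsNilpotent B) (hC : IsNilpotent C) {lab lac lba lbc lca lcb u v w : K}
    (hu : u ≠ 0) (hv : v ≠ 0) (hw : w ≠ 0)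
    (hD : lac * lba * lcb - lab * lbc * lca ≠ 0) (hE : lac * lba * lcb + lab * lbc * lca ≠ 0)
    (h1 : lab • (B * A - A * B) + lac • (C * A - A * C) = u • A)
    (h2 : lba • (A * B - B * A) + lbc • (C * B - B * C) = v • B)
    (h3 : lca • (A * C - C * A) + lcb • (B * C - C * B) = w • C) :
    ∃ x : V, x ≠ 0 ∧ A x = 0 ∧ B x = 0 ∧ C x = 0 := by
  set D := lac * lba * lcb - lab * lbc * lca with hDd
  set x := A * B - B * A with hx
  set y := A * C - C * A with hy
  set z := B * C - C * B with hz
  have e1 : lab • x + lac • y = (- u) • A := by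
    rw [neg_smul, ← h1, hx, hy]; module
  have e2 : (- lba) • x + lbc • z = (- v) • B := by
    rw [neg_smul v, ← h2, hx, hz]; module
  have hx' : D • x = (lbc * lca * u) • A + (lac * lcb * v) • B + (lac * lbc * w) • C := by
    have h4 : D • x = - (lbc * lca) • (lab • x + lac • y) -
        (lac * lcb) • ((- lba) • x + lbc • z) + (lac * lbc) • (lca • y + lcb • z) := by
      rw [hDd]; module
    rw [h4, e1, e2, h3]; module
  have hy' : D • y = (- (lba * lcb * u)) • A + (- (lab * lcb * v)) • B +
      (- (lab * lbc * w)) • C := by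
    have h4 : D • y = (lab * lcb) • ((- lba) • x + lbc • z) +
        (lba * lcb) • (lab • x + lac • y) - (lab * lbc) • (lca • y + lcb • z) := by
      rw [hDd]; module
    rw [h4, e1, e2, h3]; module
  have hz' : D • z = (lba * lca * u) • A + (lab * lca * v) • B + (lba * lac * w) • C := by
    have h4 : D • z = - (lab * lca) • ((- lba) • x + lbc • z) -
        (lba * lca) • (lab • x + lac • y) + (lba * lac) • (lca • y + lcb • z) := by
      rw [hDd]; module
    rw [h4, e1, e2, h3]; module
  -- the identity of Jacobi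
  set A1 := lab * lca * v - lba * lcb * u with hA1
  set A2 := lba * lac * w - lbc * lca * u with hA2
  set A3 := lab * lbc * w - lac * lcb * v with hA3
  have hjac : A1 • x + A2 • y + A3 • z = 0 := by
    have h4 : (A * z - z * A) - (B * y - y * B) + (C * x - x * C) = 0 := by
      rw [hx, hy, hz]; noncomm_ring
    have h5 : D • (A * z - z * A) = (lab * lca * v) • x + (lba * lac * w) • y := by
      rw [smul_sub, ← mul_smul_comm, ← smul_mul_assoc, hz', mul_add, mul_add, add_mul, add_mul,
        mul_smul_comm, mul_smul_comm, mul_smul_comm, smul_mul_assoc, smul_mul_assoc, smul_mul_assoc,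
        hx, hy]
      module
    have h6 : D • (B * y - y * B) = (lba * lcb * u) • x - (lab * lbc * w) • z := by
      rw [smul_sub, ← mul_smul_comm, ← smul_mul_assoc, hy', mul_add, mul_add, add_mul, add_mul,
        mul_smul_comm, mul_smul_comm, mul_smul_comm, smul_mul_assoc, smul_mul_assoc, smul_mul_assoc,
        hx, hz]
      module
    have h7 : D • (C * x - x * C) = - (lbc * lca * u) • y - (lac * lcb * v) • z := by
      rw [smul_sub, ← mul_smul_comm, ← smul_mul_assoc, hx', mul_add, mul_add, add_mul, add_mul,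
        mul_smul_comm, mul_smul_comm, mul_smul_comm, smul_mul_assoc, smul_mul_assoc, smul_mul_assoc,
        hy, hz]
      module
    have h8 := congrArg (fun T => D • T) h4
    simp only [smul_add, smul_zero] at h8
    rw [smul_sub, h5, h6, h7] at h8
    rw [hA1, hA2, hA3, ← h8]
    module
  set Ba := A1 * (lbc * lca) - A2 * (lba * lcb) + A3 * (lba * lca) with hBa
  set Bb := A1 * (lac * lcb) - A2 * (lab * lcb) + A3 * (lab * lca) with hBb
  set Bc := A1 * (lac * lbc) - A2 * (lab * lbc) + A3 * (lba * lac) with hBc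
  have hlin : (Ba * u) • A + (Bb * v) • B + (Bc * w) • C = 0 := by
    have h4 : D • (A1 • x + A2 • y + A3 • z) = 0 := by rw [hjac, smul_zero]
    have h5 : D • (A1 • x + A2 • y + A3 • z) = A1 • (D • x) + A2 • (D • y) + A3 • (D • z) := by
      module
    rw [h5, hx', hy', hz'] at h4
    rw [← h4, hBa, hBb, hBc]
    module
  have hne : Ba ≠ 0 ∨ Bb ≠ 0 ∨ Bc ≠ 0 := by
    by_contra hcon
    push Not at hcon
    obtain ⟨ha, hb, hc⟩ := hcon
    have hA1' : A1 = 0 := by
      have : D * A1 = - lab * Ba + lba * Bb := by rw [hDd, hBa, hBb]; ring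
      rw [ha, hb] at this
      have h4 : D * A1 = 0 := by rw [this]; ring
      exact (mul_eq_zero.1 h4).resolve_left hD
    have hA2' : A2 = 0 := by
      have : D * A2 = - lac * Ba + lca * Bc := by rw [hDd, hBa, hBc]; ring
      rw [ha, hc] at this
      have h4 : D * A2 = 0 := by rw [this]; ring
      exact (mul_eq_zero.1 h4).resolve_left hD
    have hA3' : A3 = 0 := by
      have : D * A3 = - lbc * Bb + lcb * Bc := by rw [hDd, hBb, hBc]; ring
      rw [hb, hc] at this
      have h4 : D * A3 = 0 := by rw [this]; ring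
      exact (mul_eq_zero.1 h4).resolve_left hD
    rw [hA1] at hA1'
    rw [hA2] at hA2'
    rw [hA3] at hA3'
    set P := lab * lbc * lca with hP
    set Q := lac * lba * lcb with hQ
    have p1 : P * v = lbc * lba * lcb * u := by rw [hP]; linear_combination lbc * hA1'
    have p2 : P * u = lab * lba * lac * w := by rw [hP]; linear_combination (-lab) * hA2'
    have p3 : P * w = lca * lac * lcb * v := by rw [hP]; linear_combination lca * hA3'
    have q1 : Q * u = lac * lab * lca * v := by rw [hQ]; linear_combination (-lac) * hA1'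
    have q2 : Q * w = lcb * lbc * lca * u := by rw [hQ]; linear_combination lcb * hA2'
    have q3 : Q * v = lba * lab * lbc * w := by rw [hQ]; linear_combination (-lba) * hA3'
    have huvw : u * v * w ≠ 0 := mul_ne_zero (mul_ne_zero hu hv) hw
    have hPQ : P * (P ^ 2 - Q ^ 2) = 0 := by
      have h4 : (P * (P ^ 2 - Q ^ 2)) * (u * v * w) = 0 := by
        have h5 : (P * v) * (P * u) * (P * w) =
            (lbc * lba * lcb * u) * (lab * lba * lac * w) * (lca * lac * lcb * v) := by
          rw [p1, p2, p3]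
        have h6 : (lbc * lba * lcb * u) * (lab * lba * lac * w) * (lca * lac * lcb * v) =
            P * Q ^ 2 * (u * v * w) := by rw [hP, hQ]; ring
        linear_combination h5 + h6
      exact (mul_eq_zero.1 h4).resolve_right huvw
    have hQP : Q * (Q ^ 2 - P ^ 2) = 0 := by
      have h4 : (Q * (Q ^ 2 - P ^ 2)) * (u * v * w) = 0 := by
        have h5 : (Q * u) * (Q * w) * (Q * v) =
            (lac * lab * lca * v) * (lcb * lbc * lca * u) * (lba * lab * lbc * w) := by
          rw [q1, q2, q3]
        have h6 : (lac * lab * lca * v) * (lcb * lbc * lca * u) * (lba * lab * lbc * w) =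
            Q * P ^ 2 * (u * v * w) := by rw [hP, hQ]; ring
        linear_combination h5 + h6
      exact (mul_eq_zero.1 h4).resolve_right huvw
    have h4 : P ^ 2 - Q ^ 2 ≠ 0 := by
      have h5 : P ^ 2 - Q ^ 2 = - ((Q - P) * (Q + P)) := by ring
      rw [h5]
      exact neg_ne_zero.2 (mul_ne_zero hD hE)
    have h5 : P = 0 := (mul_eq_zero.1 hPQ).resolve_right h4
    have h6 : Q = 0 := (mul_eq_zero.1 hQP).resolve_right
      (fun h => h4 (by linear_combination -h))
    apply hD
    rw [hDd, h5, h6, sub_zero]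
  rcases hne with h | h | h
  · -- `A` is a combination of `B` and `C`
    have hu' : Ba * u ≠ 0 := mul_ne_zero h hu
    have hAe : A = (- ((Ba * u)⁻¹ * (Bb * v))) • B + (- ((Ba * u)⁻¹ * (Bc * w))) • C := by
      have h4 : (Ba * u) • A = - ((Bb * v) • B + (Bc * w) • C) := by
        rw [add_assoc] at hlin
        exact eq_neg_of_add_eq_zero_left hlin
      rw [← inv_smul_smul₀ hu' A, h4, smul_neg, smul_add, smul_smul, smul_smul, neg_smul, neg_smul,
        neg_add]
    have hBC : B * C - C * B = (D⁻¹ * (lab * lca * v)) • B + (D⁻¹ * (lba * lac * w)) • C +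
        (D⁻¹ * (lba * lca * u)) • A := by
      rw [← hz, ← inv_smul_smul₀ hD z, hz']
      module
    obtain ⟨x, hx, h5, h6, h7⟩ := common_ker_dep hB hC hA hBC hAe
    exact ⟨x, hx, h7, h5, h6⟩
  · have hv' : Bb * v ≠ 0 := mul_ne_zero h hv
    have hBe : B = (- ((Bb * v)⁻¹ * (Ba * u))) • A + (- ((Bb * v)⁻¹ * (Bc * w))) • C := by
      have h4 : (Bb * v) • B = - ((Ba * u) • A + (Bc * w) • C) := by
        rw [add_right_comm] at hlin
        exact eq_neg_of_add_eq_zero_right hlin
      rw [← inv_smul_smul₀ hv' B, h4, smul_neg, smul_add, smul_smul, smul_smul, neg_smul, neg_smul,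
        neg_add]
    have hAC : A * C - C * A = (D⁻¹ * (- (lba * lcb * u))) • A + (D⁻¹ * (- (lab * lbc * w))) • C +
        (D⁻¹ * (- (lab * lcb * v))) • B := by
      rw [← hy, ← inv_smul_smul₀ hD y, hy']
      module
    obtain ⟨x, hx, h5, h6, h7⟩ := common_ker_dep hA hC hB hAC hBe
    exact ⟨x, hx, h5, h7, h6⟩
  · have hw' : Bc * w ≠ 0 := mul_ne_zero h hw
    have hCe : C = (- ((Bc * w)⁻¹ * (Ba * u))) • A + (- ((Bc * w)⁻¹ * (Bb * v))) • B := by
      have h4 : (Bc * w) • C = - ((Ba * u) • A + (Bb * v) • B) :=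
        eq_neg_of_add_eq_zero_right hlin
      rw [← inv_smul_smul₀ hw' C, h4, smul_neg, smul_add, smul_smul, smul_smul, neg_smul, neg_smul,
        neg_add]
    have hAB : A * B - B * A = (D⁻¹ * (lbc * lca * u)) • A + (D⁻¹ * (lac * lcb * v)) • B +
        (D⁻¹ * (lac * lbc * w)) • C := by
      rw [← hx, ← inv_smul_smul₀ hD x, hx']
      module
    exact common_ker_dep hA hB hC hAB hCe

/-- A common kernel vector, if the first operator vanishes, for three arbitrary right sides. -/
theorem common_ker_zero' [Nontrivial V] {l : Fin 4 → Fin 4 → K} {w : Fin 4 → K}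
    {N : Fin 4 → End K V} (h : Rel l w N) (hnil : ∀ i, IsNilpotent (N i)) (h0 : N 0 = 0)
    (hD : l 1 3 * l 2 1 * l 3 2 - l 1 2 * l 2 3 * l 3 1 ≠ 0)
    (hE : l 1 3 * l 2 1 * l 3 2 + l 1 2 * l 2 3 * l 3 1 ≠ 0) :
    ∃ x : V, x ≠ 0 ∧ ∀ i, N i x = 0 := by
  by_cases hw : ∃ c, c ≠ 0 ∧ w c = 0
  · obtain ⟨c, hc, hwc⟩ := hw
    exact common_ker_zero h hnil h0 hD hc hwc
  push Not at hw
  have h1 := h.three h0 (a := 1) (b := 2) (c := 3) (by decide)
  have h2 := h.three h0 (a := 2) (b := 1) (c := 3) (by decide)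
  have h3 := h.three h0 (a := 3) (b := 1) (c := 2) (by decide)
  obtain ⟨x, hx, h4, h5, h6⟩ := common_ker_jac (hnil 1) (hnil 2) (hnil 3) (hw 1 (by decide))
    (hw 2 (by decide)) (hw 3 (by decide)) hD hE h1 h2 h3
  refine ⟨x, hx, fun i => ?_⟩
  have huniv : ∀ i : Fin 4, i = 0 ∨ i = 1 ∨ i = 2 ∨ i = 3 := by decide
  rcases huniv i with rfl | rfl | rfl | rfl
  · rw [h0, LinearMap.zero_apply]
  · exact h4
  · exact h5
  · exact h6

end

end Pool.Agent.Helper84.T5
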