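import Pool.Agent.Helper84.T5.Main
import Pool.Agent.Helper84.T5.Jac

/-!
# Nilpotent algebras over finite fields
-/

set_option autoImplicit false
set_option linter.unusedSectionVars false

open Module

namespace Pool.Agent.Helper84.T5

section

variable {p : ℕ} [Fact p.Prime] {k : Type} [Field k] [CharP k p]
  {l : Fin 4 → Fin 4 → ZMod p} {V : Type} [AddCommGroup V] [Module k V]

lemma ext_rel [FiniteDimensional k V] (K : Type) [Field K] [CharP K p] [Algebra k K]
    {N : Fin 4 → End k V} {w : Fin 4 → k}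
    (h : Rel (fun i j => ZMod.castHom dvd_rfl k (l i j)) w N) :
    Rel (fun i j => ZMod.castHom dvd_rfl K (l i j)) (fun i => algebraMap k K (w i))
      (fun i => ext k K (N i)) := by
  intro i
  have h1 := congrArg (ext k K) (h i)
  rw [map_sum, ext_smul] at h1
  rw [← h1]
  refine Finset.sum_congr rfl fun j _ => ?_
  rw [ext_smul, map_sub, map_mul, map_mul]
  congr 1
  exact (RingHom.congr_fun (Subsingleton.elim ((algebraMap k K).comp (ZMod.castHom dvd_rfl k))
    (ZMod.castHom dvd_rfl K)) (l i j)).symm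

/-- The operators have a common kernel vector. -/
theorem exists_ker [Finite k] (hp2 : p ≠ 2) (hA : Aniso l) [FiniteDimensional k V] [Nontrivial V]
    {N : Fin 4 → End k V} {w : Fin 4 → k}
    (h : Rel (fun i j => ZMod.castHom dvd_rfl k (l i j)) w N) (hnil : ∀ i, IsNilpotent (N i))
    (hcase : ((∀ i, w i = 0) ∧ ((finrank k V ≤ 5 ∧ ∃ f, Odd f ∧ Nat.card k = p ^ f) ∨
        ∃ a b, a ≠ b ∧ N a * N a = 0 ∧ N b * N b = 0)) ∨
      (finrank k V < p ∧ w 0 ≠ 0 ∧ ∀ i, i ≠ 0 → w i = 0) ∨
      (N 0 = 0 ∧ ((∃ c, c ≠ 0 ∧ w c = 0) ∨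
        l 1 3 * l 2 1 * l 3 2 + l 1 2 * l 2 3 * l 3 1 ≠ 0))) :
    ∃ x : V, x ≠ 0 ∧ ∀ i, N i x = 0 := by
  have hpp : p.Prime := Fact.out
  let K := AlgebraicClosure k
  have hK : CharP K p := charP_of_injective_algebraMap (algebraMap k K).injective p
  have hfr : finrank K (Fin (finrank k V) → K) = finrank k V := by
    rw [finrank_fin_fun]
  have hnt : Nontrivial (Fin (finrank k V) → K) := by
    have h1 : 0 < finrank k V := finrank_pos
    have : Nonempty (Fin (finrank k V)) := ⟨⟨0, h1⟩⟩
    infer_instance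
  have hd5 : finrank k V ≤ 5 → ∀ d : ℕ, 0 < d → d ≤ finrank K (Fin (finrank k V) → K) →
      ((d : K) ≠ 0 ∨ d = 3 ∨ d = 5) := by
    intro h5 d hd0 hd1
    rw [hfr] at hd1
    by_contra hcon
    push Not at hcon
    obtain ⟨h1, h3, h5'⟩ := hcon
    rw [CharP.cast_eq_zero_iff K p] at h1
    have h6 : p ≠ 4 := by
      rintro rfl
      exact absurd hpp (by decide)
    have h7 := hpp.two_le
    have h8 : d = 1 ∨ d = 2 ∨ d = 4 := by omega
    rcases h8 with rfl | rfl | rfl
    · exact absurd (Nat.le_of_dvd one_pos h1) (by omega)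
    · exact hp2 (le_antisymm (Nat.le_of_dvd two_pos h1) h7)
    · have h9 : p ∣ 2 := hpp.dvd_of_dvd_pow (n := 2) (by norm_num; exact h1)
      exact hp2 (le_antisymm (Nat.le_of_dvd two_pos h9) h7)
  have h2K : (2 : K) ≠ 0 := by
    intro h0
    have h1 : ((2 : ℕ) : K) = 0 := by exact_mod_cast h0
    rw [CharP.cast_eq_zero_iff K p] at h1
    exact hp2 ((Nat.prime_dvd_prime_iff_eq hpp Nat.prime_two).1 h1)
  have hrelK := ext_rel K h
  have hnilK : ∀ i, IsNilpotent (ext k K (N i)) := fun i => (hnil i).map _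
  rcases hcase with ⟨hw, hcase⟩ | ⟨hdim, hw0, hw⟩ | ⟨h0, ⟨c, hc, hwc⟩ | hE⟩
  · obtain ⟨F⟩ := nonempty_frame K hA
    have hwK : ∀ i, algebraMap k K (w i) = 0 := fun i => by rw [hw, map_zero]
    have hcomm := op_commute F hrelK hwK
    have hsum := opA_add_opB F (fun i => ext k K (N i))
    have hnils : ∀ i, IsNilpotent (opA F (fun i => ext k K (N i)) i +
        opB F (fun i => ext k K (N i)) i) := by
      intro i
      rw [hsum]
      exact hnilK i
    rcases hcase with ⟨h5, f, hf, hcard⟩ | ⟨a, b, hab, ha, hb⟩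
    · -- conjugation by the Frobenius automorphism
      let τ : K ≃+* K := iterateFrobeniusEquiv K p f
      have hτ : ∀ x, τ x = x ^ p ^ f := fun x => rfl
      have hτk : ∀ a : k, τ (algebraMap k K a) = algebraMap k K a := by
        intro a
        have hft : Fintype k := Fintype.ofFinite k
        rw [hτ, ← map_pow, ← hcard, Nat.card_eq_fintype_card, FiniteField.pow_card]
      have hiter : ∀ (x y : K), y = x ^ p → x = y ^ p → ∀ m : ℕ, x ^ p ^ (2 * m) = x := by
        intro x y hxy hyx m
        induction m with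
        | zero => rw [mul_zero, pow_zero, pow_one]
        | succ m ih =>
          rw [mul_add, mul_one, pow_add, pow_mul, ih, pow_two, pow_mul, ← hxy, ← hyx]
      have hτP : ∀ i j, τ (F.P i j) = F.Q i j := by
        intro i j
        obtain ⟨m, rfl⟩ := hf
        rw [hτ, pow_add, pow_mul, hiter _ _ (F.pow i j) (F.pow' i j), pow_one, ← F.pow]
      have hτQ : ∀ i j, τ (F.Q i j) = F.P i j := by
        intro i j
        obtain ⟨m, rfl⟩ := hf
        rw [hτ, pow_add, pow_mul, hiter _ _ (F.pow' i j) (F.pow i j), pow_one, ← F.pow']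
      let σ : (Fin (finrank k V) → K) → (Fin (finrank k V) → K) := fun x j => τ (x j)
      have hadd : ∀ x y, σ (x + y) = σ x + σ y := fun x y => funext fun j => map_add τ _ _
      have hsmul : ∀ (c : K) x, σ (c • x) = τ c • σ x := fun c x => funext fun j => map_mul τ _ _
      have hσN : ∀ i x, σ (ext k K (N i) x) = ext k K (N i) (σ x) := by
        intro i x
        rw [ext_apply, ext_apply]
        funext m
        change τ _ = _
        simp only [Matrix.mulVec, dotProduct, Matrix.map_apply, map_sum, map_mul, hτk]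
        rfl
      have hσ0 : σ 0 = 0 := funext fun j => map_zero τ
      have hσsum : ∀ (s : Finset (Fin 4)) (g : Fin 4 → (Fin (finrank k V) → K)),
          σ (∑ j ∈ s, g j) = ∑ j ∈ s, σ (g j) := by
        classical
        intro s g
        induction s using Finset.induction_on with
        | empty => rw [Finset.sum_empty, Finset.sum_empty, hσ0]
        | insert a s ha ih => rw [Finset.sum_insert ha, Finset.sum_insert ha, hadd, ih]
      have hσA : ∀ i x, σ (opA F (fun i => ext k K (N i)) i x) =
          opB F (fun i => ext k K (N i)) i (σ x) := by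
        intro i x
        unfold opA opB
        rw [LinearMap.sum_apply, LinearMap.sum_apply, hσsum]
        refine Finset.sum_congr rfl fun j _ => ?_
        rw [LinearMap.smul_apply, LinearMap.smul_apply, hsmul, hτP, hσN]
      have hσB : ∀ i x, σ (opB F (fun i => ext k K (N i)) i x) =
          opA F (fun i => ext k K (N i)) i (σ x) := by
        intro i x
        unfold opA opB
        rw [LinearMap.sum_apply, LinearMap.sum_apply, hσsum]
        refine Finset.sum_congr rfl fun j _ => ?_
        rw [LinearMap.smul_apply, LinearMap.smul_apply, hsmul, hτQ, hσN]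
      obtain ⟨x, hx, hx'⟩ := common_ker_conj F.ne F.ne' hcomm hnils (lin_opA F _) (lin_opB F _)
        (by rw [hfr]; exact h5) (hd5 h5) τ σ hadd hsmul
        (fun x y hxy => funext fun j => τ.injective (congrFun hxy j)) hσA hσB
      refine ker_descent k K hx fun i => ?_
      have h1 := hx' i
      rwa [hsum] at h1
    · obtain ⟨x, hx, hx'⟩ := common_ker_sq F.ne F.ne' h2K hcomm hnils (lin_opA F _) (lin_opB F _)
        hab (by rw [hsum, ← map_mul, ha, map_zero]) (by rw [hsum, ← map_mul, hb, map_zero])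
      refine ker_descent k K hx fun i => ?_
      have h1 := hx' i
      rwa [hsum] at h1
  · obtain ⟨x, hx, hx'⟩ := common_ker_inh (K := K) hA hrelK hnilK (by rw [hfr]; exact hdim)
      (by rwa [Ne, map_eq_zero_iff _ (algebraMap k K).injective])
      (fun i hi => by rw [hw i hi, map_zero])
    exact ker_descent k K hx hx'
  · exact common_ker_zero h hnil h0 (det_ne_cast hA) hc hwc
  · refine common_ker_zero' h hnil h0 (det_ne_cast hA) ?_
    intro h1
    rw [← map_mul, ← map_mul, ← map_mul, ← map_mul, ← map_add,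
      map_eq_zero_iff _ (ZMod.castHom dvd_rfl k).injective] at h1
    exact hE h1

/-- All products of sufficiently many operators vanish. -/
theorem prod_eq_zero [Finite k] (hp2 : p ≠ 2) (hA : Aniso l) {w : Fin 4 → k} (d : ℕ) :
    ∀ (V : Type) [AddCommGroup V] [Module k V] [FiniteDimensional k V], finrank k V = d →
      ∀ N : Fin 4 → End k V, Rel (fun i j => ZMod.castHom dvd_rfl k (l i j)) w N →
      (∀ i, IsNilpotent (N i)) →
      (((∀ i, w i = 0) ∧ ((d ≤ 5 ∧ ∃ f, Odd f ∧ Nat.card k = p ^ f) ∨
        ∃ a b, a ≠ b ∧ N a * N a = 0 ∧ N b * N b = 0)) ∨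
      (d < p ∧ w 0 ≠ 0 ∧ ∀ i, i ≠ 0 → w i = 0) ∨ (N 0 = 0 ∧ ((∃ c, c ≠ 0 ∧ w c = 0) ∨
        l 1 3 * l 2 1 * l 3 2 + l 1 2 * l 2 3 * l 3 1 ≠ 0))) →
      ∀ s : List (Fin 4), d ≤ s.length → (s.map N).prod = 0 := by
  induction d using Nat.strong_induction_on with
  | _ d ih =>
    intro V _ _ _ hV N hrel hnil hcase s hs
    rcases subsingleton_or_nontrivial V with hsub | hnt
    · ext x
      exact Subsingleton.elim _ _
    have hdpos : 0 < d := by rw [← hV]; exact finrank_pos
    obtain ⟨x, hx, hx'⟩ := exists_ker hp2 hA hrel hnil (by rw [hV]; exact hcase)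
    set W : Submodule k V := ⨅ i, LinearMap.ker (N i) with hW
    have hWk : ∀ i, ∀ y ∈ W, N i y = 0 := by
      intro i y hy
      rw [hW, Submodule.mem_iInf] at hy
      exact LinearMap.mem_ker.1 (hy i)
    have hst : ∀ i, W ≤ W.comap (N i) := by
      intro i y hy
      rw [Submodule.mem_comap, hWk i y hy]
      exact W.zero_mem
    have hxW : x ∈ W := by
      rw [hW, Submodule.mem_iInf]
      exact fun i => LinearMap.mem_ker.2 (hx' i)
    have hWpos : 0 < finrank k W := by
      have : Nontrivial W := ⟨⟨x, hxW⟩, 0, fun h => hx (congrArg Subtype.val h)⟩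
      exact finrank_pos
    have hQ := Submodule.finrank_quotient_add_finrank W
    rw [hV] at hQ
    set N' : Fin 4 → End k (V ⧸ W) := fun i => W.mapQ W (N i) (hst i) with hN'
    have hN'm : ∀ i y, N' i (Submodule.Quotient.mk y) = Submodule.Quotient.mk (N i y) :=
      fun i y => rfl
    have hpow : ∀ (i : Fin 4) (m : ℕ) (y : V),
        (N' i ^ m) (Submodule.Quotient.mk y) = Submodule.Quotient.mk ((N i ^ m) y) := by
      intro i m
      induction m with
      | zero => intro y; rfl
      | succ m ih =>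
        intro y
        rw [pow_succ, pow_succ, Module.End.mul_apply, Module.End.mul_apply, hN'm, ih]
    have hnil' : ∀ i, IsNilpotent (N' i) := by
      intro i
      obtain ⟨m, hm⟩ := hnil i
      refine ⟨m, LinearMap.ext fun y => ?_⟩
      obtain ⟨y, rfl⟩ := Submodule.Quotient.mk_surjective W y
      rw [hpow, hm]
      rfl
    have hsq : ∀ i, N i * N i = 0 → N' i * N' i = 0 := by
      intro i hi
      refine LinearMap.ext fun y => ?_
      obtain ⟨y, rfl⟩ := Submodule.Quotient.mk_surjective W y
      rw [Module.End.mul_apply, hN'm, hN'm, ← Module.End.mul_apply, hi]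
      rfl
    have hrel' : Rel (fun i j => ZMod.castHom dvd_rfl k (l i j)) w N' := by
      intro i
      refine LinearMap.ext fun y => ?_
      obtain ⟨y, rfl⟩ := Submodule.Quotient.mk_surjective W y
      have h1 := congrArg (Submodule.Quotient.mk (p := W)) (LinearMap.congr_fun (hrel i) y)
      rw [LinearMap.sum_apply] at h1 ⊢
      rw [← Submodule.mkQ_apply, map_sum] at h1
      exact h1
    have hcase' : ((∀ i, w i = 0) ∧ ((finrank k (V ⧸ W) ≤ 5 ∧ ∃ f, Odd f ∧ Nat.card k = p ^ f) ∨
        ∃ a b, a ≠ b ∧ N' a * N' a = 0 ∧ N' b * N' b = 0)) ∨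
        (finrank k (V ⧸ W) < p ∧ w 0 ≠ 0 ∧ ∀ i, i ≠ 0 → w i = 0) ∨
        (N' 0 = 0 ∧ ((∃ c, c ≠ 0 ∧ w c = 0) ∨
        l 1 3 * l 2 1 * l 3 2 + l 1 2 * l 2 3 * l 3 1 ≠ 0)) := by
      rcases hcase with ⟨hw, h5⟩ | ⟨hd, h⟩ | ⟨h0, hc⟩
      · left
        refine ⟨hw, ?_⟩
        rcases h5 with ⟨h5, hf⟩ | ⟨a, b, hab, ha, hb⟩
        · exact Or.inl ⟨by omega, hf⟩
        · exact Or.inr ⟨a, b, hab, hsq a ha, hsq b hb⟩
      · exact Or.inr (Or.inl ⟨by omega, h⟩)
      · refine Or.inr (Or.inr ⟨?_, hc⟩)
        refine LinearMap.ext fun y => ?_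
        obtain ⟨y, rfl⟩ := Submodule.Quotient.mk_surjective W y
        rw [hN'm, h0]
        rfl
    have key := ih (finrank k (V ⧸ W)) (by omega) (V ⧸ W) rfl N' hrel' hnil' hcase'
    obtain ⟨i, t, rfl⟩ : ∃ i t, s = i :: t := by
      cases s with
      | nil => simp at hs; omega
      | cons i t => exact ⟨i, t, rfl⟩
    have hprod : ∀ (t : List (Fin 4)) (y : V),
        (t.map N').prod (Submodule.Quotient.mk y) = Submodule.Quotient.mk ((t.map N).prod y) := by
      intro t
      induction t with
      | nil => intro y; rfl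
      | cons a t ih =>
        intro y
        rw [List.map_cons, List.prod_cons, List.map_cons, List.prod_cons, Module.End.mul_apply,
          Module.End.mul_apply, ih, hN'm]
    rw [List.length_cons] at hs
    have h1 := key t (by omega)
    refine LinearMap.ext fun y => ?_
    rw [List.map_cons, List.prod_cons, Module.End.mul_apply, LinearMap.zero_apply]
    apply hWk
    have h2 := hprod t y
    rw [h1, LinearMap.zero_apply] at h2
    exact (Submodule.Quotient.mk_eq_zero W).1 h2.symm

end

end Pool.Agent.Helper84.T5
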