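import Pool.Agent.Helper84.T5.Three

/-!
# Extension of scalars for operators
-/

set_option autoImplicit false

open Module

namespace Pool.Agent.Helper84.T5

section

variable (k K : Type) [Field k] [Field K] [Algebra k K] {V : Type} [AddCommGroup V] [Module k V]
  [FiniteDimensional k V]

/-- extension of scalars -/
noncomputable def ext : End k V →+* End K (Fin (finrank k V) → K) :=
  ((Matrix.toLinAlgEquiv' : Matrix (Fin (finrank k V)) (Fin (finrank k V)) K ≃ₐ[K] _) :
      Matrix (Fin (finrank k V)) (Fin (finrank k V)) K →+* End K (Fin (finrank k V) → K)).comp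
    ((algebraMap k K).mapMatrix.comp
      ((LinearMap.toMatrixAlgEquiv (finBasis k V) : End k V ≃ₐ[k] _) :
        End k V →+* Matrix (Fin (finrank k V)) (Fin (finrank k V)) k))

lemma ext_apply (N : End k V) (x : Fin (finrank k V) → K) : ext k K N x =
    ((LinearMap.toMatrixAlgEquiv (finBasis k V) N).map (algebraMap k K)).mulVec x := rfl

lemma ext_smul (c : k) (N : End k V) : ext k K (c • N) = algebraMap k K c • ext k K N := by
  apply LinearMap.ext
  intro x
  rw [LinearMap.smul_apply, ext_apply, ext_apply, map_smul, ← Matrix.smul_mulVec]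
  congr 1
  ext i j
  simp

/-- descent of common kernel vectors -/
lemma ker_descent {ι : Type} {N : ι → End k V} {x : Fin (finrank k V) → K} (hx : x ≠ 0)
    (h : ∀ i, ext k K (N i) x = 0) : ∃ v : V, v ≠ 0 ∧ ∀ i, N i v = 0 := by
  obtain ⟨a, ha⟩ : ∃ a, x a ≠ 0 := by
    by_contra hcon
    push Not at hcon
    exact hx (funext hcon)
  obtain ⟨φ, hφ⟩ : ∃ φ : Dual k K, φ (x a) ≠ 0 := by
    by_contra hcon
    push Not at hcon
    exact ha ((forall_dual_apply_eq_zero_iff k (x a)).1 hcon)
  set y : Fin (finrank k V) → k := fun j => φ (x j) with hy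
  have hy0 : y ≠ 0 := fun h0 => hφ (congrFun h0 a)
  refine ⟨(finBasis k V).equivFun.symm y, ?_, fun i => ?_⟩
  · intro h0
    exact hy0 ((LinearEquiv.map_eq_zero_iff _).1 h0)
  · have h1 : (LinearMap.toMatrixAlgEquiv (finBasis k V) (N i)).mulVec y = 0 := by
      funext m
      have h2 := congrFun (h i) m
      rw [ext_apply] at h2
      simp only [Matrix.mulVec, dotProduct, Matrix.map_apply, Pi.zero_apply] at h2 ⊢
      have h3 := congrArg φ h2
      rw [map_sum, map_zero] at h3
      rw [← h3]
      refine Finset.sum_congr rfl fun j _ => ?_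
      rw [← Algebra.smul_def, map_smul, smul_eq_mul]
    have h2 : (finBasis k V).equivFun (N i ((finBasis k V).equivFun.symm y)) = 0 := by
      rw [← h1]
      have h3 := LinearMap.toMatrix_mulVec_repr (finBasis k V) (finBasis k V) (N i)
        ((finBasis k V).equivFun.symm y)
      have h4 : ⇑((finBasis k V).repr ((finBasis k V).equivFun.symm y)) = y :=
        (finBasis k V).equivFun.apply_symm_apply y
      rw [h4] at h3
      exact h3.symm
    exact (LinearEquiv.map_eq_zero_iff _).1 h2

end

end Pool.Agent.Helper84.T5
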