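import Pool.Agent.Helper84.T5.Hom

/-!
# The homogeneous case: common kernels
-/

set_option autoImplicit false

open Module

namespace Pool.Agent.Helper84.T5

section conj

variable {K : Type} [Field K] {V : Type} [AddCommGroup V] [Module K V]

/-- the image of a subspace under a semilinear map -/
def conjSub (τ : K ≃+* K) (σ : V → V) (hadd : ∀ x y, σ (x + y) = σ x + σ y)
    (hsmul : ∀ (c : K) x, σ (c • x) = τ c • σ x) (X : Submodule K V) : Submodule K V where
  carrier := σ '' X
  add_mem' := by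
    rintro _ _ ⟨x, hx, rfl⟩ ⟨y, hy, rfl⟩
    exact ⟨x + y, X.add_mem hx hy, hadd x y⟩
  zero_mem' := ⟨0, X.zero_mem, by
    have := hsmul 0 0
    rwa [zero_smul, map_zero, zero_smul] at this⟩
  smul_mem' := by
    rintro c _ ⟨x, hx, rfl⟩
    exact ⟨τ.symm c • x, X.smul_mem _ hx, by rw [hsmul, RingEquiv.apply_symm_apply]⟩

variable [IsAlgClosed K] [FiniteDimensional K V]

/-- A common kernel vector, if the two families are conjugate. -/
theorem common_ker_conj [Nontrivial V] {ω ω' : Fin 4 → Fin 4 → K} (hω : ∀ i j, i ≠ j → ω i j ≠ 0)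
    (hω' : ∀ i j, i ≠ j → ω' i j ≠ 0) {A B : Fin 4 → End K V}
    (hcomm : ∀ i j, A i * B j = B j * A i) (hnil : ∀ i, IsNilpotent (A i + B i))
    (hlin : Lin ω A) (hlin' : Lin ω' B) (hdim : finrank K V ≤ 5)
    (hd : ∀ d : ℕ, 0 < d → d ≤ finrank K V → (d : K) ≠ 0 ∨ d = 3 ∨ d = 5) (τ : K ≃+* K) (σ : V → V)
    (hadd : ∀ x y, σ (x + y) = σ x + σ y) (hsmul : ∀ (c : K) x, σ (c • x) = τ c • σ x)
    (hinj : Function.Injective σ) (hσA : ∀ i x, σ (A i x) = B i (σ x))
    (hσB : ∀ i x, σ (B i x) = A i (σ x)) : ∃ x : V, x ≠ 0 ∧ ∀ i, (A i + B i) x = 0 := by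
  have hσ0 : σ 0 = 0 := by
    have := hsmul 0 0
    rwa [zero_smul, map_zero, zero_smul] at this
  have hfr : ∀ X : Submodule K V, X ≠ ⊥ →
      ((finrank K X : K) ≠ 0 ∨ finrank K X = 3 ∨ finrank K X = 5) := by
    intro X hX
    have : Nontrivial X := Submodule.nontrivial_iff_ne_bot.2 hX
    exact hd _ finrank_pos (Submodule.finrank_le X)
  -- the factors of minimal subspaces
  have hfac : ∀ X : Submodule K V, Min A B X →
      (Sc A X ∨ (Sc B X ∧ 3 ≤ finrank K X)) ∧ (Sc B X ∨ (Sc A X ∧ 3 ≤ finrank K X)) := by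
    intro X hX
    have hle := Submodule.finrank_le X
    constructor
    · rcases factor_min hω hX hcomm hnil hlin (hfr X hX.ne) with h | h | h
      · exact Or.inl h
      · exact Or.inr h
      · omega
    · rcases factor_min hω' hX.symm (fun i j => (hcomm j i).symm)
        (fun i => by rw [add_comm]; exact hnil i) hlin' (hfr X hX.ne) with h | h | h
      · exact Or.inl h
      · exact Or.inr h
      · omega
  have hboth : ∀ X : Submodule K V, Min A B X → Sc A X → Sc B X →
      ∃ x : V, x ≠ 0 ∧ ∀ i, (A i + B i) x = 0 := by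
    rintro X hX ⟨a, ha⟩ ⟨b, hb⟩
    obtain ⟨x, hx, hx0⟩ := Submodule.exists_mem_ne_zero_of_ne_bot hX.ne
    refine ⟨x, hx0, fun i => ?_⟩
    have h1 : (A i + B i) x = (a i + b i) • x := by
      rw [LinearMap.add_apply, ha i x hx, hb i x hx, add_smul]
    obtain ⟨m, hm⟩ := hnil i
    have h2 : ∀ k : ℕ, ((A i + B i) ^ k) x = (a i + b i) ^ k • x := by
      intro k
      induction k with
      | zero => simp
      | succ k ih =>
        rw [pow_succ, Module.End.mul_apply, h1, map_smul, ih, smul_smul, pow_succ, mul_comm]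
    have h3 := h2 m
    rw [hm, LinearMap.zero_apply] at h3
    have h4 := (smul_eq_zero.1 h3.symm).resolve_right hx0
    have h5 : a i + b i = 0 := by
      by_contra h
      exact pow_ne_zero m h h4
    rw [h1, h5, zero_smul]
  -- conjugation
  have hconj : ∀ X : Submodule K V, Min A B X → Min A B (conjSub τ σ hadd hsmul X) := by
    intro X hX
    refine ⟨?_, ?_, ?_, ?_⟩
    · rintro i _ ⟨x, hx, rfl⟩
      exact ⟨B i x, hX.stabB i x hx, hσB i x⟩
    · rintro i _ ⟨x, hx, rfl⟩
      exact ⟨A i x, hX.stabA i x hx, hσA i x⟩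
    · obtain ⟨x, hx, hx0⟩ := Submodule.exists_mem_ne_zero_of_ne_bot hX.ne
      intro h
      have h1 : σ x ∈ conjSub τ σ hadd hsmul X := ⟨x, hx, rfl⟩
      rw [h, Submodule.mem_bot, ← hσ0] at h1
      exact hx0 (hinj h1)
    · intro W hW hWA hWB hW0
      let W' : Submodule K V :=
        { carrier := {x | σ x ∈ W}
          add_mem' := by
            intro x y hx hy
            rw [Set.mem_ofPred_eq, hadd]
            exact W.add_mem hx hy
          zero_mem' := by
            rw [Set.mem_ofPred_eq, hσ0]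
            exact W.zero_mem
          smul_mem' := by
            intro c x hx
            rw [Set.mem_ofPred_eq, hsmul]
            exact W.smul_mem _ hx }
      have h1 : W' = X := by
        refine hX.min W' ?_ ?_ ?_ ?_
        · intro x hx
          obtain ⟨y, hy, hy'⟩ := hW hx
          rw [← hinj hy']
          exact hy
        · intro i x hx
          change σ (A i x) ∈ W
          rw [hσA]
          exact hWB i _ hx
        · intro i x hx
          change σ (B i x) ∈ W
          rw [hσB]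
          exact hWA i _ hx
        · obtain ⟨w, hw, hw0⟩ := Submodule.exists_mem_ne_zero_of_ne_bot hW0
          obtain ⟨y, hy, rfl⟩ := hW hw
          intro h
          have h2 : y ∈ W' := hw
          rw [h, Submodule.mem_bot] at h2
          rw [h2, hσ0] at hw0
          exact hw0 rfl
      refine le_antisymm hW ?_
      rintro _ ⟨x, hx, rfl⟩
      have h2 : x ∈ W' := by rw [h1]; exact hx
      exact h2
  have hScA : ∀ X : Submodule K V, Sc A X → Sc B (conjSub τ σ hadd hsmul X) := by
    rintro X ⟨c, hc⟩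
    refine ⟨fun i => τ (c i), ?_⟩
    rintro i _ ⟨x, hx, rfl⟩
    rw [← hσA, hc i x hx, hsmul]
  have hScB : ∀ X : Submodule K V, Sc B X → Sc A (conjSub τ σ hadd hsmul X) := by
    rintro X ⟨c, hc⟩
    refine ⟨fun i => τ (c i), ?_⟩
    rintro i _ ⟨x, hx, rfl⟩
    rw [← hσB, hc i x hx, hsmul]
  have hScA' : ∀ X : Submodule K V, Sc A (conjSub τ σ hadd hsmul X) → Sc B X := by
    rintro X ⟨c, hc⟩
    refine ⟨fun i => τ.symm (c i), fun i x hx => hinj ?_⟩
    rw [hσB, hsmul, RingEquiv.apply_symm_apply]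
    exact hc i _ ⟨x, hx, rfl⟩
  have hScB' : ∀ X : Submodule K V, Sc B (conjSub τ σ hadd hsmul X) → Sc A X := by
    rintro X ⟨c, hc⟩
    refine ⟨fun i => τ.symm (c i), fun i x hx => hinj ?_⟩
    rw [hσA, hsmul, RingEquiv.apply_symm_apply]
    exact hc i _ ⟨x, hx, rfl⟩
  obtain ⟨X, -, hX⟩ := exists_min A B (⊤ : Submodule K V) (fun _ _ _ => Submodule.mem_top)
    (fun _ _ _ => Submodule.mem_top) top_ne_bot
  by_cases hA : Sc A X
  · by_cases hB : Sc B X
    · exact hboth X hX hA hB
    · exfalso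
      set Y := conjSub τ σ hadd hsmul X with hY
      have hYm := hconj X hX
      have hYB : Sc B Y := hScA X hA
      have hYA : ¬ Sc A Y := fun h => hB (hScA' X h)
      have h1 : 3 ≤ finrank K X := ((hfac X hX).2.resolve_left hB).2
      have h2 : 3 ≤ finrank K Y := ((hfac Y hYm).1.resolve_left hYA).2
      have hinf : X ⊓ Y = ⊥ := by
        by_contra hne
        have h3 := hX.min (X ⊓ Y) inf_le_left (fun i z hz => ⟨hX.stabA i z hz.1, hYm.stabA i z hz.2⟩)
          (fun i z hz => ⟨hX.stabB i z hz.1, hYm.stabB i z hz.2⟩) hne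
        have h4 := hYm.min (X ⊓ Y) inf_le_right
          (fun i z hz => ⟨hX.stabA i z hz.1, hYm.stabA i z hz.2⟩)
          (fun i z hz => ⟨hX.stabB i z hz.1, hYm.stabB i z hz.2⟩) hne
        exact hB (by rw [← h3, h4]; exact hYB)
      have h3 := Submodule.finrank_sup_add_finrank_inf_eq X Y
      rw [hinf, finrank_bot, add_zero] at h3
      have h4 := Submodule.finrank_le (X ⊔ Y)
      omega
  · have hB : Sc B X := ((hfac X hX).1.resolve_left hA).1
    exfalso
    set Y := conjSub τ σ hadd hsmul X with hY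
    have hYm := hconj X hX
    have hYA : Sc A Y := hScB X hB
    have hYB : ¬ Sc B Y := fun h => hA (hScB' X h)
    have h1 : 3 ≤ finrank K X := ((hfac X hX).1.resolve_left hA).2
    have h2 : 3 ≤ finrank K Y := ((hfac Y hYm).2.resolve_left hYB).2
    have hinf : X ⊓ Y = ⊥ := by
      by_contra hne
      have h3 := hX.min (X ⊓ Y) inf_le_left (fun i z hz => ⟨hX.stabA i z hz.1, hYm.stabA i z hz.2⟩)
        (fun i z hz => ⟨hX.stabB i z hz.1, hYm.stabB i z hz.2⟩) hne
      have h4 := hYm.min (X ⊓ Y) inf_le_right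
        (fun i z hz => ⟨hX.stabA i z hz.1, hYm.stabA i z hz.2⟩)
        (fun i z hz => ⟨hX.stabB i z hz.1, hYm.stabB i z hz.2⟩) hne
      exact hA (by rw [← h3, h4]; exact hYA)
    have h3 := Submodule.finrank_sup_add_finrank_inf_eq X Y
    rw [hinf, finrank_bot, add_zero] at h3
    have h4 := Submodule.finrank_le (X ⊔ Y)
    omega

end conj

end Pool.Agent.Helper84.T5
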