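import Pool.Agent.Helper77.SM.Basic
import Pool.Agent.Helper24.SO.PD

/-!
# Totally ramified extensions of discrete valuation rings, with their residue fields
-/

set_option autoImplicit false

open Polynomial IsLocalRing

namespace Pool.Agent.Helper84.T5

open Pool.Agent.Helper77.SM

/-- Totally ramified extensions (a variant of `Pool.Agent.Helper40.SM.exists_ramified`). -/
theorem exists_ramified_card {p : ℕ} {O : Type} [CommRing O] [IsDomain O]
    [IsDiscreteValuationRing O] (hO : Good p O) {ϖ : O} (hϖ : Irreducible ϖ) {b : ℕ} (hb : 1 ≤ b) :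
    ∃ (R : Type) (_ : CommRing R) (_ : IsDomain R) (_ : IsDiscreteValuationRing R)
      (_ : Good p R) (z : R) (_ : Irreducible z) (i : O →+* R), Function.Injective i ∧
        i ϖ = z ^ b ∧ Nat.card (ResidueField R) = Nat.card (ResidueField O) := by
  classical
  have hb0 : b ≠ 0 := by omega
  set f : O[X] := X ^ b - C ϖ with hf
  have hmonic : f.Monic := monic_X_pow_sub_C ϖ hb0
  have hdeg : f.natDegree = b := natDegree_X_pow_sub_C
  have hprime : (maximalIdeal O).IsPrime := inferInstance
  have hϖm : ϖ ∈ maximalIdeal O := by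
    rw [maximalIdeal_eq hϖ]; exact Ideal.mem_span_singleton_self ϖ
  -- `f` is irreducible
  have heis : f.IsEisensteinAt (maximalIdeal O) := by
    refine ⟨?_, ?_, ?_⟩
    · rw [hmonic.leadingCoeff]
      exact fun h => (Ideal.ne_top_iff_one _).1 hprime.ne_top h
    · intro n hn
      rw [hdeg] at hn
      have h1 : f.coeff n = - (C ϖ : O[X]).coeff n := by
        rw [hf, coeff_sub, coeff_X_pow, if_neg (by omega), zero_sub]
      rw [h1, neg_mem_iff, coeff_C]
      split_ifs
      · exact hϖm
      · exact zero_mem _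
    · have h1 : f.coeff 0 = - ϖ := by
        rw [hf, coeff_sub, coeff_X_pow, if_neg (by omega), zero_sub, coeff_C_zero]
      rw [h1, neg_mem_iff, maximalIdeal_eq hϖ, Ideal.span_singleton_pow,
        Ideal.mem_span_singleton]
      intro h2
      have h3 : ϖ ^ 2 ∣ ϖ ^ 1 := by rwa [pow_one]
      have := (pow_dvd_pow_iff hϖ.ne_zero hϖ.not_isUnit).1 h3
      omega
  have hirr : Irreducible f := heis.irreducible hprime hmonic.isPrimitive (by omega)
  have hpr : Prime f := hirr.prime
  -- the ring
  have hdom : IsDomain (AdjoinRoot f) := AdjoinRoot.isDomain_of_prime hpr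
  have hfree : Module.Free O (AdjoinRoot f) := hmonic.free_adjoinRoot
  have hfin : Module.Finite O (AdjoinRoot f) := hmonic.finite_adjoinRoot
  have halg : algebraMap O (AdjoinRoot f) = AdjoinRoot.of f := rfl
  set z : AdjoinRoot f := AdjoinRoot.root f with hz
  have hzb : AdjoinRoot.of f ϖ = z ^ b := by
    have h1 : AdjoinRoot.mk f f = 0 := AdjoinRoot.mk_self
    rw [show AdjoinRoot.mk f f = AdjoinRoot.mk f (X ^ b - C ϖ) from rfl, map_sub, map_pow,
      AdjoinRoot.mk_X, AdjoinRoot.mk_C, sub_eq_zero] at h1
    exact h1.symm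
  -- the residue map
  have hev : f.eval₂ (residue O) 0 = 0 := by
    rw [hf, eval₂_sub, eval₂_pow, eval₂_X, eval₂_C, zero_pow hb0, zero_sub, neg_eq_zero]
    exact (residue_eq_zero hϖ ϖ).2 (dvd_refl ϖ)
  set φ : AdjoinRoot f →+* ResidueField O := AdjoinRoot.lift (residue O) 0 hev with hφ
  have hφof : ∀ x : O, φ (AdjoinRoot.of f x) = residue O x := fun x => AdjoinRoot.lift_of hev
  have hφz : φ z = 0 := AdjoinRoot.lift_root hev
  have hsurj : Function.Surjective φ := by
    intro y
    obtain ⟨x, rfl⟩ := residue_surjective y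
    exact ⟨AdjoinRoot.of f x, hφof x⟩
  have hker : RingHom.ker φ = Ideal.span {z} := by
    apply le_antisymm
    · intro x hx
      obtain ⟨g, rfl⟩ := AdjoinRoot.mk_surjective x
      rw [← divX_mul_X_add g, map_add, map_mul, AdjoinRoot.mk_X, AdjoinRoot.mk_C] at hx ⊢
      rw [RingHom.mem_ker, map_add, map_mul, ← hz, hφz, mul_zero, zero_add, hφof,
        residue_eq_zero hϖ] at hx
      obtain ⟨c, hc⟩ := hx
      rw [hc, map_mul, hzb, Ideal.mem_span_singleton]
      exact dvd_add (Dvd.intro_left _ rfl) ((dvd_pow_self z hb0).mul_right _)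
    · rw [Ideal.span_singleton_le_iff_mem, RingHom.mem_ker]
      exact hφz
  have hmax : (Ideal.span {z}).IsMaximal := by
    rw [← hker]
    exact RingHom.ker_isMaximal_of_surjective φ hsurj
  have hint : Algebra.IsIntegral O (AdjoinRoot f) := inferInstance
  have hloc : IsLocalRing (AdjoinRoot f) := by
    refine IsLocalRing.of_unique_max_ideal ⟨Ideal.span {z}, hmax, ?_⟩
    intro P hP
    have h1 : (P.comap (algebraMap O (AdjoinRoot f))).IsMaximal :=
      Ideal.isMaximal_comap_of_isIntegral_of_isMaximal P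
    have h2 : P.comap (algebraMap O (AdjoinRoot f)) = maximalIdeal O :=
      IsLocalRing.eq_maximalIdeal h1
    have h3 : ϖ ∈ P.comap (algebraMap O (AdjoinRoot f)) := by rw [h2]; exact hϖm
    rw [Ideal.mem_comap, halg, hzb] at h3
    have h4 : z ∈ P := hP.isPrime.mem_of_pow_mem b h3
    exact (hmax.eq_of_le hP.ne_top ((Ideal.span_singleton_le_iff_mem _).2 h4)).symm
  have hmz : maximalIdeal (AdjoinRoot f) = Ideal.span {z} := (IsLocalRing.eq_maximalIdeal hmax).symm
  have hinj : Function.Injective (AdjoinRoot.of f) := by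
    rw [← halg]
    exact FaithfulSMul.algebraMap_injective O (AdjoinRoot f)
  have hz0 : z ≠ 0 := by
    intro h
    rw [h, zero_pow hb0] at hzb
    exact hϖ.ne_zero (hinj (by rw [hzb, map_zero]))
  have hnf : ¬ IsField (AdjoinRoot f) := by
    rw [IsLocalRing.isField_iff_maximalIdeal_eq, hmz, Ideal.span_singleton_eq_bot]
    exact hz0
  have hnoeth : IsNoetherianRing (AdjoinRoot f) := isNoetherian_of_tower O (isNoetherian_of_isNoetherianRing_of_finite O (AdjoinRoot f))
  have hdvr : IsDiscreteValuationRing (AdjoinRoot f) := by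
    have := (IsDiscreteValuationRing.TFAE (AdjoinRoot f) hnf).out 0 4
    rw [this, hmz]
    exact ⟨⟨z, rfl⟩⟩
  have hzirr : Irreducible z := by
    rw [IsDiscreteValuationRing.irreducible_iff_uniformizer]
    exact hmz
  -- the residue field
  have hkm : maximalIdeal (AdjoinRoot f) = RingHom.ker φ := by rw [hmz, hker]
  let e : ResidueField (AdjoinRoot f) ≃+* ResidueField O :=
    (Ideal.quotEquivOfEq hkm).trans (RingHom.quotientKerEquivOfSurjective hsurj)
  have hgood : Good p (AdjoinRoot f) := by
    refine ⟨?_, ?_, ?_⟩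
    · have := hO.complete
      have h1 : IsAdicComplete ((maximalIdeal O).map (algebraMap O (AdjoinRoot f)))
        (AdjoinRoot f) := Pool.Agent.Helper24.SO.isAdicComplete_map _
      have h2 : (maximalIdeal O).map (algebraMap O (AdjoinRoot f)) =
          (maximalIdeal (AdjoinRoot f)) ^ b := by
        rw [maximalIdeal_eq hϖ, Ideal.map_span, Set.image_singleton, halg, hzb, hmz,
          Ideal.span_singleton_pow]
      refine Pool.Agent.Helper24.SO.isAdicComplete_of_pow_le _ _ ?_ (e := b) h2.ge
      rw [h2]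
      exact Ideal.pow_le_self hb0
    · have := hO.finite
      exact Finite.of_equiv _ e.symm.toEquiv
    · have := hO.char
      exact charP_of_injective_ringHom (f := e.symm.toRingHom) e.symm.injective p
  exact ⟨AdjoinRoot f, inferInstance, hdom, hdvr, hgood, z, hzirr, AdjoinRoot.of f, hinj, hzb,
    Nat.card_congr e.toEquiv⟩

end Pool.Agent.Helper84.T5
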