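import Pool.Agent.Helper77.SM.Core
import Pool.Agent.Helper84.T5.Ram

/-!
# Representations over discrete valuation rings whose leading terms generate nilpotent algebras

A variant of `Pool.Agent.Helper42.SOG.NilCore`, with restrictions on the residue field and the
dimension, and with several exponents of unipotence.
-/

set_option autoImplicit false
set_option linter.unusedSectionVars false

open Matrix IsLocalRing

namespace Pool.Agent.Helper84.T5

open Pool.Agent.Helper77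
open Pool.Agent.Helper77.SM (Good Dv Cont ResP FinIm IsOrd Irr aug res conj blk1 blk2 blocks_pow
  cont_of_dv exists_blocks finIm_of_blocks exists_uniform exists_ord ord_pos
  exists_lattice exists_div dv_aug_iff smul_pow_inj)

section reducible

variable {Γ : Type} [Group Γ] {O : Type} [CommRing O] [TopologicalSpace Γ]

variable [IsTopologicalGroup Γ] [IsDomain O] [IsDiscreteValuationRing O]

/-- one step of the induction, for reducible representations -/
theorem red_step (hfab : SO.FAb Γ) {ϖ : O} (hϖ : Irreducible ϖ) {p : ℕ} {n : ℕ} {I : ℕ → Set Γ}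
    (ih : ∀ m < n, ∀ σ : Γ →* Matrix (Fin m) (Fin m) O, Cont ϖ σ → ResP ϖ p σ →
      (∀ e, ∀ τ ∈ I e, (σ τ - 1) ^ e = 0) → FinIm σ)
    (ρ : Γ →* Matrix (Fin n) (Fin n) O) (hc : Cont ϖ ρ) (hr : ResP ϖ p ρ)
    (hI : ∀ e, ∀ τ ∈ I e, (ρ τ - 1) ^ e = 0)
    (W : Submodule O (Fin n → O)) (hbot : W ≠ ⊥) (htop : W ≠ ⊤)
    (hsat : ∀ v, ϖ • v ∈ W → v ∈ W) (hst : ∀ g, ∀ v ∈ W, (ρ g).mulVec v ∈ W) :
    FinIm ρ := by
  obtain ⟨n₁, n₂, h1, h2, P, Q, hPQ, hQP, h21⟩ := exists_blocks hϖ ρ W hbot htop hsat hst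
  set σ := conj ρ P Q hPQ hQP with hσ
  have hσg : ∀ g, σ g = P * ρ g * Q := fun g => rfl
  have hσ1 : ∀ x : Matrix (Fin n) (Fin n) O, P * x * Q - 1 = P * (x - 1) * Q := by
    intro x
    rw [Matrix.mul_sub, Matrix.mul_one, Matrix.sub_mul, hPQ]
  have hσc : Cont ϖ σ := cont_of_dv hc fun j g h => by
    rw [hσg, hσ1]
    exact (h.mul_left P).mul_right Q
  have hpow : ∀ (g : Γ) (m : ℕ), σ g ^ m = P * ρ g ^ m * Q := by
    intro g m
    rw [← map_pow, hσg, map_pow]
  have hσr : ResP ϖ p σ := by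
    intro g
    obtain ⟨j, hj⟩ := hr g
    refine ⟨j, ?_⟩
    rw [hpow, hσ1]
    exact (hj.mul_left P).mul_right Q
  have hpow1 : ∀ (x : Matrix (Fin n) (Fin n) O) (k : ℕ), (P * x * Q) ^ k = P * x ^ k * Q := by
    intro x k
    induction k with
    | zero => rw [pow_zero, pow_zero, Matrix.mul_one, hPQ]
    | succ k ih =>
      rw [pow_succ, ih, pow_succ]
      calc P * x ^ k * Q * (P * x * Q) = P * x ^ k * (Q * P) * x * Q := by
            simp only [Matrix.mul_assoc]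
        _ = P * (x ^ k * x) * Q := by rw [hQP, Matrix.mul_one]; simp only [Matrix.mul_assoc]
  have hσI : ∀ e, ∀ τ ∈ I e, (σ τ - 1) ^ e = 0 := by
    intro e τ hτ
    rw [hσg, hσ1, hpow1, hI e τ hτ, Matrix.mul_zero, Matrix.zero_mul]
  have hb1 : ∀ (j : ℕ) (x : Matrix (Fin n₁ ⊕ Fin n₂) (Fin n₁ ⊕ Fin n₂) O), Dv ϖ j (x - 1) →
      Dv ϖ j (x.toBlocks₁₁ - 1) := by
    intro j x h a b
    have := h (Sum.inl a) (Sum.inl b)
    simpa [Matrix.one_apply, Matrix.toBlocks₁₁] using this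
  have hb2 : ∀ (j : ℕ) (x : Matrix (Fin n₁ ⊕ Fin n₂) (Fin n₁ ⊕ Fin n₂) O), Dv ϖ j (x - 1) →
      Dv ϖ j (x.toBlocks₂₂ - 1) := by
    intro j x h a b
    have := h (Sum.inr a) (Sum.inr b)
    simpa [Matrix.one_apply, Matrix.toBlocks₂₂] using this
  have hs21 : ∀ g, (σ g - 1).toBlocks₂₁ = 0 := by
    intro g
    ext a b
    have h3 := congrFun (congrFun (h21 g) a) b
    rw [← hσg] at h3
    simp only [Matrix.toBlocks₂₁, Matrix.of_apply, Matrix.zero_apply] at h3
    simp [Matrix.toBlocks₂₁, h3]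
  have hs11 : ∀ g, (σ g - 1).toBlocks₁₁ = (σ g).toBlocks₁₁ - 1 := by
    intro g
    ext a b
    simp [Matrix.toBlocks₁₁, Matrix.one_apply]
  have hs22 : ∀ g, (σ g - 1).toBlocks₂₂ = (σ g).toBlocks₂₂ - 1 := by
    intro g
    ext a b
    simp [Matrix.toBlocks₂₂, Matrix.one_apply]
  have hf1 : FinIm (blk1 σ h21) := by
    refine ih n₁ h1 _ (cont_of_dv hσc fun j g h => hb1 j _ h) ?_ ?_
    · intro g
      obtain ⟨j, hj⟩ := hσr g
      refine ⟨j, ?_⟩
      rw [← map_pow]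
      rw [← map_pow] at hj
      exact hb1 1 _ hj
    · intro e τ hτ
      have h3 := (blocks_pow _ (hs21 τ) e).2.1
      rw [hσI e τ hτ, hs11] at h3
      change ((σ τ).toBlocks₁₁ - 1) ^ e = 0
      rw [← h3]
      rfl
  have hf2 : FinIm (blk2 σ h21) := by
    refine ih n₂ h2 _ (cont_of_dv hσc fun j g h => hb2 j _ h) ?_ ?_
    · intro g
      obtain ⟨j, hj⟩ := hσr g
      refine ⟨j, ?_⟩
      rw [← map_pow]
      rw [← map_pow] at hj
      exact hb2 1 _ hj
    · intro e τ hτ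
      have h3 := (blocks_pow _ (hs21 τ) e).2.2
      rw [hσI e τ hτ, hs22] at h3
      change ((σ τ).toBlocks₂₂ - 1) ^ e = 0
      rw [← h3]
      rfl
  obtain ⟨U, hU, hU'⟩ := finIm_of_blocks hfab hϖ σ hσc h21 hf1 hf2
  refine ⟨U, hU, fun g hg => ?_⟩
  have h3 := hU' g hg
  rw [hσg] at h3
  calc ρ g = (Q * P) * ρ g * (Q * P) := by rw [hQP, one_mul, mul_one]
    _ = Q * (P * ρ g * Q) * P := by simp only [Matrix.mul_assoc]
    _ = 1 := by rw [h3, Matrix.mul_one, hQP]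

end reducible

section core

variable {Γ : Type} [Group Γ] [TopologicalSpace Γ] [IsTopologicalGroup Γ] [CompactSpace Γ]

/-- not irreducible -/
theorem core_red (hfab : SO.FAb Γ) {p : ℕ} {O : Type} [CommRing O] [IsDomain O]
    [IsDiscreteValuationRing O] {ϖ : O} (hϖ : Irreducible ϖ) {n : ℕ} {I : ℕ → Set Γ}
    (ih : ∀ m < n, ∀ σ : Γ →* Matrix (Fin m) (Fin m) O, Cont ϖ σ → ResP ϖ p σ →
      (∀ e, ∀ τ ∈ I e, (σ τ - 1) ^ e = 0) → FinIm σ)
    (ρ : Γ →* Matrix (Fin n) (Fin n) O) (hc : Cont ϖ ρ) (hr : ResP ϖ p ρ)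
    (hI : ∀ e, ∀ τ ∈ I e, (ρ τ - 1) ^ e = 0) (hirr : ¬ Irr ϖ ρ) : FinIm ρ := by
  unfold Irr at hirr
  push Not at hirr
  obtain ⟨x, hx, hcx⟩ := hirr
  -- a stable submodule
  have key : ∀ W₀ : Submodule O (Fin n → O), W₀ ≠ ⊥ →
      (∀ g, ∀ v ∈ W₀, (ρ g).mulVec v ∈ W₀) → (∀ c : ℕ, ∃ y, ϖ ^ c • y ∉ W₀) →
      FinIm ρ := by
    intro W₀ h0 h1 h2
    let W : Submodule O (Fin n → O) :=
      { carrier := {v | ∃ c : ℕ, ϖ ^ c • v ∈ W₀}
        add_mem' := by
          rintro v w ⟨c, hcv⟩ ⟨d, hdw⟩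
          refine ⟨c + d, ?_⟩
          rw [smul_add]
          refine add_mem ?_ ?_
          · rw [add_comm, pow_add, mul_smul]
            exact W₀.smul_mem _ hcv
          · rw [pow_add, mul_smul]
            exact W₀.smul_mem _ hdw
        zero_mem' := ⟨0, by rw [smul_zero]; exact zero_mem _⟩
        smul_mem' := by
          rintro r v ⟨c, hcv⟩
          refine ⟨c, ?_⟩
          rw [smul_comm]
          exact W₀.smul_mem _ hcv }
    have hW : ∀ v, v ∈ W ↔ ∃ c : ℕ, ϖ ^ c • v ∈ W₀ := fun v => Iff.rfl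
    refine red_step hfab hϖ ih ρ hc hr hI W ?_ ?_ ?_ ?_
    · intro h
      apply h0
      rw [eq_bot_iff]
      intro v hv
      rw [← h, hW]
      exact ⟨0, by rwa [pow_zero, one_smul]⟩
    · intro h
      -- common exponent
      have h3 : ∀ i : Fin n, ∃ c : ℕ, ϖ ^ c • (Pi.single i (1 : O) : Fin n → O) ∈ W₀ := by
        intro i
        rw [← hW, h]
        exact Submodule.mem_top
      choose c hc' using h3
      obtain ⟨y, hy⟩ := h2 (∑ i, c i)
      apply hy
      have h4 : y = ∑ i, y i • (Pi.single i (1 : O) : Fin n → O) := by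
        ext1 j
        rw [Finset.sum_apply, Finset.sum_eq_single j]
        · simp
        · intro b _ hb
          simp [Pi.single_apply, hb.symm]
        · intro hj
          exact absurd (Finset.mem_univ j) hj
      rw [h4, Finset.smul_sum]
      refine Submodule.sum_mem _ fun i _ => ?_
      rw [smul_comm]
      refine W₀.smul_mem _ ?_
      rw [← Finset.add_sum_erase _ _ (Finset.mem_univ i), add_comm, pow_add, mul_smul]
      exact W₀.smul_mem _ (hc' i)
    · intro v hv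
      rw [hW] at hv ⊢
      obtain ⟨c, hcv⟩ := hv
      refine ⟨c + 1, ?_⟩
      rwa [pow_succ, mul_smul]
    · intro g v hv
      rw [hW] at hv ⊢
      obtain ⟨c, hcv⟩ := hv
      refine ⟨c, ?_⟩
      rw [← Matrix.mulVec_smul]
      exact h1 g _ hcv
  by_cases hW0 : Submodule.span O (Set.range fun g => (ρ g - 1).mulVec x) = ⊥
  · -- `x` is fixed
    have hfix : ∀ g, (ρ g).mulVec x = x := by
      intro g
      have h1 : (ρ g - 1).mulVec x ∈ Submodule.span O (Set.range fun g => (ρ g - 1).mulVec x) :=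
        Submodule.subset_span ⟨g, rfl⟩
      rw [hW0, Submodule.mem_bot, Matrix.sub_mulVec, Matrix.one_mulVec, sub_eq_zero] at h1
      exact h1
    by_cases hfull : ∃ c : ℕ, ∀ y : Fin n → O, ϖ ^ c • y ∈ Submodule.span O {x}
    · -- dimension one
      refine ⟨⊤, isOpen_univ, fun g _ => ?_⟩
      obtain ⟨c, hc1⟩ := hfull
      have h2 : ∀ y : Fin n → O, (ρ g).mulVec y = y := by
        intro y
        obtain ⟨r, hr'⟩ := Submodule.mem_span_singleton.1 (hc1 y)
        have h3 : ϖ ^ c • ((ρ g).mulVec y) = ϖ ^ c • y := by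
          rw [← Matrix.mulVec_smul, ← hr', Matrix.mulVec_smul, hfix]
        have h4 : ϖ ^ c ≠ 0 := pow_ne_zero _ hϖ.ne_zero
        exact smul_right_injective _ h4 h3
      apply Matrix.ext_of_mulVec_single
      intro i
      rw [h2, Matrix.one_mulVec]
    · push Not at hfull
      refine key (Submodule.span O {x}) ?_ ?_ hfull
      · rwa [Ne, Submodule.span_singleton_eq_bot]
      · intro g v hv
        obtain ⟨r, rfl⟩ := Submodule.mem_span_singleton.1 hv
        rw [Matrix.mulVec_smul, hfix]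
        exact hv
  · refine key _ hW0 ?_ hcx
    intro g v hv
    refine Submodule.span_induction (p := fun v _ => (ρ g).mulVec v ∈
      Submodule.span O (Set.range fun g => (ρ g - 1).mulVec x)) ?_ ?_ ?_ ?_ hv
    · rintro _ ⟨h, rfl⟩
      have h1 : (ρ g).mulVec ((ρ h - 1).mulVec x) =
          (ρ (g * h) - 1).mulVec x - (ρ g - 1).mulVec x := by
        rw [map_mul, Matrix.mulVec_mulVec, ← Matrix.sub_mulVec]
        congr 1
        rw [mul_sub, mul_one]
        abel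
      simp only
      rw [h1]
      exact sub_mem (Submodule.subset_span ⟨_, rfl⟩) (Submodule.subset_span ⟨_, rfl⟩)
    · rw [Matrix.mulVec_zero]
      exact zero_mem _
    · intro v w _ _ hv hw
      rw [Matrix.mulVec_add]
      exact add_mem hv hw
    · intro r v _ hv
      rw [Matrix.mulVec_smul]
      exact Submodule.smul_mem _ _ hv


/-- complete discrete valuation rings with residue fields of `p ^ f` elements, of characteristic `p`
if `z` holds -/
structure Gd (p f : ℕ) (z : Prop) (O : Type) [CommRing O] [IsDomain O] [IsDiscreteValuationRing O] :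
    Prop where
  good : Good p O
  card : Nat.card (ResidueField O) = p ^ f
  zero : z → (p : O) = 0

/-- The criterion: the reductions of the leading terms generate nilpotent algebras. -/
def NilCrit (p f : ℕ) (z : Prop) (n : ℕ) (I : ℕ → Set Γ) : Prop :=
  ∀ (O : Type) [CommRing O] [IsDomain O] [IsDiscreteValuationRing O], Gd p f z O →
    ∀ (ϖ : O), Irreducible ϖ → ∀ (σ : Γ →* Matrix (Fin n) (Fin n) O) (a : ℕ)
      (V : Γ → Matrix (Fin n) (Fin n) O), 1 ≤ a → Cont ϖ σ → (∀ g, σ g = 1 + ϖ ^ a • V g) →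
      (∀ e, ∀ τ ∈ I e, (σ τ - 1) ^ e = 0) →
      ∀ l : List Γ, l.length = n → (l.map fun g => res (V g)).prod = 0

/-- irreducible -/
theorem core_irr {p f : ℕ} {z : Prop} [Fact p.Prime] {n : ℕ} (hn : 0 < n) {I : ℕ → Set Γ}
    (hC : NilCrit p f z n I) {O : Type} [CommRing O] [IsDomain O] [IsDiscreteValuationRing O]
    (hO' : Gd p f z O) {ϖ : O} (hϖ : Irreducible ϖ) (ρ : Γ →* Matrix (Fin n) (Fin n) O)
    (hc : Cont ϖ ρ) (hr : ResP ϖ p ρ) (hI : ∀ e, ∀ τ ∈ I e, (ρ τ - 1) ^ e = 0) (hirr : Irr ϖ ρ) :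
    False := by
  have hO := hO'.good
  obtain ⟨c, hc1⟩ := exists_uniform hO hϖ ρ hirr
  obtain ⟨u, hu, hu1, hu2⟩ := exists_ord hϖ hn ρ hirr hc1
  have hu3 := ord_pos p hO hϖ hn ρ hr hu
  obtain ⟨a, b, C, ha, hb, hab, hno⟩ := SO.exists_slope hn u hu1 hu2 hu3
  obtain ⟨R₀, _, _, _, hR₀, z₀, hz₀, i₀, hi₀, hi₀z, hcard⟩ := exists_ramified_card hO hϖ hb
  have hR₀' : Gd p f z R₀ := by
    refine ⟨hR₀, hcard.trans hO'.card, fun hz => ?_⟩
    rw [← map_natCast i₀, hO'.zero hz, map_zero]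
  obtain ⟨σ₀, P, Q, hPQ, hQP, hconj, hσ₀c, hσ₀a, l, hl, hl'⟩ :=
    exists_lattice hϖ ρ hc hu ha hb hab hno hz₀ i₀ hi₀z
  have hσI : ∀ e, ∀ τ ∈ I e, (σ₀ τ - 1) ^ e = 0 := by
    intro e τ hτ
    have h1 : (ρ τ - 1).map i₀ * P = P * (σ₀ τ - 1) := by
      have : (ρ τ - 1).map i₀ = (ρ τ).map i₀ - 1 := by
        change i₀.mapMatrix (ρ τ - 1) = i₀.mapMatrix (ρ τ) - 1
        rw [map_sub, map_one]
      rw [this, Matrix.sub_mul, Matrix.mul_sub, hconj, Matrix.one_mul, Matrix.mul_one]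
    have h2 : ∀ k : ℕ, ((ρ τ - 1) ^ k).map i₀ * P = P * (σ₀ τ - 1) ^ k := by
      intro k
      induction k with
      | zero =>
        rw [pow_zero, pow_zero, Matrix.mul_one, Matrix.map_one i₀ (map_zero i₀) (map_one i₀),
          Matrix.one_mul]
      | succ k ih =>
        rw [pow_succ, pow_succ, Matrix.map_mul, Matrix.mul_assoc, h1, ← Matrix.mul_assoc, ih,
          Matrix.mul_assoc]
    have h3 := h2 e
    rw [hI e τ hτ, Matrix.map_zero _ (map_zero i₀), Matrix.zero_mul] at h3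
    apply smul_pow_inj hz₀ C
    rw [smul_zero]
    calc z₀ ^ C • (σ₀ τ - 1) ^ e = (z₀ ^ C • (1 : Matrix (Fin n) (Fin n) R₀)) * (σ₀ τ - 1) ^ e := by
          rw [Matrix.smul_mul, Matrix.one_mul]
      _ = Q * (P * (σ₀ τ - 1) ^ e) := by rw [← hQP, Matrix.mul_assoc]
      _ = 0 := by rw [← h3, Matrix.mul_zero]
  have hV₀ : ∀ g, ∃ V : Matrix (Fin n) (Fin n) R₀, σ₀ g = 1 + z₀ ^ a • V := by
    intro g
    obtain ⟨Y, hY⟩ := exists_div (hσ₀a g)
    exact ⟨Y, by rw [← hY]; abel⟩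
  choose V₀ hV₀ using hV₀
  apply hl'
  have := (dv_aug_iff hz₀ hV₀ l).2 (hC R₀ hR₀' z₀ hz₀ σ₀ a V₀ ha hσ₀c hV₀ hσI l hl)
  rwa [hl, mul_comm] at this

theorem nil_core (hfab : SO.FAb Γ) (p f : ℕ) (z : Prop) [Fact p.Prime] {I : ℕ → Set Γ} {N : ℕ}
    (hC : ∀ n ≤ N, NilCrit p f z n I) : ∀ (n : ℕ), n ≤ N → ∀ (O : Type) [CommRing O] [IsDomain O]
      [IsDiscreteValuationRing O], Gd p f z O → ∀ (ϖ : O), Irreducible ϖ →
      ∀ (σ : Γ →* Matrix (Fin n) (Fin n) O), Cont ϖ σ → ResP ϖ p σ →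
        (∀ e, ∀ τ ∈ I e, (σ τ - 1) ^ e = 0) → FinIm σ := by
  intro n
  induction n using Nat.strong_induction_on with
  | _ n ih =>
    intro hnN O _ _ _ hO ϖ hϖ ρ hc hr hI
    rcases Nat.eq_zero_or_pos n with rfl | hn
    · exact ⟨⊤, isOpen_univ, fun g _ => Subsingleton.elim _ _⟩
    by_cases hirr : Irr ϖ ρ
    · exact (core_irr hn (hC n hnN) hO hϖ ρ hc hr hI hirr).elim
    · exact core_red hfab hϖ
        (fun m hm σ h1 h2 h3 => ih m hm (by omega) O hO ϖ hϖ σ h1 h2 h3) ρ hc hr hI hirr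

end core

end Pool.Agent.Helper84.T5
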