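import Pool.Agent.Helper84.T5.Form

/-!
# The entries of the solutions
-/

set_option autoImplicit false

namespace Pool.Agent.Helper84.T5

lemma nodup4 {a b c d : Fin 4} (hn : [a, b, c, d].Nodup) :
    a ≠ b ∧ a ≠ c ∧ a ≠ d ∧ b ≠ c ∧ b ≠ d ∧ c ≠ d := by
  revert a b c d
  decide

/-- the expression in other indices -/
lemma pf_perm {R : Type} [CommRing R] {ω : Fin 4 → Fin 4 → R} (h : IsAlt ω) (a b c d : Fin 4)
    (hn : [a, b, c, d].Nodup) : ω a b * ω c d - ω a c * ω b d + ω a d * ω b c = pf ω ∨
      ω a b * ω c d - ω a c * ω b d + ω a d * ω b c = - pf ω := by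
  obtain ⟨x, rfl⟩ : ∃ x, ω = alt x := ⟨up ω, (alt_up h).symm⟩
  clear h
  unfold pf
  obtain ⟨hab, hac, had, hbc, hbd, hcd⟩ := nodup4 hn
  clear hn
  fin_cases a <;> fin_cases b <;>
    first
    | exact absurd rfl hab
    | (fin_cases c <;>
        first
        | exact absurd rfl hac
        | exact absurd rfl hbc
        | (fin_cases d <;>
            first
            | exact absurd rfl had
            | exact absurd rfl hbd
            | exact absurd rfl hcd
            | (simp only [alt, Fin.zero_eta, Fin.mk_one, Fin.reduceFinMk, Fin.isValue,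
                Matrix.cons_val, Matrix.cons_val_zero, Matrix.cons_val_one]
               first
                | exact Or.inl trivial
                | (left; ring1)
                | (right; ring1))))

lemma eqs_four {F : Type} [Field F] {M : Type} [AddCommGroup M] [Module F M] (l : Fin 4 → Fin 4 → F)
    {C : Fin 4 → Fin 4 → M} (h : ∀ i, C i i = 0) (a b c d : Fin 4) (hn : [a, b, c, d].Nodup) :
    eqs l C a = l a b • C a b + l a c • C a c + l a d • C a d := by
  have h1 : (Finset.univ : Finset (Fin 4)) = {a, b, c, d} := by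
    revert a b c d
    decide
  obtain ⟨hab, hac, had, hbc, hbd, hcd⟩ := nodup4 hn
  unfold eqs
  rw [h1, Finset.sum_insert (by simp [hab, hac, had]), Finset.sum_insert (by simp [hbc, hbd]),
    Finset.sum_insert (by simp [hcd]), Finset.sum_singleton, h, smul_zero, zero_add, add_assoc]

section

variable {F : Type} [Field F]

/-- an entry as a linear functional -/
def ent (a b : Fin 4) : (Fin 6 → F) →ₗ[F] F where
  toFun x := alt x a b
  map_add' x y := by
    fin_cases a <;> fin_cases b <;> simp [alt] <;> ring
  map_smul' c x := by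
    fin_cases a <;> fin_cases b <;> simp [alt]

/-- for every entry there is a solution which does not vanish there -/
lemma entry_ne [Finite F] {l : Fin 4 → Fin 4 → F} (hA : Aniso l) (a b c d : Fin 4)
    (hn : [a, b, c, d].Nodup) : ∃ x, eqsL l x = 0 ∧ alt x a b ≠ 0 := by
  by_contra hcon
  push Not at hcon
  have hn' := hn
  obtain ⟨hab, hac, had, hbc, hbd, hcd⟩ := nodup4 hn
  have hpf : ∀ x : Fin 6 → F, x ≠ 0 → eqsL l x = 0 →
      - (alt x a c * alt x b d) + alt x a d * alt x b c ≠ 0 := by
    intro x hx0 hx h1
    apply hx0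
    apply hA x hx
    have h2 : alt x a b * alt x c d - alt x a c * alt x b d + alt x a d * alt x b c = 0 := by
      rw [hcon x hx]
      linear_combination h1
    rcases pf_perm (isAlt_alt x) a b c d hn' with h3 | h3
    · rw [← h3, h2]
    · rw [h2] at h3
      linear_combination h3
  have hea : ∀ x : Fin 6 → F, eqsL l x = 0 → l a c * alt x a c + l a d * alt x a d = 0 := by
    intro x hx
    have h1 := congrFun hx a
    change eqs l (alt x) a = 0 at h1
    rw [eqs_four l (isAlt_alt x).diag a b c d hn', hcon x hx, smul_zero, zero_add] at h1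
    exact h1
  have heb : ∀ x : Fin 6 → F, eqsL l x = 0 → l b c * alt x b c + l b d * alt x b d = 0 := by
    intro x hx
    have h1 := congrFun hx b
    change eqs l (alt x) b = 0 at h1
    rw [eqs_four l (isAlt_alt x).diag b a c d (by simp [hab.symm, hbc, hbd, hac, had, hcd]),
      (isAlt_alt x).swap b a, hcon x hx, neg_zero, smul_zero, zero_add] at h1
    exact h1
  obtain ⟨x, hx0, hx, hx'⟩ := exists_sol l (ent a c)
  obtain ⟨y, hy0, hy, hy'⟩ := exists_sol l (ent b d)
  obtain ⟨z, hz0, hz, hz'⟩ := exists_sol l (ent a d)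
  change alt x a c = 0 at hx'
  change alt y b d = 0 at hy'
  change alt z a d = 0 at hz'
  have hlad : l a d = 0 := by
    have h1 := hea x hx
    have h2 := hpf x hx0 hx
    rw [hx', mul_zero, zero_add] at h1
    rw [hx', zero_mul, neg_zero, zero_add] at h2
    exact (mul_eq_zero.1 h1).resolve_right (left_ne_zero_of_mul h2)
  have hlbc : l b c = 0 := by
    have h1 := heb y hy
    have h2 := hpf y hy0 hy
    rw [hy', mul_zero, add_zero] at h1
    rw [hy', mul_zero, neg_zero, zero_add] at h2
    exact (mul_eq_zero.1 h1).resolve_right (right_ne_zero_of_mul h2)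
  have h2z := hpf z hz0 hz
  rw [hz', zero_mul, add_zero] at h2z
  have h3z : alt z a c * alt z b d ≠ 0 := fun h => h2z (by rw [h, neg_zero])
  have hlac : l a c = 0 := by
    have h1 := hea z hz
    rw [hz', mul_zero, add_zero] at h1
    exact (mul_eq_zero.1 h1).resolve_right (left_ne_zero_of_mul h3z)
  have hlbd : l b d = 0 := by
    have h1 := heb z hz
    rw [hlbc, zero_mul, zero_add] at h1
    exact (mul_eq_zero.1 h1).resolve_right (right_ne_zero_of_mul h3z)
  -- an isotropic solution
  obtain ⟨s, t, hst, hst0⟩ : ∃ s t : F, l c a * s + l c b * t = 0 ∧ (s ≠ 0 ∨ t ≠ 0) := by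
    by_cases h : l c b = 0
    · by_cases h' : l c a = 0
      · exact ⟨1, 0, by rw [h']; ring, Or.inl one_ne_zero⟩
      · exact ⟨l c b, - l c a, by ring, Or.inr (neg_ne_zero.2 h')⟩
    · exact ⟨l c b, - l c a, by ring, Or.inl h⟩
  let w : Fin 4 → Fin 4 → F := fun i j => if i = a ∧ j = c then s else if i = c ∧ j = a then - s
    else if i = b ∧ j = c then t else if i = c ∧ j = b then - t else 0
  have hw : IsAlt w := by
    refine ⟨fun i j => ?_, fun i => ?_⟩
    · simp only [w]
      by_cases h1 : i = a ∧ j = c
      · obtain ⟨rfl, rfl⟩ := h1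
        simp [hac, hac.symm]
      · by_cases h2 : i = c ∧ j = a
        · obtain ⟨rfl, rfl⟩ := h2
          simp [hac, hac.symm]
        · by_cases h3 : i = b ∧ j = c
          · obtain ⟨rfl, rfl⟩ := h3
            simp [hab.symm, hbc, hbc.symm, hac.symm]
          · by_cases h4 : i = c ∧ j = b
            · obtain ⟨rfl, rfl⟩ := h4
              simp [hab.symm, hbc, hbc.symm, hac.symm]
            · rw [if_neg h1, if_neg h2, if_neg h3, if_neg h4, if_neg (fun h => h2 ⟨h.2, h.1⟩),
                if_neg (fun h => h1 ⟨h.2, h.1⟩), if_neg (fun h => h4 ⟨h.2, h.1⟩),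
                if_neg (fun h => h3 ⟨h.2, h.1⟩), neg_zero]
    · simp only [w]
      have h1 : ¬ (i = a ∧ i = c) := fun h => hac (h.1.symm.trans h.2)
      have h2 : ¬ (i = c ∧ i = a) := fun h => hac (h.2.symm.trans h.1)
      have h3 : ¬ (i = b ∧ i = c) := fun h => hbc (h.1.symm.trans h.2)
      have h4 : ¬ (i = c ∧ i = b) := fun h => hbc (h.2.symm.trans h.1)
      rw [if_neg h1, if_neg h2, if_neg h3, if_neg h4]
  have hwac : w a c = s := by simp [w]
  have hwbc : w b c = t := by simp [w, hab.symm, hbc]
  have hwab : w a b = 0 := by simp [w, hbc, hac, hab]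
  have hwad : w a d = 0 := by simp [w, hcd.symm, hac, hab]
  have hwbd : w b d = 0 := by simp [w, hcd.symm, hab.symm, hbc]
  have hwcd : w c d = 0 := by simp [w, had.symm, hac.symm, hbd.symm, hbc.symm]
  have hww : alt (up w) = w := alt_up hw
  have hsol : eqsL l (up w) = 0 := by
    have hall : ∀ i, eqs l (alt (up w)) i = 0 := by
      rw [hww]
      have ha : eqs l w a = 0 := by
        rw [eqs_four l hw.diag a b c d hn', hwab, hwad, hlac]
        simp
      have hb : eqs l w b = 0 := by
        rw [eqs_four l hw.diag b a c d (by simp [hab.symm, hbc, hbd, hac, had, hcd]),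
          hw.swap b a, hwab, hwbd, hlbc]
        simp
      have hc : eqs l w c = 0 := by
        rw [eqs_four l hw.diag c a b d (by simp [hac.symm, hbc.symm, hab, had, hbd, hcd]),
          hw.swap c a, hwac, hw.swap c b, hwbc, hwcd]
        simp only [smul_eq_mul, mul_zero, add_zero]
        linear_combination -hst
      have hd : eqs l w d = 0 := by
        rw [eqs_four l hw.diag d a b c (by simp [had.symm, hbd.symm, hcd.symm, hab, hac, hbc]),
          hw.swap d a, hwad, hw.swap d b, hwbd, hw.swap d c, hwcd]
        simp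
      have huniv : ∀ i : Fin 4, i = a ∨ i = b ∨ i = c ∨ i = d := by
        have h1 : ∀ a b c d : Fin 4, [a, b, c, d].Nodup →
            ∀ i : Fin 4, i = a ∨ i = b ∨ i = c ∨ i = d := by decide
        exact h1 a b c d hn'
      intro i
      rcases huniv i with rfl | rfl | rfl | rfl
      · exact ha
      · exact hb
      · exact hc
      · exact hd
    funext i
    exact hall i
  have hw0 : up w ≠ 0 := by
    intro h
    have h1 : w = alt 0 := by rw [← hww, h]
    have h2 : alt (0 : Fin 6 → F) = 0 := by
      funext i j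
      fin_cases i <;> fin_cases j <;> simp [alt]
    rw [h2] at h1
    rcases hst0 with h3 | h3
    · apply h3
      rw [← hwac, h1]
      rfl
    · apply h3
      rw [← hwbc, h1]
      rfl
  apply hpf (up w) hw0 hsol
  rw [hww, hwbd, hwad]
  ring

end

end Pool.Agent.Helper84.T5
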