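import Pool.Agent.Helper42.SOM.Rel
import Pool.Agent.Helper42.SOM.Main

/-!
# The relation at a tame prime, for arbitrary valuations
-/

set_option autoImplicit false

open Matrix IsLocalRing Pool.Agent.Helper77.SM Pool.Agent.Helper42.SOM

namespace Pool.Agent.Helper84.T5

section dvr

variable {O : Type} [CommRing O] [IsDomain O] [IsDiscreteValuationRing O] {ϖ : O} {n : ℕ}

variable (hϖ : Irreducible ϖ) (p : ℕ) [Fact p.Prime] [CharP (ResidueField O) p] (hp2 : p ≠ 2)
  {a : ℕ} (ha : 1 ≤ a) {X T : Matrix (Fin n) (Fin n) O} {q : ℕ} (hq0 : q ≠ 0)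
  (h : (1 + ϖ ^ a • X) * (1 + ϖ ^ a • T) = (1 + ϖ ^ a • T) ^ q * (1 + ϖ ^ a • X))

include hϖ ha hq0 h hp2 in
/-- the case of at least the depth -/
theorem rel_ge (hq : p ∣ q - 1) {u : O} (hu : ((q - 1 : ℕ) : O) = ϖ ^ a * u) :
    res X * res T - res T * res X = residue O u • res T := by
  obtain ⟨R, hR⟩ := rel_aux (pow_ne_zero a hϖ.ne_zero) h
  have h1 : (q : O) • T - T = ϖ ^ a • (u • T) := by
    have h2 : (q : O) = 1 + ϖ ^ a * u := by
      rw [← hu, Nat.cast_sub (Nat.one_le_iff_ne_zero.2 hq0)]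
      push_cast
      ring
    rw [h2, add_smul, one_smul, add_sub_cancel_left, smul_smul]
  rw [h1] at hR
  have h3 := congrArg res (smul_pow_inj hϖ a hR)
  rw [res_sub, res_sub, res_sub, res_smul, res_smul, res_smul, res_smul, residue_pow hϖ ha,
    residue_choose p hp2 hq, residue_eq_one p hq0 hq, zero_smul, zero_smul, one_smul,
    sub_zero, sub_zero, res_mul, res_mul] at h3
  exact h3

include hϖ h hq0 in
/-- the case of less than the depth -/
theorem rel_lt {e : ℕ} (he : e < a) {u : O} (hu : IsUnit u) (hq : ((q - 1 : ℕ) : O) = ϖ ^ e * u) :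
    res T = 0 := by
  obtain ⟨R, hR⟩ := rel_aux (pow_ne_zero a hϖ.ne_zero) h
  obtain ⟨b, rfl⟩ := Nat.exists_eq_add_of_lt he
  have h1 : (q : O) • T - T = ϖ ^ e • (u • T) := by
    have h2 : (q : O) = 1 + ϖ ^ e * u := by
      rw [← hq, Nat.cast_sub (Nat.one_le_iff_ne_zero.2 hq0)]
      push_cast
      ring
    rw [h2, add_smul, one_smul, add_sub_cancel_left, smul_smul]
  rw [h1, add_assoc, pow_add, ← smul_smul] at hR
  have h3 := congrArg res (smul_pow_inj hϖ e hR)
  rw [res_smul, res_smul, residue_pow hϖ (by omega), zero_smul] at h3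
  refine (smul_eq_zero.1 h3.symm).resolve_left fun h5 => ?_
  rw [residue_eq_zero_iff] at h5
  exact (mem_nonunits_iff.1 h5) hu

end dvr

end Pool.Agent.Helper84.T5
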