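import Pool.Agent.Helper42.SOG.Link
import Pool.Agent.Helper84.T5.Core
import Pool.Agent.Helper84.T5.Rel
import Pool.Agent.Helper84.T5.Alg
import Pool.Agent.Helper91.FM.Crit

/-!
# The criterion for leading terms over the field of rational numbers
-/

set_option autoImplicit false

open NumberField IsLocalRing Pool.Agent.Helper16.TR Pool.Agent.Helper27.TE
  Pool.Agent.Helper27.LP Pool.Agent.Helper27.TFM Matrix

open scoped Pointwise

namespace Pool.Agent.Helper84.T5

open Pool.Agent.Helper77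
open Pool.Agent.Helper77.SO hiding Dv Cont ResP FinIm aug IsOrd Irr cf Criterion
open Pool.Agent.Helper77.SM (Good Dv Cont ResP FinIm res res_add res_smul res_eq_zero res_mul
  res_zero smul_pow_inj dv_smul_iff dv_smul_pow)
open Pool.Agent.Helper42.SOM
open Pool.Agent.Helper42.SOG (prod_eq_zero_of_chain prod_comb)

/-- The `p`-adic valuation of `q 0 - 1` is smaller than the other three valuations, which are not all
equal or the sum of two products of linking numbers is not divisible by `p`. -/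
def Spread (p : ℕ) (q : Fin 4 → ℕ) (l : Fin 4 → Fin 4 → ℕ) : Prop :=
  (∀ i, i ≠ 0 → padicValNat p (q 0 - 1) < padicValNat p (q i - 1)) ∧
    ((∃ i j, i ≠ 0 ∧ j ≠ 0 ∧ padicValNat p (q i - 1) ≠ padicValNat p (q j - 1)) ∨
      ¬ p ∣ l 1 3 * l 2 1 * l 3 2 + l 1 2 * l 2 3 * l 3 1)

/-- The numbers `q i - 1` have the same `p`-adic valuation and the leading terms of depth equal to this
valuation vanish in dimension at most `n`. -/
def Flat (p n : ℕ) (q : Fin 4 → ℕ) (l : Fin 4 → Fin 4 → ℕ) : Prop :=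
  ∃ (v : ℕ) (c : Fin 4 → ℕ), (∀ i, q i - 1 = p ^ v * c i) ∧ (∀ i, ¬ p ∣ c i) ∧
    ∀ m ≤ n, Helper91.FM.LinRigid p m l c

section arith

variable {O : Type} [CommRing O] [IsDomain O] [IsDiscreteValuationRing O] {ϖ : O}

/-- the valuations of the numbers `q i - 1` -/
lemma val_eq (hϖ : Irreducible ϖ) (p : ℕ) [Fact p.Prime] [CharP (ResidueField O) p]
    (hp0 : (p : O) ≠ 0) : ∃ E : ℕ, 1 ≤ E ∧ ∀ m : ℕ, m ≠ 0 → ∃ u : O, IsUnit u ∧
      (m : O) = ϖ ^ (E * padicValNat p m) * u := by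
  obtain ⟨E, u, hu⟩ := IsDiscreteValuationRing.eq_unit_mul_pow_irreducible hp0 hϖ
  refine ⟨E, ?_, fun m hm => ?_⟩
  · by_contra h
    have hE : E = 0 := by omega
    rw [hE, pow_zero, mul_one] at hu
    have h1 : residue O (p : O) = 0 := by rw [map_natCast, CharP.cast_eq_zero]
    rw [hu, residue_eq_zero_iff] at h1
    exact (mem_nonunits_iff.1 h1) u.isUnit
  · obtain ⟨c, hc⟩ := pow_padicValNat_dvd (p := p) (n := m)
    have hpc : ¬ p ∣ c := by
      intro h
      obtain ⟨d, rfl⟩ := h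
      have h1 : p ^ (padicValNat p m + 1) ∣ m := ⟨d, by rw [pow_succ, mul_assoc]; exact hc⟩
      exact pow_succ_padicValNat_not_dvd hm h1
    refine ⟨(u : O) ^ padicValNat p m * (c : O), ?_, ?_⟩
    · refine (u.isUnit.pow _).mul ?_
      by_contra h
      have h1 : residue O (c : O) = 0 := (residue_eq_zero_iff _).2 ((mem_maximalIdeal _).2 h)
      rw [map_natCast, CharP.cast_eq_zero_iff (ResidueField O) p] at h1
      exact hpc h1
    · conv_lhs => rw [hc]
      rw [Nat.cast_mul, Nat.cast_pow, hu, mul_pow, ← pow_mul]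
      ring

variable {Ω : Type} [Field Ω] [Algebra ℚ Ω] [IsGalois ℚ Ω]

theorem link_gen [IsAlgClosed Ω] (hϖ : Irreducible ϖ) (p : ℕ) [Fact p.Prime] (hp2 : p ≠ 2)
    {f : ℕ} {z : Prop} (hO : Gd p f z O)
    {q g : Fin 4 → ℕ} {l : Fin 4 → Fin 4 → ℕ} (hL : LinkData p q g l)
    (hA : Aniso (fun i j => (l i j : ZMod p))) {T : Finset ℕ}
    (hT : ∀ r ∈ T, r.Prime) (hTq : ∀ r ∈ T, p ∣ r - 1 → ∃ i, q i = r) {n e : ℕ}
    (hval : z ∨ (n < p ∧ (Spread p q l ∨ Flat p n q l)))
    (σ : (Ω ≃ₐ[ℚ] Ω) →* Matrix (Fin n) (Fin n) O) {a : ℕ} (ha : 1 ≤ a)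
    (V : (Ω ≃ₐ[ℚ] Ω) → Matrix (Fin n) (Fin n) O)
    (hcont : ∀ j : ℕ, ∃ U : Subgroup (Ω ≃ₐ[ℚ] Ω), IsOpen (U : Set (Ω ≃ₐ[ℚ] Ω)) ∧
      ∀ g ∈ U, Dv ϖ j (σ g - 1))
    (hσ : ∀ g, σ g = 1 + ϖ ^ a • V g) (htam : ∀ j, TameIn ℚ Ω (above T) (red σ ϖ j))
    (hun : ∀ Q : Ideal (𝓞 Ω), Q.IsMaximal → ∀ τ ∈ Q.inertia (Ω ≃ₐ[ℚ] Ω), (σ τ - 1) ^ e = 0)
    (hcase : (n ≤ 5 ∧ Odd f) ∨ ∃ a b : Fin 4, a ≠ b ∧ ∀ i, (i = a ∨ i = b) →
      ∀ Q : Ideal (𝓞 Ω), Q.IsMaximal → ((q i : ℕ) : 𝓞 Ω) ∈ Q →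
        ∀ τ ∈ Q.inertia (Ω ≃ₐ[ℚ] Ω), (σ τ - 1) ^ 2 = 0)
    (y : List (Ω ≃ₐ[ℚ] Ω)) (hy : y.length = n) :
    (y.map fun g => res (V g)).prod = 0 := by
  have hchar := hO.good.char
  have hfin := hO.good.finite
  set k := ResidueField O with hk
  -- the function `V`
  have hV : ∀ g h, V (g * h) = V g + V h + ϖ ^ a • (V g * V h) := by
    intro g h
    apply smul_pow_inj hϖ a
    have h1 := hσ (g * h)
    rw [map_mul, hσ g, hσ h] at h1
    have h2 : ϖ ^ a • V (g * h) = (1 + ϖ ^ a • V g) * (1 + ϖ ^ a • V h) - 1 := by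
      rw [h1]; abel
    rw [h2, smul_add, smul_add, mul_add, mul_one, add_mul, one_mul, Matrix.smul_mul,
      Matrix.mul_smul]
    abel
  have hadd : ∀ g h, res (V (g * h)) = res (V g) + res (V h) := by
    intro g h
    rw [hV, res_add, res_add, res_smul, residue_pow hϖ ha, zero_smul, add_zero]
  -- the reductions
  have hker : ∀ (j : ℕ) (g : Ω ≃ₐ[ℚ] Ω), g ∈ (red σ ϖ j).ker ↔ Dv ϖ j (σ g - 1) := by
    intro j g
    rw [MonoidHom.mem_ker, red_eq_one_iff]
  have hopen : ∀ j, IsOpen ((red σ ϖ j).ker : Set (Ω ≃ₐ[ℚ] Ω)) := by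
    intro j
    obtain ⟨U, hU, hU'⟩ := hcont j
    exact Subgroup.isOpen_mono (H₁ := U) (fun g hg => (hker j g).2 (hU' g hg)) hU
  have hker1 : ∀ g, red σ ϖ (a + 1) g = 1 → res (V g) = 0 := by
    intro g hg
    rw [red_eq_one_iff, hσ, add_sub_cancel_left, dv_smul_iff hϖ] at hg
    exact (res_eq_zero hϖ _).2 hg
  have hrel : ∀ (P : Ideal (𝓞 Ω)) (_ : P.IsMaximal)
      (_ : (p : 𝓞 Ω) ∉ P) (x : Ω ≃ₐ[ℚ] Ω) (N : ℕ)
      (_ : ∀ y : 𝓞 Ω, x • y - y ^ N ∈ P) (γ : Ω ≃ₐ[ℚ] Ω) (_ : γ ∈ P.inertia (Ω ≃ₐ[ℚ] Ω)),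
      σ x * σ γ = σ γ ^ N * σ x :=
    fun P hP hpP x N hx γ hγ => tame_rel hϖ p σ hopen htam P hP hpP x N hx γ hγ
  -- the values on inertia
  have hin : ∀ P : Ideal (𝓞 Ω), P.IsMaximal →
      (∀ i, ((q i : ℕ) : 𝓞 Ω) ∉ P) → ∀ γ ∈ P.inertia (Ω ≃ₐ[ℚ] Ω), res (V γ) = 0 := by
    intro P hP hqP γ hγ
    by_cases hPS : P.comap (algebraMap (𝓞 ℚ) (𝓞 Ω)) ∈ above T
    · by_cases hpP : (p : 𝓞 Ω) ∈ P
      · have h1 : γ ^ p ^ 1 ∈ (red σ ϖ (a + 1)).ker := by
          rw [hker, pow_one, map_pow]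
          refine dv_pow_prime hϖ p ha ?_
          rw [hσ, add_sub_cancel_left]
          exact dv_smul_pow ϖ a _
        have h2 := Helper68.RR.tame_mod (htam (a + 1)) P (red σ ϖ (a + 1)).ker (hopen (a + 1)) le_rfl
          hγ (Fact.out : p.Prime) hpP h1
        exact hker1 γ ((MonoidHom.mem_ker).1 h2)
      · have hPc : (P.comap (algebraMap (𝓞 ℚ) (𝓞 Ω))).IsMaximal :=
          Ideal.isMaximal_comap_of_isIntegral_of_isMaximal P
        obtain ⟨x, hx⟩ := Helper27.TE.exists_frob (K := ℚ) P hP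
        obtain ⟨-, r, hr, hrP⟩ := hPS
        rw [card_quot_rat _ hPc (hT r hr) hrP] at hx
        have hrP' : (r : 𝓞 Ω) ∈ P := by
          rwa [Ideal.mem_comap, map_natCast] at hrP
        have hdvd : ¬ p ∣ r - 1 := by
          intro h1
          obtain ⟨i, rfl⟩ := hTq r hr h1
          exact hqP i hrP'
        have h2 := hrel P hP hpP x r hx γ hγ
        rw [hσ x, hσ γ] at h2
        exact rel_coprime hϖ p ha (hT r hr).ne_zero h2 hdvd
    · have h1 := Helper68.RR.unram_mod (htam (a + 1)) P (red σ ϖ (a + 1)).ker (hopen (a + 1)) le_rfl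
        hPS hγ
      exact hker1 γ ((MonoidHom.mem_ker).1 h1)
  obtain ⟨N, Q, τ, x, m, s, hQ, hqQ, hpQ, hτ, hx, hm, hNτ, hNx, hspan⟩ :=
    exists_decomp p hp2 hL (k := k) (fun g => res (V g)) hadd (htam (a + 1)) (hopen (a + 1)) hker1 hin
  -- it suffices that the matrices generate a nilpotent algebra
  have hfinal : (∀ s : List (Fin 4), n ≤ s.length → (s.map N).prod = 0) →
      (y.map fun g => res (V g)).prod = 0 := by
    intro hm
    refine prod_eq_zero_of_chain (S := (Submodule.span k (Set.range N) :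
      Submodule k (Matrix (Fin n) (Fin n) k))) (m := n)
      (fun l hl hlm => prod_comb (fun s hs => hm s hs.ge) l hl hlm) _ ?_
      (by rw [List.length_map, hy])
    intro z hz
    obtain ⟨g, -, rfl⟩ := List.mem_map.1 hz
    obtain ⟨b, hb⟩ := hspan g
    change res (V g) ∈ Submodule.span k (Set.range N)
    rw [hb]
    exact Submodule.sum_mem _ fun i _ => Submodule.smul_mem _ _ (Submodule.subset_span ⟨i, rfl⟩)
  apply hfinal
  have hq0 : ∀ i, q i ≠ 0 := fun i => (hL.prime i).ne_zero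
  have hq1 : ∀ i, q i - 1 ≠ 0 := by
    intro i
    have := (hL.prime i).one_lt
    omega
  have hreli : ∀ i, (1 + ϖ ^ a • V (x i)) * (1 + ϖ ^ a • V (τ i)) =
      (1 + ϖ ^ a • V (τ i)) ^ q i * (1 + ϖ ^ a • V (x i)) := by
    intro i
    rw [← hσ, ← hσ]
    exact hrel (Q i) (hQ i) (hpQ i) (x i) (q i) (hx i) (τ i) (hτ i)
  have hrelN : ∀ i, res (V (x i)) * res (V (τ i)) - res (V (τ i)) * res (V (x i)) =
      (m i : k) • ∑ j ∈ Finset.univ.erase i, (l i j : k) • (N j * N i - N i * N j) := by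
    intro i
    rw [hNτ i, hNx i, Matrix.mul_smul, Matrix.smul_mul, ← smul_sub, add_mul, mul_add,
      Matrix.smul_mul, Matrix.mul_smul, add_sub_add_left_eq_sub, Finset.sum_mul, Finset.mul_sum,
      ← Finset.sum_sub_distrib]
    congr 1
    refine Finset.sum_congr rfl fun j _ => ?_
    rw [Matrix.smul_mul, Matrix.mul_smul, smul_sub]
  have hNpow : ∀ i (e : ℕ), (σ (τ i) - 1) ^ e = 0 → N i ^ e = 0 := by
    intro i e h1
    rw [hσ, add_sub_cancel_left, smul_pow] at h1
    have h5 : V (τ i) ^ e = 0 :=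
      (smul_eq_zero.1 h1).resolve_left (pow_ne_zero _ (pow_ne_zero _ hϖ.ne_zero))
    have h6 := congrArg Helper77.SM.res h5
    rw [Helper77.SM.res_pow, res_zero, hNτ i, smul_pow] at h6
    exact (smul_eq_zero.1 h6).resolve_left (pow_ne_zero _ (hm i))
  have hNe : ∀ i, N i ^ e = 0 := fun i => hNpow i e (hun (Q i) (hQ i) (τ i) (hτ i))
  -- the relations with their right sides
  have hw : ∀ i, ∀ (d : ℕ) (u : O), IsUnit u → ((q i - 1 : ℕ) : O) = ϖ ^ d * u → ∃ w : k,
      (∑ j ∈ Finset.univ.erase i, (l i j : k) • (N j * N i - N i * N j) = w • N i) ∧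
      (a < d → w = 0) ∧ (a = d → w ≠ 0) ∧ (d < a → N i = 0 ∧ w = 0) := by
    intro i d u hu hd
    rcases lt_or_ge d a with hda | hda
    · have h1 := rel_lt hϖ (hq0 i) (hreli i) hda hu hd
      rw [hNτ i] at h1
      have h2 := (smul_eq_zero.1 h1).resolve_left (hm i)
      refine ⟨0, ?_, fun _ => rfl, fun h => by omega, fun _ => ⟨h2, rfl⟩⟩
      rw [h2, smul_zero]
      exact Finset.sum_eq_zero fun j _ => by rw [mul_zero, zero_mul, sub_zero, smul_zero]
    · obtain ⟨b, rfl⟩ := Nat.exists_eq_add_of_le hda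
      have h1 := rel_ge hϖ p hp2 ha (hq0 i) (hreli i) (hL.dvd i) (u := ϖ ^ b * u)
        (by rw [hd, pow_add]; ring)
      rw [hrelN i, hNτ i, smul_comm] at h1
      refine ⟨residue O (ϖ ^ b * u), ?_, ?_, ?_, fun h => by omega⟩
      · have h2 : (m i : k) • ((∑ j ∈ Finset.univ.erase i, (l i j : k) • (N j * N i - N i * N j)) -
            residue O (ϖ ^ b * u) • N i) = 0 := by
          rw [smul_sub, h1, sub_self]
        exact sub_eq_zero.1 ((smul_eq_zero.1 h2).resolve_left (hm i))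
      · intro h
        rw [map_mul, residue_pow hϖ (by omega), zero_mul]
      · intro h
        have hb : b = 0 := by omega
        rw [hb, pow_zero, one_mul]
        intro h5
        rw [residue_eq_zero_iff] at h5
        exact (mem_nonunits_iff.1 h5) hu
  have hge : ∀ i (u : O), ((q i - 1 : ℕ) : O) = ϖ ^ a * u →
      (∑ j ∈ Finset.univ.erase i, (l i j : k) • (N j * N i - N i * N j) = residue O u • N i) := by
    intro i u hd
    have h1 := rel_ge hϖ p hp2 ha (hq0 i) (hreli i) (hL.dvd i) (u := u) hd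
    rw [hrelN i, hNτ i, smul_comm] at h1
    have h2 : (m i : k) • ((∑ j ∈ Finset.univ.erase i, (l i j : k) • (N j * N i - N i * N j)) -
        residue O u • N i) = 0 := by
      rw [smul_sub, h1, sub_self]
    exact sub_eq_zero.1 ((smul_eq_zero.1 h2).resolve_left (hm i))
  have hwz : ∀ i, ((q i - 1 : ℕ) : O) = 0 →
      (∑ j ∈ Finset.univ.erase i, (l i j : k) • (N j * N i - N i * N j) = (0 : k) • N i) := by
    intro i hd
    have h1 := hge i 0 (by rw [hd, mul_zero])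
    rwa [map_zero] at h1
  -- the homogeneous case
  have hhom : ((n ≤ 5 ∧ ∃ f, Odd f ∧ Nat.card k = p ^ f) ∨
      ∃ a b, a ≠ b ∧ N a * N a = 0 ∧ N b * N b = 0) := by
    rcases hcase with ⟨h5, hf⟩ | ⟨a', b', hab, h⟩
    · exact Or.inl ⟨h5, f, hf, hO.card⟩
    · refine Or.inr ⟨a', b', hab, ?_, ?_⟩
      · rw [← pow_two]
        exact hNpow a' 2 (h a' (Or.inl rfl) (Q a') (hQ a') (hqQ a') (τ a') (hτ a'))
      · rw [← pow_two]
        exact hNpow b' 2 (h b' (Or.inr rfl) (Q b') (hQ b') (hqQ b') (τ b') (hτ b'))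
  -- application of the theorem on operators
  have hop : ∀ w : Fin 4 → k, (∀ i, ∑ j ∈ Finset.univ.erase i,
      (l i j : k) • (N j * N i - N i * N j) = w i • N i) →
      (((∀ i, w i = 0) ∧ ((n ≤ 5 ∧ ∃ f, Odd f ∧ Nat.card k = p ^ f) ∨
        ∃ a b, a ≠ b ∧ N a * N a = 0 ∧ N b * N b = 0)) ∨
      (n < p ∧ w 0 ≠ 0 ∧ ∀ i, i ≠ 0 → w i = 0) ∨ (N 0 = 0 ∧ ((∃ c, c ≠ 0 ∧ w c = 0) ∨
        ((l 1 3 : ℕ) : ZMod p) * (l 2 1 : ℕ) * (l 3 2 : ℕ) +
          ((l 1 2 : ℕ) : ZMod p) * (l 2 3 : ℕ) * (l 3 1 : ℕ) ≠ 0))) →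
      ∀ s : List (Fin 4), n ≤ s.length → (s.map N).prod = 0 := by
    intro w hrw hcw s hs
    let Ψ : Matrix (Fin n) (Fin n) k ≃ₐ[k] Module.End k (Fin n → k) := Matrix.toLinAlgEquiv'
    have hrel' : Rel (fun i j => ZMod.castHom dvd_rfl k ((l i j : ℕ) : ZMod p)) w
        (fun i => Ψ (N i)) := by
      intro i
      have h1 := congrArg Ψ (hrw i)
      rw [map_sum, map_smul] at h1
      rw [← h1]
      refine Finset.sum_congr rfl fun j _ => ?_
      rw [map_smul, map_sub, map_mul, map_mul]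
      simp only [map_natCast]
    have h1 := prod_eq_zero hp2 hA n (Fin n → k) (by rw [Module.finrank_fin_fun])
      (fun i => Ψ (N i)) hrel' (fun i => ⟨e, by rw [← map_pow, hNe, map_zero]⟩) ?_ s hs
    · have h2 : Ψ ((s.map N).prod) = 0 := by
        rw [← h1, map_list_prod, List.map_map]
        rfl
      exact (map_eq_zero_iff Ψ Ψ.injective).1 h2
    · rcases hcw with ⟨hw0, h5⟩ | h5 | ⟨h0, h5⟩
      · refine Or.inl ⟨hw0, ?_⟩
        rcases h5 with h5 | ⟨a, b, hab, ha, hb⟩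
        · exact Or.inl h5
        · exact Or.inr ⟨a, b, hab, by rw [← map_mul, ha, map_zero], by rw [← map_mul, hb, map_zero]⟩
      · exact Or.inr (Or.inl h5)
      · exact Or.inr (Or.inr ⟨by rw [h0, map_zero], h5⟩)
  by_cases hp0 : (p : O) = 0
  · -- characteristic `p`
    refine hop 0 (fun i => hwz i ?_) (Or.inl ⟨fun _ => rfl, hhom⟩)
    obtain ⟨c, hc⟩ := hL.dvd i
    rw [hc, Nat.cast_mul, hp0, zero_mul]
  obtain ⟨hnp, hval⟩ := hval.resolve_left fun hz => hp0 (hO.zero hz)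
  rcases hval with ⟨hsp1, hsp2⟩ | ⟨v, c, hvc, hc, hrig⟩
  · obtain ⟨E, hE, hEq⟩ := val_eq hϖ p hp0
    choose u hu hud using fun i => hEq (q i - 1) (hq1 i)
    choose w hwr hw1 hw2 hw3 using fun i => hw i _ (u i) (hu i) (hud i)
    refine hop w hwr ?_
    rcases lt_trichotomy a (E * padicValNat p (q 0 - 1)) with h | h | h
    · left
      refine ⟨fun i => hw1 i ?_, hhom⟩
      by_cases hi : i = 0
      · rw [hi]; exact h
      · exact h.trans_le (Nat.mul_le_mul_left E (hsp1 i hi).le)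
    · right; left
      refine ⟨hnp, hw2 0 h, fun i hi => hw1 i ?_⟩
      rw [h]
      exact Nat.mul_lt_mul_of_pos_left (hsp1 i hi) (by omega)
    · right; right
      refine ⟨(hw3 0 h).1, ?_⟩
      rcases hsp2 with ⟨i₁, i₂, hi₁, hi₂, hne⟩ | hE
      swap
      · right
        intro h1
        apply hE
        rw [← CharP.cast_eq_zero_iff (ZMod p) p]
        push_cast
        exact h1
      left
      have key : ∀ i, i ≠ 0 → a ≠ E * padicValNat p (q i - 1) → ∃ c, c ≠ 0 ∧ w c = 0 := by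
        intro i hi hne
        refine ⟨i, hi, ?_⟩
        rcases lt_or_gt_of_ne hne with h1 | h1
        · exact hw1 i h1
        · exact (hw3 i h1).2
      by_cases h1 : a = E * padicValNat p (q i₁ - 1)
      · refine key i₂ hi₂ fun h2 => hne ?_
        have h3 : E * padicValNat p (q i₁ - 1) = E * padicValNat p (q i₂ - 1) := h1.symm.trans h2
        exact Nat.eq_of_mul_eq_mul_left (by omega) h3
      · exact key i₁ hi₁ h1
  · obtain ⟨E, u, hE⟩ := IsDiscreteValuationRing.eq_unit_mul_pow_irreducible hp0 hϖ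
    have hqi : ∀ i, ((q i - 1 : ℕ) : O) = ϖ ^ (E * v) * ((u : O) ^ v * (c i : O)) := by
      intro i
      rw [hvc i, Nat.cast_mul, Nat.cast_pow, hE, mul_pow, ← pow_mul]
      ring
    have huc : ∀ i, IsUnit ((u : O) ^ v * (c i : O)) := by
      intro i
      refine (u.isUnit.pow _).mul ?_
      by_contra h
      have h1 : residue O (c i : O) = 0 := (residue_eq_zero_iff _).2 ((mem_maximalIdeal _).2 h)
      rw [map_natCast, CharP.cast_eq_zero_iff (ResidueField O) p] at h1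
      exact hc i h1
    choose w hwr hw1 hw2 hw3 using fun i => hw i _ _ (huc i) (hqi i)
    rcases lt_trichotomy a (E * v) with h | h | h
    · exact hop w hwr (Or.inl ⟨fun i => hw1 i h, hhom⟩)
    · have hN0 : ∀ i, N i = 0 := by
        set r : k := residue O ((u : O) ^ v) with hr
        have hr0 : r ≠ 0 := by
          intro h5
          rw [hr, residue_eq_zero_iff] at h5
          exact (mem_nonunits_iff.1 h5) (u.isUnit.pow _)
        have h1 := hrig n le_rfl k (fun i => r⁻¹ • N i) (fun i => by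
            refine ⟨e, ?_⟩
            change (r⁻¹ • N i) ^ e = 0
            rw [smul_pow, hNe, smul_zero]) (fun i => by
            have h2 := hge i ((u : O) ^ v * (c i : O)) (by rw [h]; exact hqi i)
            rw [map_mul, map_natCast, ← hr] at h2
            have h3 : (∑ j ∈ Finset.univ.erase i, (l i j : k) • (r⁻¹ • N j)) * (r⁻¹ • N i) -
                (r⁻¹ • N i) * (∑ j ∈ Finset.univ.erase i, (l i j : k) • (r⁻¹ • N j)) =
                (r⁻¹ * r⁻¹) • ∑ j ∈ Finset.univ.erase i, (l i j : k) • (N j * N i - N i * N j) := by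
              rw [Finset.sum_mul, Finset.mul_sum, ← Finset.sum_sub_distrib, Finset.smul_sum]
              refine Finset.sum_congr rfl fun j _ => ?_
              simp only [Matrix.smul_mul, Matrix.mul_smul, smul_sub, smul_smul]
              congr 2 <;> ring
            change (∑ j ∈ Finset.univ.erase i, (l i j : k) • (r⁻¹ • N j)) * (r⁻¹ • N i) -
                (r⁻¹ • N i) * (∑ j ∈ Finset.univ.erase i, (l i j : k) • (r⁻¹ • N j)) =
                (c i : k) • (r⁻¹ • N i)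
            rw [h3, h2, smul_smul, smul_smul]
            rw [show r⁻¹ * r⁻¹ * (r * (c i : k)) = (r⁻¹ * r) * ((c i : k) * r⁻¹) by ring,
              inv_mul_cancel₀ hr0, one_mul])
        intro i
        exact (smul_eq_zero.1 (h1 i)).resolve_left (inv_ne_zero hr0)
      intro s hs
      rcases s with _ | ⟨b, s⟩
      · have hn0 : n = 0 := by simpa using hs
        subst hn0
        exact Subsingleton.elim _ _
      · rw [List.map_cons, List.prod_cons, hN0 b, zero_mul]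
    · intro s hs
      rcases s with _ | ⟨b, s⟩
      · have hn0 : n = 0 := by simpa using hs
        subst hn0
        exact Subsingleton.elim _ _
      · rw [List.map_cons, List.prod_cons, (hw3 b h).1, zero_mul]

end arith

end Pool.Agent.Helper84.T5
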