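import Pool.Agent.Helper42.SOG.NilEx
import Pool.Agent.Helper84.T5.Link
import Pool.Agent.Helper84.T5.Crit

/-!
# Examples
-/

set_option autoImplicit false

namespace Pool.Agent.Helper84.T5

open Pool.Agent.Helper42.SOM Pool.Agent.Helper42.SOQ

/-- discrete logarithms for `29, 197, 491, 883` -/
def lA : Fin 4 → Fin 4 → ℕ :=
  ![![0, 36, 221, 772], ![20, 0, 434, 199], ![15, 82, 0, 282], ![18, 47, 361, 0]]

/-- discrete logarithms for `181, 101, 151, 251` -/
def lB : Fin 4 → Fin 4 → ℕ :=
  ![![0, 28, 113, 238], ![70, 0, 69, 136], ![123, 49, 0, 105], ![172, 18, 64, 0]]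

/-- discrete logarithms for `43, 71, 113, 127` -/
def lC : Fin 4 → Fin 4 → ℕ :=
  ![![0, 48, 47, 71], ![5, 0, 77, 16], ![3, 33, 0, 124], ![6, 19, 20, 0]]

/-- discrete logarithms for `11, 41, 61, 71` -/
def lD : Fin 4 → Fin 4 → ℕ :=
  ![![0, 3, 15, 31], ![3, 0, 54, 25], ![9, 34, 0, 69], ![4, 23, 23, 0]]

/-- discrete logarithms for `7, 13, 31, 61` -/
def lE : Fin 4 → Fin 4 → ℕ := ![![0, 11, 28, 49], ![3, 0, 11, 40], ![1, 9, 0, 59], ![5, 8, 15, 0]]

set_option maxRecDepth 10000 in
theorem linkDataE : LinkData 3 ![7, 13, 31, 61] ![3, 2, 3, 2] lE where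
  prime := by intro i; fin_cases i <;> norm_num
  inj := by decide
  dvd := by decide
  root := by
    intro i
    fin_cases i
    · exact order_aux 7 3 (by norm_num) (by decide) (by decide)
    · exact order_aux 13 2 (by norm_num) (by decide) (by decide)
    · exact order_aux 31 3 (by norm_num) (by decide) (by decide)
    · exact order_aux 61 2 (by norm_num) (by decide) (by decide)
  log := by
    intro i j hij
    refine link_aux _ _ _ _ ?_
    revert hij
    revert i j
    decide

set_option maxRecDepth 10000 in
lemma discE : ¬ IsSquare (disc fun i j => (lE i j : ZMod 3)) := by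
  rintro ⟨x, hx⟩
  revert x
  decide

set_option maxRecDepth 10000 in
theorem linkDataA : LinkData 7 ![29, 197, 491, 883] ![2, 2, 2, 2] lA where
  prime := by intro i; fin_cases i <;> norm_num
  inj := by decide
  dvd := by decide
  root := by
    intro i
    fin_cases i
    · exact order_aux 29 2 (by norm_num) (by decide) (by decide)
    · exact order_aux 197 2 (by norm_num) (by decide) (by decide)
    · exact order_aux 491 2 (by norm_num) (by decide) (by decide)
    · exact order_aux 883 2 (by norm_num) (by decide) (by decide)
  log := by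
    intro i j hij
    refine link_aux _ _ _ _ ?_
    revert hij
    revert i j
    decide

set_option maxRecDepth 10000 in
theorem linkDataB : LinkData 5 ![181, 101, 151, 251] ![2, 2, 6, 6] lB where
  prime := by intro i; fin_cases i <;> norm_num
  inj := by decide
  dvd := by decide
  root := by
    intro i
    fin_cases i
    · exact order_aux 181 2 (by norm_num) (by decide) (by decide)
    · exact order_aux 101 2 (by norm_num) (by decide) (by decide)
    · exact order_aux 151 6 (by norm_num) (by decide) (by decide)
    · exact order_aux 251 6 (by norm_num) (by decide) (by decide)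
  log := by
    intro i j hij
    refine link_aux _ _ _ _ ?_
    revert hij
    revert i j
    decide

set_option maxRecDepth 10000 in
theorem linkDataC : LinkData 7 ![43, 71, 113, 127] ![3, 7, 3, 3] lC where
  prime := by intro i; fin_cases i <;> norm_num
  inj := by decide
  dvd := by decide
  root := by
    intro i
    fin_cases i
    · exact order_aux 43 3 (by norm_num) (by decide) (by decide)
    · exact order_aux 71 7 (by norm_num) (by decide) (by decide)
    · exact order_aux 113 3 (by norm_num) (by decide) (by decide)
    · exact order_aux 127 3 (by norm_num) (by decide) (by decide)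
  log := by
    intro i j hij
    refine link_aux _ _ _ _ ?_
    revert hij
    revert i j
    decide

set_option maxRecDepth 10000 in
theorem linkDataD : LinkData 5 ![11, 41, 61, 71] ![2, 6, 2, 7] lD where
  prime := by intro i; fin_cases i <;> norm_num
  inj := by decide
  dvd := by decide
  root := by
    intro i
    fin_cases i
    · exact order_aux 11 2 (by norm_num) (by decide) (by decide)
    · exact order_aux 41 6 (by norm_num) (by decide) (by decide)
    · exact order_aux 61 2 (by norm_num) (by decide) (by decide)
    · exact order_aux 71 7 (by norm_num) (by decide) (by decide)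
  log := by
    intro i j hij
    refine link_aux _ _ _ _ ?_
    revert hij
    revert i j
    decide

set_option maxRecDepth 10000 in
lemma discA : ¬ IsSquare (disc fun i j => (lA i j : ZMod 7)) := by
  rintro ⟨x, hx⟩
  revert x
  decide

set_option maxRecDepth 10000 in
lemma discB : ¬ IsSquare (disc fun i j => (lB i j : ZMod 5)) := by
  rintro ⟨x, hx⟩
  revert x
  decide

set_option maxRecDepth 10000 in
lemma discC : ¬ IsSquare (disc fun i j => (lC i j : ZMod 7)) := by
  rintro ⟨x, hx⟩
  revert x
  decide

set_option maxRecDepth 10000 in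
lemma discD : ¬ IsSquare (disc fun i j => (lD i j : ZMod 5)) := by
  rintro ⟨x, hx⟩
  revert x
  decide

lemma val_of_eq {p : ℕ} [Fact p.Prime] {m v c : ℕ} (h : m = p ^ v * c) (hc : ¬ p ∣ c) :
    padicValNat p m = v := by
  have hc0 : c ≠ 0 := by
    rintro rfl
    exact hc (dvd_zero p)
  have hp : p ^ v ≠ 0 := pow_ne_zero _ (Fact.out : p.Prime).ne_zero
  rw [h, padicValNat.mul hp hc0, padicValNat.prime_pow, padicValNat.eq_zero_of_not_dvd hc, add_zero]

lemma spreadA : Spread 7 ![29, 197, 491, 883] lA := by
  have : Fact (Nat.Prime 7) := ⟨by norm_num⟩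
  have h0 : padicValNat 7 (29 - 1) = 1 := val_of_eq (c := 4) (by norm_num) (by norm_num)
  have h1 : padicValNat 7 (197 - 1) = 2 := val_of_eq (c := 4) (by norm_num) (by norm_num)
  have h2 : padicValNat 7 (491 - 1) = 2 := val_of_eq (c := 10) (by norm_num) (by norm_num)
  have h3 : padicValNat 7 (883 - 1) = 2 := val_of_eq (c := 18) (by norm_num) (by norm_num)
  refine ⟨fun i hi => ?_, Or.inr (by decide)⟩
  fin_cases i
  · exact absurd rfl hi
  · change padicValNat 7 (29 - 1) < padicValNat 7 (197 - 1)
    rw [h0, h1]; norm_num
  · change padicValNat 7 (29 - 1) < padicValNat 7 (491 - 1)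
    rw [h0, h2]; norm_num
  · change padicValNat 7 (29 - 1) < padicValNat 7 (883 - 1)
    rw [h0, h3]; norm_num

lemma spreadB : Spread 5 ![181, 101, 151, 251] lB := by
  have : Fact (Nat.Prime 5) := ⟨by norm_num⟩
  have h0 : padicValNat 5 (181 - 1) = 1 := val_of_eq (c := 36) (by norm_num) (by norm_num)
  have h1 : padicValNat 5 (101 - 1) = 2 := val_of_eq (c := 4) (by norm_num) (by norm_num)
  have h2 : padicValNat 5 (151 - 1) = 2 := val_of_eq (c := 6) (by norm_num) (by norm_num)
  have h3 : padicValNat 5 (251 - 1) = 3 := val_of_eq (c := 2) (by norm_num) (by norm_num)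
  refine ⟨fun i hi => ?_, Or.inr (by decide)⟩
  fin_cases i
  · exact absurd rfl hi
  · change padicValNat 5 (181 - 1) < padicValNat 5 (101 - 1)
    rw [h0, h1]; norm_num
  · change padicValNat 5 (181 - 1) < padicValNat 5 (151 - 1)
    rw [h0, h2]; norm_num
  · change padicValNat 5 (181 - 1) < padicValNat 5 (251 - 1)
    rw [h0, h3]; norm_num

end Pool.Agent.Helper84.T5
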