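import Pool.Agent.Helper42.SOG.General

/-!
# Open congruence subgroups for sufficiently many prime ideals
-/

set_option autoImplicit false
set_option linter.unusedSectionVars false

open IsLocalRing Topology

namespace Pool.Agent.Helper84.T5

open Pool.Agent Pool.Agent.Helper27.TFM

section

variable {Γ : Type} [Group Γ] [TopologicalSpace Γ] [IsTopologicalGroup Γ] [CompactSpace Γ]

variable {A : Type} [CommRing A] [IsLocalRing A] [IsNoetherianRing A] [Finite (ResidueField A)]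
  [IsAdicComplete (maximalIdeal A) A]

/-- the square of an ideal -/
theorem isOpen_KI_mul (hfab : Helper77.SO.FAb Γ) {n : ℕ} (ρ : Γ →* Matrix (Fin n) (Fin n) A)
    (hρ : ∀ j : ℕ, IsOpen (KI ρ (maximalIdeal A ^ j) : Set Γ)) (J : Ideal A)
    (hJ : IsOpen (KI ρ J : Set Γ)) : IsOpen (KI ρ (J * J) : Set Γ) := by
  have hadd : ∀ (M : Type) [AddCommGroup M] [Module A M] [Module.Finite A M], AddFin Γ A M :=
    fun M _ _ _ => Helper21.SO.addFin_of_fab hfab M
  obtain ⟨V, hV, -, hVW⟩ := add_step ρ hadd hρ (KI ρ J) hJ (MIsub n (J * J)) (by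
    intro u hu v hv
    exact MI.mul hu hv)
  exact Subgroup.isOpen_mono (H₁ := V) (H₂ := KI ρ (J * J)) (fun v hv => hVW v hv) hV

/-- the powers of an ideal -/
theorem isOpen_KI_pow (hfab : Helper77.SO.FAb Γ) {n : ℕ} (ρ : Γ →* Matrix (Fin n) (Fin n) A)
    (hρ : ∀ j : ℕ, IsOpen (KI ρ (maximalIdeal A ^ j) : Set Γ)) (J : Ideal A)
    (hJ : IsOpen (KI ρ J : Set Γ)) (m : ℕ) : IsOpen (KI ρ (J ^ 2 ^ m) : Set Γ) := by
  induction m with
  | zero => simpa using hJ
  | succ m ih =>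
    rw [pow_succ, pow_mul, pow_two]
    exact isOpen_KI_mul hfab ρ hρ _ ih

/-- ideals whose elements are nilpotent modulo another ideal -/
theorem isOpen_KI_of_rad (hfab : Helper77.SO.FAb Γ) {n : ℕ} (ρ : Γ →* Matrix (Fin n) (Fin n) A)
    (hρ : ∀ j : ℕ, IsOpen (KI ρ (maximalIdeal A ^ j) : Set Γ)) (J I : Ideal A)
    (hJ : IsOpen (KI ρ J : Set Γ)) (hJI : ∀ a ∈ J, ∃ m : ℕ, a ^ m ∈ I) :
    IsOpen (KI ρ I : Set Γ) := by
  have h1 : J ≤ I.radical := fun a ha => hJI a ha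
  obtain ⟨m, hm⟩ := Ideal.exists_radical_pow_le_of_fg I ((isNoetherianRing_iff_ideal_fg A).1
    inferInstance _)
  have h2 : J ^ 2 ^ m ≤ I := by
    refine (Ideal.pow_right_mono h1 _).trans ((Ideal.pow_le_pow_right ?_).trans hm)
    exact (Nat.lt_two_pow_self).le
  exact Subgroup.isOpen_mono (H₁ := KI ρ (J ^ 2 ^ m)) (H₂ := KI ρ I) (KI_mono ρ h2)
    (isOpen_KI_pow hfab ρ hρ J hJ m)

/-- intersections of prime ideals containing `p` -/
theorem isOpen_KI_sInf (hfab : Helper77.SO.FAb Γ) (p : ℕ) [Fact p.Prime] {n : ℕ}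
    (ρ : Γ →* Matrix (Fin n) (Fin n) A)
    (hρ : ∀ j : ℕ, IsOpen (KI ρ (maximalIdeal A ^ j) : Set Γ)) (hn : 0 < n)
    (C : Set (Ideal A)) (hC : ∀ P ∈ C, P.IsPrime ∧ (p : A) ∈ P ∧ IsOpen (KI ρ P : Set Γ)) :
    IsOpen (KI ρ (sInf C) : Set Γ) := by
  have hadd : ∀ (M : Type) [AddCommGroup M] [Module A M] [Module.Finite A M], AddFin Γ A M :=
    fun M _ _ _ => Helper21.SO.addFin_of_fab hfab M
  have hρ1 : IsOpen (KI ρ (maximalIdeal A) : Set Γ) := by simpa using hρ 1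
  set P := sInf C with hP
  let U := KI ρ (maximalIdeal A)
  have hprod : ∀ l : List U, l.length = n →
      MI P ((l.map fun g : U => ρ (g : Γ) - 1).prod) := by
    intro l hl i j
    rw [hP, Submodule.mem_sInf]
    intro Q hQ
    exact prod_mem_of_open p ρ Q (hC Q hQ).1 (hC Q hQ).2.1 (hC Q hQ).2.2 l hl i j
  let S : Set (Matrix (Fin n) (Fin n) A) := Set.range fun u : U => ρ u - 1
  let N : Submodule A (Matrix (Fin n) (Fin n) A) := Submodule.span A S
  have hNn : N ^ n ≤ MIsub n P := by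
    rw [Submodule.span_pow, Submodule.span_le]
    intro x hx
    rw [Set.mem_pow] at hx
    obtain ⟨f, rfl⟩ := hx
    have hf : ∀ i : Fin n, ∃ u : U, ρ u - 1 = (f i : Matrix (Fin n) (Fin n) A) := fun i => (f i).2
    choose g hg using hf
    have h1 := hprod (List.ofFn g) (by simp)
    rw [List.map_ofFn] at h1
    have h2 : (fun i => (f i : Matrix (Fin n) (Fin n) A)) = (fun u : U => ρ u - 1) ∘ g := by
      funext i; exact (hg i).symm
    rw [h2]
    exact h1
  have hstep : ∀ j : ℕ, ∃ V : Subgroup Γ, IsOpen (V : Set Γ) ∧ V ≤ U ∧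
      ∀ v ∈ V, ρ v - 1 ∈ N ^ (j + 1) ⊔ MIsub n P := by
    intro j
    induction j with
    | zero =>
      refine ⟨U, hρ1, le_rfl, fun v hv => ?_⟩
      rw [zero_add, pow_one]
      exact Submodule.mem_sup_left (Submodule.subset_span ⟨⟨v, hv⟩, rfl⟩)
    | succ j ihj =>
      obtain ⟨V, hV, hVU, hVj⟩ := ihj
      obtain ⟨V', hV', hVV', hV'W⟩ := add_step ρ hadd hρ V hV (N ^ (j + 1 + 1) ⊔ MIsub n P) (by
        intro u hu v hv
        obtain ⟨x, hx, y, hy, hxy⟩ := Submodule.mem_sup.1 (hVj u hu)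
        rw [← hxy, add_mul]
        apply Submodule.add_mem
        · apply Submodule.mem_sup_left
          rw [pow_succ (n := j + 1)]
          exact Submodule.mul_mem_mul hx (Submodule.subset_span ⟨⟨v, hVU hv⟩, rfl⟩)
        · apply Submodule.mem_sup_right
          have hy' : MI P y := hy
          exact hy'.mul_right _)
      exact ⟨V', hV', hVV'.trans hVU, hV'W⟩
  obtain ⟨j, rfl⟩ := Nat.exists_eq_succ_of_ne_zero hn.ne'
  obtain ⟨V, hV, hVU, hVj⟩ := hstep j
  refine Subgroup.isOpen_mono (H₁ := V) (H₂ := KI ρ P) (fun v hv => ?_) hV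
  have h1 := hVj v hv
  rw [sup_eq_right.2 hNn] at h1
  exact h1

/-- sufficiently many prime ideals -/
theorem isOpen_KI_bot (hfab : Helper77.SO.FAb Γ) (p : ℕ) [Fact p.Prime] {n : ℕ}
    (hpm : (p : A) ∈ maximalIdeal A) (ρ : Γ →* Matrix (Fin n) (Fin n) A)
    (hρ : ∀ j : ℕ, IsOpen (KI ρ (maximalIdeal A ^ j) : Set Γ)) (hn : 0 < n)
    (C : Set (Ideal A)) (hC : ∀ P ∈ C, P.IsPrime ∧ IsOpen (KI ρ P : Set Γ))
    (h₀ : ∀ a : A, ¬ IsUnit a → (∀ m : ℕ, a ^ m ∉ (⊥ : Ideal A)) → ∃ P ∈ C, a ∉ P)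
    (h₁ : ∀ a : A, ¬ IsUnit a → (∀ m : ℕ, a ^ m ∉ Ideal.span {(p : A)}) →
      ∃ P ∈ C, (p : A) ∈ P ∧ a ∉ P) :
    IsOpen (KI ρ (⊥ : Ideal A) : Set Γ) := by
  have hρ1 : IsOpen (KI ρ (maximalIdeal A) : Set Γ) := by simpa using hρ 1
  -- the primes containing `p`
  let C₁ : Set (Ideal A) := insert (maximalIdeal A) {P | P ∈ C ∧ (p : A) ∈ P}
  have hC₁ : ∀ P ∈ C₁, P.IsPrime ∧ (p : A) ∈ P ∧ IsOpen (KI ρ P : Set Γ) := by
    rintro P (rfl | ⟨h1, h2⟩)
    · exact ⟨inferInstance, hpm, hρ1⟩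
    · exact ⟨(hC P h1).1, h2, (hC P h1).2⟩
  have hJ₁ : IsOpen (KI ρ (sInf C₁) : Set Γ) := isOpen_KI_sInf hfab p ρ hρ hn C₁ hC₁
  have hspan : IsOpen (KI ρ (Ideal.span {(p : A)}) : Set Γ) := by
    refine isOpen_KI_of_rad hfab ρ hρ _ _ hJ₁ fun a ha => ?_
    by_contra hcon
    push Not at hcon
    rw [Submodule.mem_sInf] at ha
    have hau : ¬ IsUnit a := by
      have h1 := ha _ (Set.mem_insert _ _)
      exact (mem_maximalIdeal _).1 h1
    obtain ⟨P, hP, hpP, haP⟩ := h₁ a hau hcon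
    exact haP (ha P (Set.mem_insert_of_mem _ ⟨hP, hpP⟩))
  have hsq : IsOpen (KI ρ (Ideal.span {(p : A) ^ 2}) : Set Γ) := by
    have h1 := isOpen_KI_mul hfab ρ hρ _ hspan
    rwa [Ideal.span_singleton_mul_span_singleton, ← pow_two] at h1
  -- all primes
  let C₀ : Set (Ideal A) := insert (maximalIdeal A) C
  have hopen : IsOpen (KI ρ (sInf C₀) : Set Γ) := by
    refine Subgroup.isOpen_mono (H₁ := KI ρ (sInf C₁) ⊓ KI ρ (Ideal.span {(p : A) ^ 2}))
      (H₂ := KI ρ (sInf C₀)) (fun u hu => ?_) (hJ₁.inter hsq)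
    obtain ⟨hu1, hu2⟩ := Subgroup.mem_inf.1 hu
    intro i j
    rw [Submodule.mem_sInf]
    intro Q hQ
    by_cases hpQ : (p : A) ∈ Q
    · have h1 := hu1 i j
      rw [Submodule.mem_sInf] at h1
      apply h1
      rcases hQ with rfl | hQ
      · exact Set.mem_insert _ _
      · exact Set.mem_insert_of_mem _ ⟨hQ, hpQ⟩
    · have hQC : Q ∈ C := by
        rcases hQ with rfl | hQ
        · exact absurd hpm hpQ
        · exact hQ
      have hQp := (hC Q hQC).1
      have hQnt : Nontrivial (A ⧸ Q) := Ideal.Quotient.nontrivial_iff.2 hQp.ne_top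
      have hlocQ := isLocalRing_quot Q
      obtain ⟨N, hN, hNu⟩ := exists_pow_mem_of_open (hC Q hQC).2 u
      let E1 : Matrix (Fin n) (Fin n) A →+* Matrix (Fin n) (Fin n) (A ⧸ Q) :=
        (Ideal.Quotient.mk Q).mapMatrix
      have h1 : E1 (ρ u) ^ N = 1 := by
        rw [← map_pow, ← map_pow, ← sub_eq_zero, ← map_one E1, ← map_sub]
        ext i j
        exact Ideal.Quotient.eq_zero_iff_mem.2 (hNu i j)
      have h2 : E1 (ρ u) = 1 := by
        apply eq_one_of_serre p (D := A ⧸ Q) _ _ (E1 (ρ u)) _ N hN h1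
        · intro h0
          apply hpQ
          rw [← Ideal.Quotient.eq_zero_iff_mem, map_natCast]; exact h0
        · have := mk_mem_maximalIdeal Q hpm
          rwa [map_natCast] at this
        · rw [← map_one E1, ← map_sub]
          intro i j
          have h3 : (ρ u - 1) i j ∈ Ideal.span {(p : A) ^ 2} := hu2 i j
          rw [Ideal.mem_span_singleton] at h3 ⊢
          obtain ⟨z, hz⟩ := h3
          refine ⟨Ideal.Quotient.mk Q z, ?_⟩
          change Ideal.Quotient.mk Q ((ρ u - 1) i j) = _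
          rw [hz, map_mul, map_pow, map_natCast]
      rw [← Ideal.Quotient.eq_zero_iff_mem]
      have h4 : E1 (ρ u - 1) = 0 := by rw [map_sub, h2, map_one, sub_self]
      exact congrFun (congrFun h4 i) j
  refine isOpen_KI_of_rad hfab ρ hρ _ _ hopen fun a ha => ?_
  by_contra hcon
  push Not at hcon
  rw [Submodule.mem_sInf] at ha
  have hau : ¬ IsUnit a := (mem_maximalIdeal _).1 (ha _ (Set.mem_insert _ _))
  obtain ⟨P, hP, haP⟩ := h₀ a hau hcon
  exact haP (ha P (Set.mem_insert_of_mem _ hP))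

end

end Pool.Agent.Helper84.T5
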