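import Mathlib

/-!
# Coefficient rings with enough points of odd degree
-/

set_option autoImplicit false

open IsLocalRing

namespace Pool.Agent.Helper84.T5

/-- Let `I` be the zero ideal of `A` or the ideal generated by `p`. Each nonunit `a` of `A` which is not
nilpotent modulo `I` is not in the kernel of some homomorphism `j` from `A` to a complete discrete
valuation ring `O`, which vanishes on `I`, such that the residue field of `O` has `p ^ f` elements for an
odd number `f`, and `p = 0` in `O`, or `u` holds, or `e * n + 1 < p` for a number `e` such that `p` is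
not in the power of the maximal ideal with exponent `e + 1`. -/
def OddPoints (p n : ℕ) (u : Prop) (A : Type) [CommRing A] : Prop :=
  ∀ I : Ideal A, (I = ⊥ ∨ I = Ideal.span {(p : A)}) → ∀ a : A, ¬ IsUnit a → (∀ m : ℕ, a ^ m ∉ I) →
    ∃ (O : Type) (_ : CommRing O) (_ : IsDomain O) (_ : IsDiscreteValuationRing O) (j : A →+* O)
      (f : ℕ), IsAdicComplete (maximalIdeal O) O ∧ Odd f ∧ Nat.card (ResidueField O) = p ^ f ∧
        (∀ x ∈ I, j x = 0) ∧ j a ≠ 0 ∧
        ((p : O) = 0 ∨ u ∨ ∃ e, (p : O) ∉ maximalIdeal O ^ (e + 1) ∧ e * n + 1 < p)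

/-- Discrete valuation rings. -/
theorem oddPoints_dvr {p n : ℕ} {u : Prop} (O : Type) [CommRing O] [IsDomain O]
    [IsDiscreteValuationRing O] [IsAdicComplete (maximalIdeal O) O] {f : ℕ} (hf : Odd f)
    (hcard : Nat.card (ResidueField O) = p ^ f)
    (hp : (p : O) = 0 ∨ u ∨ ∃ e, (p : O) ∉ maximalIdeal O ^ (e + 1) ∧ e * n + 1 < p) :
    OddPoints p n u O := by
  intro I hI a ha haI
  have h0 : a ≠ 0 := by
    rintro rfl
    exact haI 1 (by rw [pow_one]; exact I.zero_mem)
  by_cases hI0 : I = ⊥
  · refine ⟨O, inferInstance, inferInstance, inferInstance, RingHom.id O, f, inferInstance, hf, hcard,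
      ?_, h0, hp⟩
    intro x hx
    rw [hI0] at hx
    exact hx
  · exfalso
    have h1 := hI.resolve_left hI0
    have hp0 : (p : O) ≠ 0 := by
      intro h
      apply hI0
      rw [h1, h, Ideal.span_singleton_eq_bot]
    obtain ⟨ϖ, hϖ⟩ := IsDiscreteValuationRing.exists_irreducible O
    obtain ⟨E, v, hE⟩ := IsDiscreteValuationRing.eq_unit_mul_pow_irreducible hp0 hϖ
    have h2 : ϖ ∣ a := by
      rw [← Ideal.mem_span_singleton, ← hϖ.maximalIdeal_eq]
      exact (mem_maximalIdeal _).2 ha
    apply haI E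
    rw [h1, Ideal.mem_span_singleton, hE]
    obtain ⟨b, rfl⟩ := h2
    rw [mul_pow, mul_comm (v : O)]
    exact mul_dvd_mul_left _ (v.isUnit.dvd)

end Pool.Agent.Helper84.T5
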