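import Pool.Agent.Helper84.T5.Final
import Pool.Agent.Helper84.T5.GenA
import Pool.Agent.Helper84.T5.Points

/-!
# The theorem for coefficient rings with enough points
-/

set_option autoImplicit false
set_option linter.unusedSectionVars false

open NumberField IsLocalRing Pool.Agent.Helper16.TR Pool.Agent.Helper27.TE
  Pool.Agent.Helper27.LP Pool.Agent.Helper27.TFM Matrix

open scoped Pointwise Topology

namespace Pool.Agent.Helper84.T5

open Pool.Agent.Helper77
open Pool.Agent.Helper77.SO hiding Dv Cont ResP FinIm aug IsOrd Irr cf Criterion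
open Pool.Agent.Helper42.SOM

section hom

variable {A : Type} [CommRing A] [IsLocalRing A] {O : Type} [CommRing O] [IsLocalRing O]
  [Finite (ResidueField O)] (j : A →+* O)

/-- homomorphisms are local -/
lemma map_mem_max {x : A} (hx : x ∈ maximalIdeal A) : j x ∈ maximalIdeal O := by
  by_contra h
  have hu : IsUnit (j x) := by
    by_contra h1
    exact h ((mem_maximalIdeal _).2 h1)
  have hft : Fintype (ResidueField O) := Fintype.ofFinite _
  have hr : residue O (j x) ≠ 0 := by
    rw [Ne, residue_eq_zero_iff]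
    exact h
  have h1 : residue O (j x) ^ (Fintype.card (ResidueField O) - 1) = 1 :=
    FiniteField.pow_card_sub_one_eq_one _ hr
  have hpos : Fintype.card (ResidueField O) - 1 ≠ 0 := by
    have := Fintype.one_lt_card (α := ResidueField O)
    omega
  have h2 : IsUnit (1 - x ^ (Fintype.card (ResidueField O) - 1)) := by
    by_contra h3
    have h4 : (1 : A) ∈ maximalIdeal A := by
      have h5 := Ideal.add_mem _ ((mem_maximalIdeal _).2 h3)
        (Ideal.pow_mem_of_mem _ hx _ (Nat.pos_of_ne_zero hpos))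
      rwa [sub_add_cancel] at h5
    exact (Ideal.ne_top_iff_one _).1 (maximalIdeal.isMaximal A).ne_top h4
  have h3 := (h2.map j).map (residue O)
  rw [map_sub, map_sub, map_one, map_one, map_pow, map_pow, h1, sub_self] at h3
  exact not_isUnit_zero h3

lemma map_mem_max_pow {m : ℕ} {x : A} (hx : x ∈ maximalIdeal A ^ m) :
    j x ∈ maximalIdeal O ^ m := by
  have h1 : (maximalIdeal A).map j ≤ maximalIdeal O := by
    rw [Ideal.map_le_iff_le_comap]
    intro b hb
    exact map_mem_max j hb
  have h2 := Ideal.mem_map_of_mem j hx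
  rw [Ideal.map_pow] at h2
  exact Ideal.pow_right_mono h1 m h2

variable [TopologicalSpace A] [TopologicalSpace O] (hA : IsAdic (maximalIdeal A))
  (hO : IsAdic (maximalIdeal O))

include hA hO in
lemma continuous_hom : Continuous j := by
  have hrA : IsTopologicalRing A := isTopologicalRing_of_isAdic hA
  have hrO : IsTopologicalRing O := isTopologicalRing_of_isAdic hO
  refine continuous_of_continuousAt_zero j ?_
  rw [ContinuousAt, map_zero]
  have h1 := (isAdic_iff.1 hO).2
  rw [Filter.tendsto_def]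
  intro s hs
  obtain ⟨m, hm⟩ := h1 s hs
  have h2 : ((maximalIdeal A ^ m : Ideal A) : Set A) ∈ 𝓝 (0 : A) :=
    ((isAdic_iff.1 hA).1 m).mem_nhds (Ideal.zero_mem _)
  exact Filter.mem_of_superset h2 fun x hx => hm (map_mem_max_pow j hx)

end hom

section cof

variable {Γ : Type} [Group Γ] {A : Type} [CommRing A] {n : ℕ}

/-- the representation of the quotient by the kernel -/
noncomputable def quotA (ρ : Γ →* GL (Fin n) A) : (Γ ⧸ ρ.ker) →* Matrix (Fin n) (Fin n) A :=
  QuotientGroup.lift ρ.ker ((Units.coeHom _).comp ρ) (by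
    intro g hg
    rw [MonoidHom.mem_ker]
    change ((ρ g : GL (Fin n) A) : Matrix (Fin n) (Fin n) A) = 1
    rw [(MonoidHom.mem_ker).1 hg]
    rfl)

lemma quotA_mk (ρ : Γ →* GL (Fin n) A) (g : Γ) : quotA ρ (QuotientGroup.mk' ρ.ker g) = ρ g := rfl

/-- images of representations -/
noncomputable def push {O : Type} [CommRing O] (j : A →+* O) (ρ : Γ →* GL (Fin n) A) :
    Γ →* GL (Fin n) O :=
  (Matrix.GeneralLinearGroup.map j).comp ρ

lemma push_apply {O : Type} [CommRing O] (j : A →+* O) (ρ : Γ →* GL (Fin n) A) (g : Γ) :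
    ((push j ρ g : GL (Fin n) O) : Matrix (Fin n) (Fin n) O) =
      j.mapMatrix (ρ g : Matrix (Fin n) (Fin n) A) := rfl

lemma push_ker {O : Type} [CommRing O] (j : A →+* O) (ρ : Γ →* GL (Fin n) A) :
    ρ.ker ≤ (push j ρ).ker := by
  intro g hg
  rw [MonoidHom.mem_ker] at hg ⊢
  rw [push, MonoidHom.comp_apply, hg, map_one]

/-- finite index of the congruence subgroup of the kernel -/
lemma finiteIndex_of_push {O : Type} [CommRing O] (j : A →+* O) (ρ : Γ →* GL (Fin n) A)
    (h : (Set.range (push j ρ)).Finite) : (KI (quotA ρ) (RingHom.ker j)).FiniteIndex := by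
  have htop : (⊤ : Subgroup (Γ ⧸ ρ.ker)).FiniteIndex := inferInstance
  refine finiteIndex_of_map (KI (quotA ρ) (RingHom.ker j)) ⊤
    (fun x => j.mapMatrix (quotA ρ x)) ?_ ?_
  · refine (h.image (fun u : GL (Fin n) O => (u : Matrix (Fin n) (Fin n) O))).subset ?_
    rintro _ ⟨x, -, rfl⟩
    obtain ⟨g, rfl⟩ := QuotientGroup.mk'_surjective ρ.ker x
    exact ⟨push j ρ g, ⟨g, rfl⟩, rfl⟩
  · intro u _ v _ huv
    have huv' : j.mapMatrix (quotA ρ u) = j.mapMatrix (quotA ρ v) := huv
    have h1 : j.mapMatrix (quotA ρ (u⁻¹ * v) - 1) = 0 := by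
      rw [map_sub, map_one, map_mul, map_mul, ← huv', ← map_mul, ← map_mul, inv_mul_cancel, map_one,
        map_one, sub_self]
    intro a b
    exact congrFun (congrFun h1 a) b

end cof

/-- the residue characteristic -/
lemma charP_of_card {k : Type} [Field k] {p f : ℕ} [Fact p.Prime] (hf : f ≠ 0)
    (h : Nat.card k = p ^ f) : CharP k p := by
  have hfin : Finite k := by
    apply Nat.finite_of_card_ne_zero
    rw [h]
    exact pow_ne_zero _ (Fact.out : p.Prime).ne_zero
  have hft : Fintype k := Fintype.ofFinite k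
  have h1 : ((p : ℕ) : k) = 0 := by
    have h2 := FiniteField.cast_card_eq_zero k
    rw [Fintype.card_eq_nat_card, h, Nat.cast_pow] at h2
    exact (pow_eq_zero_iff hf).1 h2
  exact (CharP.charP_iff_prime_eq_zero (Fact.out : p.Prime)).2 h1

section main

variable (p : ℕ) [Fact p.Prime]
    (A : Type) [CommRing A] [IsLocalRing A] [IsNoetherianRing A] [TopologicalSpace A]
    [CharP (ResidueField A) p] [Finite (ResidueField A)] [IsAdicComplete (maximalIdeal A) A]

/-- the projective residual image of the images -/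
lemma push_res {O : Type} [CommRing O] [IsLocalRing O] [Finite (ResidueField O)] (j : A →+* O)
    {n : ℕ} (ρ : GK ℚ →* GL (Fin n) A)
    (hr : ∀ g, ∃ (m : ℕ) (a : ResidueField A),
      ((residual ρ g ^ p ^ m : GL (Fin n) (ResidueField A)) :
        Matrix (Fin n) (Fin n) (ResidueField A)) = a • 1) (g : GK ℚ) :
    ∃ (m : ℕ) (a : ResidueField O),
      ((residual (push j ρ) g ^ p ^ m : GL (Fin n) (ResidueField O)) :
        Matrix (Fin n) (Fin n) (ResidueField O)) = a • 1 := by
  obtain ⟨m, a, h⟩ := hr g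
  obtain ⟨b, rfl⟩ := residue_surjective a
  refine ⟨m, residue O (j b), ?_⟩
  have h1 : ∀ x y, ((ρ g : Matrix (Fin n) (Fin n) A) ^ p ^ m - b • 1) x y ∈ maximalIdeal A := by
    intro x y
    rw [← residue_eq_zero_iff]
    have h2 : (residue A).mapMatrix ((ρ g : Matrix (Fin n) (Fin n) A) ^ p ^ m) =
        residue A b • 1 := by
      rw [map_pow]
      exact h
    have h3 : (residue A).mapMatrix ((ρ g : Matrix (Fin n) (Fin n) A) ^ p ^ m - b • 1) = 0 := by
      rw [map_sub, h2]
      ext x y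
      by_cases hxy : x = y
      · subst hxy; simp
      · simp [hxy]
    exact congrFun (congrFun h3 x) y
  have h4 : (residue O).mapMatrix (j.mapMatrix ((ρ g : Matrix (Fin n) (Fin n) A) ^ p ^ m - b • 1))
      = 0 := by
    ext x y
    change residue O (j _) = 0
    rw [residue_eq_zero_iff]
    exact map_mem_max j (h1 x y)
  rw [map_sub, map_sub, sub_eq_zero, map_pow, map_pow] at h4
  have h5 : (residue O).mapMatrix (j.mapMatrix (b • (1 : Matrix (Fin n) (Fin n) A))) =
      residue O (j b) • 1 := by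
    ext x y
    by_cases hxy : x = y
    · subst hxy; simp
    · simp [hxy]
  rw [h5] at h4
  exact h4

/-- coefficient rings with enough points of odd degree -/
theorem finite_points (hp2 : p ≠ 2)
    {q g : Fin 4 → ℕ} {l : Fin 4 → Fin 4 → ℕ} (hL : LinkData p q g l)
    (hAn : Aniso (fun i j => (l i j : ZMod p))) {T : Finset ℕ} (hT : ∀ r ∈ T, r.Prime)
    (hTq : ∀ r ∈ T, p ∣ r - 1 → ∃ i, q i = r) (hA : IsAdic (maximalIdeal A))
    {n : ℕ} (h5 : n ≤ 5) (ρ : GK ℚ →* GL (Fin n) A) (hρ : Continuous ρ) (hTame : TameSub ℚ (above T) ρ.ker)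
    (hr : ∀ g, ∃ (m : ℕ) (a : ResidueField A),
      ((residual ρ g ^ p ^ m : GL (Fin n) (ResidueField A)) :
        Matrix (Fin n) (Fin n) (ResidueField A)) = a • 1)
    (hchar : (p : A) = 0 ∨ (n < p ∧ (Spread p q l ∨ Flat p n q l)))
    (hpts : OddPoints p n (∀ Q : Ideal (𝓞 (AlgebraicClosure ℚ)), Q.IsMaximal →
      ∀ τ ∈ Q.inertia (GK ℚ), IsNilpotent ((ρ τ : Matrix (Fin n) (Fin n) A) - 1)) A) :
    (Set.range ρ).Finite := by
  rcases Nat.eq_zero_or_pos n with rfl | hpos
  · exact Set.toFinite _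
  set R := ρ.ker with hR
  have hfab : FAb (GK ℚ ⧸ R) := fab_quot hTame (finite_above_rat T hT)
  have hopen : ∀ j : ℕ, IsOpen (KI (quotA ρ) (maximalIdeal A ^ j) : Set (GK ℚ ⧸ R)) := by
    intro j
    have h1 : (KI (quotA ρ) (maximalIdeal A ^ j) : Set (GK ℚ ⧸ R)) =
        (QuotientGroup.mk : GK ℚ → GK ℚ ⧸ R) ''
          (KI ((Units.coeHom _).comp ρ : GK ℚ →* Matrix (Fin n) (Fin n) A)
            (maximalIdeal A ^ j) : Set (GK ℚ)) := by
      ext x
      constructor
      · intro hx
        obtain ⟨g, rfl⟩ := QuotientGroup.mk'_surjective R x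
        exact ⟨g, hx, rfl⟩
      · rintro ⟨g, hg, rfl⟩
        exact hg
    rw [h1]
    exact QuotientGroup.isOpenMap_coe _ (isOpen_KI_of_continuous hA ρ hρ j)
  have hpm : (p : A) ∈ maximalIdeal A := by
    rw [← residue_eq_zero_iff, map_natCast]
    exact CharP.cast_eq_zero _ p
  have key : ∀ I : Ideal A, (I = ⊥ ∨ I = Ideal.span {(p : A)}) → ∀ a : A, ¬ IsUnit a →
      (∀ m : ℕ, a ^ m ∉ I) → ∃ P : Ideal A, P.IsPrime ∧
        IsOpen (KI (quotA ρ) P : Set (GK ℚ ⧸ R)) ∧ I ≤ P ∧ a ∉ P := by
    intro I hI a ha haI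
    obtain ⟨O, _, _, _, j, f, hcomp, hf, hcard, hjI, hja, hp⟩ := hpts I hI a ha haI
    have hfin : Finite (ResidueField O) := by
      apply Nat.finite_of_card_ne_zero
      rw [hcard]
      exact pow_ne_zero _ (Fact.out : p.Prime).ne_zero
    have hch : CharP (ResidueField O) p :=
      charP_of_card (by rintro rfl; exact absurd hf (by decide)) hcard
    let _ : TopologicalSpace O := (maximalIdeal O).adicTopology
    have hO : IsAdic (maximalIdeal O) := rfl
    refine ⟨RingHom.ker j, RingHom.ker_isPrime j, ?_, fun x hx => hjI x hx, hja⟩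
    refine isOpen_KI_of_finiteIndex _ hopen _ (finiteIndex_of_push j ρ ?_)
    have hcont : Continuous (push j ρ) := by
      have h1 : Continuous (Units.map
          ((j.mapMatrix : Matrix (Fin n) (Fin n) A →+* Matrix (Fin n) (Fin n) O) :
            Matrix (Fin n) (Fin n) A →* Matrix (Fin n) (Fin n) O)) :=
        Continuous.units_map _ (Continuous.matrix_map continuous_id (continuous_hom j hA hO))
      exact h1.comp hρ
    have hin : (∀ Q : Ideal (𝓞 (AlgebraicClosure ℚ)), Q.IsMaximal →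
        ∀ τ ∈ Q.inertia (GK ℚ), IsNilpotent ((ρ τ : Matrix (Fin n) (Fin n) A) - 1)) →
        ∀ Q : Ideal (𝓞 (AlgebraicClosure ℚ)), Q.IsMaximal → ∀ τ ∈ Q.inertia (GK ℚ),
          IsNilpotent ((push j ρ τ : Matrix (Fin n) (Fin n) O) - 1) := by
      intro h Q hQ τ hτ
      have h2 := (h Q hQ τ hτ).map (j.mapMatrix : Matrix (Fin n) (Fin n) A →+* _)
      rwa [map_sub, map_one] at h2
    refine finite_main p hp2 hL hAn hT hTq O hO hcard (push j ρ) hcont
      (hTame.mono (push_ker j ρ)) (push_res p A j ρ hr) ?_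
      (Or.inl ⟨h5, hf⟩)
    by_cases hp0 : (p : O) = 0
    · exact Or.inl hp0
    · right
      refine ⟨?_, ?_⟩
      · refine hchar.resolve_left fun h => hp0 ?_
        rw [← map_natCast j, h, map_zero]
      · rcases hp.resolve_left hp0 with h | h
        · exact Or.inr (hin h)
        · exact Or.inl h
  have hbot : IsOpen (KI (quotA ρ) (⊥ : Ideal A) : Set (GK ℚ ⧸ R)) := by
    refine isOpen_KI_bot hfab p hpm (quotA ρ) hopen hpos
      {P | P.IsPrime ∧ IsOpen (KI (quotA ρ) P : Set (GK ℚ ⧸ R))} (fun P hP => hP) ?_ ?_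
    · intro a ha h
      obtain ⟨P, h1, h2, -, h4⟩ := key ⊥ (Or.inl rfl) a ha h
      exact ⟨P, ⟨h1, h2⟩, h4⟩
    · intro a ha h
      obtain ⟨P, h1, h2, h3, h4⟩ := key _ (Or.inr rfl) a ha h
      exact ⟨P, ⟨h1, h2⟩, h3 (Ideal.mem_span_singleton_self _), h4⟩
  refine Helper27.TE.finite_range_of_open
    (N := (KI (quotA ρ) (⊥ : Ideal A)).comap (QuotientGroup.mk' R))
    (hbot.preimage continuous_quotient_mk') ?_
  intro g hg
  rw [MonoidHom.mem_ker]
  apply Units.ext
  have h1 : MI (⊥ : Ideal A) (quotA ρ (QuotientGroup.mk' R g) - 1) := hg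
  have h2 : (ρ g : Matrix (Fin n) (Fin n) A) - 1 = 0 := by
    ext x y
    exact h1 x y
  exact sub_eq_zero.1 h2

end main

end Pool.Agent.Helper84.T5
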