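import Mathlib

/-!
# Alternating forms of rank four, the values of which satisfy four linear equations
-/

set_option autoImplicit false

open MvPolynomial

namespace Pool.Agent.Helper84.T5

section basic

/-- alternating families -/
structure IsAlt {M : Type} [AddCommGroup M] (C : Fin 4 → Fin 4 → M) : Prop where
  swap : ∀ i j, C i j = - C j i
  diag : ∀ i, C i i = 0

/-- the alternating family with the given values above the diagonal -/
def alt {M : Type} [AddCommGroup M] (x : Fin 6 → M) : Fin 4 → Fin 4 → M :=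
  ![![0, x 0, x 1, x 2], ![-x 0, 0, x 3, x 4], ![-x 1, -x 3, 0, x 5], ![-x 2, -x 4, -x 5, 0]]

/-- the values above the diagonal -/
def up {M : Type} (C : Fin 4 → Fin 4 → M) : Fin 6 → M :=
  ![C 0 1, C 0 2, C 0 3, C 1 2, C 1 3, C 2 3]

lemma isAlt_alt {M : Type} [AddCommGroup M] (x : Fin 6 → M) : IsAlt (alt x) := by
  refine ⟨fun i j => ?_, fun i => ?_⟩
  · fin_cases i <;> fin_cases j <;> simp [alt]
  · fin_cases i <;> simp [alt]

lemma alt_up {M : Type} [AddCommGroup M] {C : Fin 4 → Fin 4 → M} (h : IsAlt C) :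
    alt (up C) = C := by
  funext i j
  have h1 := h.swap 1 0
  have h2 := h.swap 2 0
  have h3 := h.swap 3 0
  have h4 := h.swap 2 1
  have h5 := h.swap 3 1
  have h6 := h.swap 3 2
  have h7 := h.diag
  fin_cases i <;> fin_cases j <;> simp [alt, up, h7] <;> simp [*]

lemma up_alt {M : Type} [AddCommGroup M] (x : Fin 6 → M) : up (alt x) = x := by
  funext m
  fin_cases m <;> rfl

/-- the Pfaffian -/
def pf {R : Type} [CommRing R] (ω : Fin 4 → Fin 4 → R) : R :=
  ω 0 1 * ω 2 3 - ω 0 2 * ω 1 3 + ω 0 3 * ω 1 2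

/-- the relations of Plücker -/
lemma plucker {R : Type} [CommRing R] {ω : Fin 4 → Fin 4 → R} (h : IsAlt ω) (h0 : pf ω = 0)
    (i j k m : Fin 4) : ω i j * ω k m - ω i k * ω j m + ω i m * ω j k = 0 := by
  obtain ⟨x, rfl⟩ : ∃ x, ω = alt x := ⟨up ω, (alt_up h).symm⟩
  have h1 : x 0 * x 5 - x 1 * x 4 + x 2 * x 3 = 0 := h0
  clear h h0
  fin_cases i <;> fin_cases j <;> fin_cases k <;> fin_cases m <;>
    simp only [alt, Fin.zero_eta, Fin.mk_one, Fin.reduceFinMk, Fin.isValue, Matrix.cons_val,
      Matrix.cons_val_zero, Matrix.cons_val_one] <;>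
    first
      | ring1
      | linear_combination h1
      | linear_combination -h1

end basic

section space

variable {F : Type} [Field F]

/-- the four linear expressions -/
def eqs (l : Fin 4 → Fin 4 → F) {M : Type} [AddCommGroup M] [Module F M]
    (C : Fin 4 → Fin 4 → M) (i : Fin 4) : M := ∑ j, l i j • C i j

/-- the linear map of the four linear expressions -/
def eqsL (l : Fin 4 → Fin 4 → F) : (Fin 6 → F) →ₗ[F] (Fin 4 → F) where
  toFun x := eqs l (alt x)
  map_add' x y := by
    funext i
    fin_cases i <;> simp [eqs, alt, Fin.sum_univ_four] <;> ring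
  map_smul' c x := by
    funext i
    fin_cases i <;> simp [eqs, alt, Fin.sum_univ_four] <;> ring

/-- the only solution with vanishing Pfaffian is zero -/
def Aniso (l : Fin 4 → Fin 4 → F) : Prop :=
  ∀ x : Fin 6 → F, eqsL l x = 0 → pf (alt x) = 0 → x = 0

/-- a solution which satisfies a further linear equation -/
lemma exists_sol (l : Fin 4 → Fin 4 → F) (ψ : (Fin 6 → F) →ₗ[F] F) :
    ∃ x, x ≠ 0 ∧ eqsL l x = 0 ∧ ψ x = 0 := by
  have h1 : LinearMap.ker ((eqsL l).prod ψ) ≠ ⊥ := by
    apply LinearMap.ker_ne_bot_of_finrank_lt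
    simp
  obtain ⟨x, hx, hx0⟩ := Submodule.exists_mem_ne_zero_of_ne_bot h1
  rw [LinearMap.mem_ker, LinearMap.prod_apply, Function.prod_apply, Prod.mk_eq_zero] at hx
  exact ⟨x, hx0, hx.1, hx.2⟩

/-- Chevalley and Warning -/
lemma finrank_le [Finite F] {l : Fin 4 → Fin 4 → F} (hA : Aniso l) :
    Module.finrank F (LinearMap.ker (eqsL l)) ≤ 2 := by
  classical
  have hft : Fintype F := Fintype.ofFinite F
  by_contra hcon
  have h3 : 3 ≤ Module.finrank F (LinearMap.ker (eqsL l)) := by omega
  set b := Module.finBasis F (LinearMap.ker (eqsL l)) with hb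
  have hli : LinearIndependent F (fun a : Fin 3 => ((b (Fin.castLE h3 a) : LinearMap.ker (eqsL l)) :
      Fin 6 → F)) :=
    (b.linearIndependent.comp _ (Fin.castLE_injective h3)).map' (Submodule.subtype _)
      (Submodule.ker_subtype _)
  set v : Fin 3 → Fin 6 → F := fun a => ((b (Fin.castLE h3 a) : LinearMap.ker (eqsL l)) : Fin 6 → F)
    with hv
  have hvk : ∀ a, eqsL l (v a) = 0 := fun a => (LinearMap.mem_ker).1 (b (Fin.castLE h3 a)).2
  let L : Fin 6 → MvPolynomial (Fin 3) F := fun m => ∑ a, C (v a m) * X a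
  have hL : ∀ m, (L m).totalDegree ≤ 1 := by
    intro m
    refine (totalDegree_finsetSum _ _).trans (Finset.sup_le fun a _ => ?_)
    refine (totalDegree_mul _ _).trans ?_
    rw [totalDegree_C, totalDegree_X]
  set f : MvPolynomial (Fin 3) F := L 0 * L 5 - L 1 * L 4 + L 2 * L 3 with hf
  have hmul : ∀ i j, (L i * L j).totalDegree ≤ 2 := fun i j =>
    (totalDegree_mul _ _).trans (add_le_add (hL i) (hL j))
  have hdeg : f.totalDegree < Fintype.card (Fin 3) := by
    rw [Fintype.card_fin]
    have h1 : f.totalDegree ≤ 2 := (totalDegree_add _ _).trans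
      (max_le ((totalDegree_sub _ _).trans (max_le (hmul _ _) (hmul _ _))) (hmul _ _))
    omega
  obtain ⟨p, hp⟩ := CharP.exists F
  have hpp : p.Prime := (CharP.char_is_prime_or_zero F p).resolve_right (CharP.char_ne_zero_of_finite F p)
  have hdvd := char_dvd_card_solutions (K := F) p hdeg
  have hz : eval (0 : Fin 3 → F) f = 0 := by simp [hf, L]
  obtain ⟨⟨x, hx⟩, hne⟩ : ∃ y : {x : Fin 3 → F // eval x f = 0}, y ≠ ⟨0, hz⟩ := by
    by_contra hall
    push Not at hall
    have h1 : Fintype.card {x : Fin 3 → F // eval x f = 0} = 1 :=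
      Fintype.card_eq_one_iff.2 ⟨_, hall⟩
    rw [h1] at hdvd
    exact hpp.one_lt.ne' (Nat.dvd_one.1 hdvd)
  have hx0 : x ≠ 0 := fun h => hne (Subtype.ext h)
  have h1 : eqsL l (∑ a, x a • v a) = 0 := by
    rw [map_sum]
    exact Finset.sum_eq_zero fun a _ => by rw [map_smul, hvk, smul_zero]
  have h2 : pf (alt (∑ a, x a • v a)) = 0 := by
    have h3 : ∀ m, eval x (L m) = (∑ a, x a • v a) m := by
      intro m
      simp [L, mul_comm]
    have h4 : eval x f = pf (alt (∑ a, x a • v a)) := by
      rw [hf, map_add, map_sub, map_mul, map_mul, map_mul, h3, h3, h3, h3, h3, h3]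
      rfl
    rw [← h4]
    exact hx
  have h3 := hA _ h1 h2
  apply hx0
  funext a
  exact (Fintype.linearIndependent_iff.1 hli) x h3 a

lemma finrank_ker [Finite F] {l : Fin 4 → Fin 4 → F} (hA : Aniso l) :
    Module.finrank F (LinearMap.ker (eqsL l)) = 2 := by
  refine le_antisymm (finrank_le hA) ?_
  have h1 := LinearMap.finrank_range_add_finrank_ker (eqsL l)
  have h2 : Module.finrank F (LinearMap.range (eqsL l)) ≤ 4 := by
    have := Submodule.finrank_le (LinearMap.range (eqsL l))
    simpa using this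
  simp at h1
  omega

/-- the inhomogeneous equations have solutions -/
lemma eqsL_surjective [Finite F] {l : Fin 4 → Fin 4 → F} (hA : Aniso l) :
    Function.Surjective (eqsL l) := by
  rw [← LinearMap.range_eq_top]
  apply Submodule.eq_top_of_finrank_eq
  have h1 := LinearMap.finrank_range_add_finrank_ker (eqsL l)
  rw [finrank_ker hA] at h1
  simp at h1 ⊢
  omega

/-- a basis of the space of solutions and the values of the solutions in modules -/
lemma exists_basis [Finite F] {l : Fin 4 → Fin 4 → F} (hA : Aniso l) :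
    ∃ x y : Fin 6 → F, eqsL l x = 0 ∧ eqsL l y = 0 ∧
      (∀ s t : F, s • x + t • y = 0 → s = 0 ∧ t = 0) ∧
      ∀ (M : Type) [AddCommGroup M] [Module F M] (C : Fin 4 → Fin 4 → M), IsAlt C →
        (∀ i, eqs l C i = 0) → ∃ Z Z' : M, ∀ i j, C i j = alt x i j • Z + alt y i j • Z' := by
  let b : Module.Basis (Fin 2) F (LinearMap.ker (eqsL l)) :=
    Module.finBasisOfFinrankEq F _ (finrank_ker hA)
  obtain ⟨P, hP⟩ := LinearMap.exists_leftInverse_of_injective (Submodule.subtype (LinearMap.ker (eqsL l)))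
    (Submodule.ker_subtype _)
  have hP' : ∀ z : LinearMap.ker (eqsL l), P z = z := fun z => LinearMap.congr_fun hP z
  refine ⟨b 0, b 1, (LinearMap.mem_ker).1 (b 0).2, (LinearMap.mem_ker).1 (b 1).2, ?_, ?_⟩
  · intro s t hst
    have h1 : s • b 0 + t • b 1 = 0 := Subtype.ext hst
    have h2 := Fintype.linearIndependent_iff.1 b.linearIndependent ![s, t] (by simpa using h1)
    exact ⟨h2 0, h2 1⟩
  · intro M _ _ C hC hrel
    let ψ : Fin 2 → (Fin 6 → F) →ₗ[F] F := fun a => (b.coord a).comp P
    let Z : Fin 2 → M := fun a => ∑ m, ψ a (Pi.single m 1) • up C m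
    have hψ : ∀ a x, ψ a x = ∑ m, x m * ψ a (Pi.single m 1) := by
      intro a x
      conv_lhs => rw [LinearMap.pi_apply_eq_sum_univ (ψ a) x]
      refine Finset.sum_congr rfl fun m _ => ?_
      rw [smul_eq_mul]
      congr 2
      funext j
      simp [Pi.single_apply, eq_comm]
    have key : ∀ m, up C m = (b 0 : Fin 6 → F) m • Z 0 + (b 1 : Fin 6 → F) m • Z 1 := by
      intro m
      rw [← sub_eq_zero, ← Module.forall_dual_apply_eq_zero_iff F]
      intro φ
      set x : Fin 6 → F := fun m => φ (up C m) with hx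
      have hxk : eqsL l x = 0 := by
        funext i
        have h1 : φ (eqs l C i) = 0 := by rw [hrel, map_zero]
        rw [← alt_up hC] at h1
        refine Eq.trans ?_ h1
        change eqs l (alt x) i = _
        simp only [eqs, map_sum, map_smul]
        refine Finset.sum_congr rfl fun j _ => ?_
        congr 1
        fin_cases i <;> fin_cases j <;> simp [alt, hx]
      have h1 : ∀ a, φ (Z a) = ψ a x := by
        intro a
        rw [hψ, map_sum]
        exact Finset.sum_congr rfl fun j _ => by rw [map_smul, smul_eq_mul, mul_comm]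
      have h2 : x = ψ 0 x • (b 0 : Fin 6 → F) + ψ 1 x • (b 1 : Fin 6 → F) := by
        have h3 := b.sum_repr ⟨x, (LinearMap.mem_ker).2 hxk⟩
        have h4 : ∀ a, b.repr ⟨x, (LinearMap.mem_ker).2 hxk⟩ a = ψ a x := by
          intro a
          change _ = b.coord a (P x)
          rw [show P x = ⟨x, (LinearMap.mem_ker).2 hxk⟩ from hP' ⟨x, (LinearMap.mem_ker).2 hxk⟩]
          rfl
        rw [Fin.sum_univ_two, h4, h4] at h3
        exact (congrArg Subtype.val h3).symm
      rw [map_sub, map_add, map_smul, map_smul, h1, h1, sub_eq_zero]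
      have h5 := congrFun h2 m
      rw [Pi.add_apply, Pi.smul_apply, Pi.smul_apply] at h5
      rw [smul_eq_mul, smul_eq_mul, mul_comm _ (ψ 0 x), mul_comm _ (ψ 1 x)]
      exact h5
    refine ⟨Z 0, Z 1, fun i j => ?_⟩
    rw [← alt_up hC]
    fin_cases i <;> fin_cases j <;>
      simp only [alt, Fin.zero_eta, Fin.mk_one, Fin.reduceFinMk, Fin.isValue, Matrix.cons_val,
        Matrix.cons_val_zero, Matrix.cons_val_one, key] <;> module

end space

end Pool.Agent.Helper84.T5
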