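import Pool.Agent.Helper84.T5.Pair

/-!
# The decomposition of the space of generators in two planes
-/

set_option autoImplicit false

namespace Pool.Agent.Helper84.T5

/-- the dual alternating form -/
def star {R : Type} [CommRing R] (ω : Fin 4 → Fin 4 → R) : Fin 4 → Fin 4 → R :=
  alt ![ω 2 3, - ω 1 3, ω 1 2, ω 0 3, - ω 0 2, ω 0 1]

lemma star_mul {R : Type} [CommRing R] {ω : Fin 4 → Fin 4 → R} (h : IsAlt ω) (h0 : pf ω = 0)
    (k m : Fin 4) : ∑ j, ω k j * star ω j m = 0 := by
  obtain ⟨x, rfl⟩ : ∃ x, ω = alt x := ⟨up ω, (alt_up h).symm⟩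
  have h1 : x 0 * x 5 - x 1 * x 4 + x 2 * x 3 = 0 := h0
  clear h h0
  fin_cases k <;> fin_cases m <;>
    simp only [star, alt, Fin.sum_univ_four, Fin.zero_eta, Fin.mk_one, Fin.reduceFinMk, Fin.isValue,
      Matrix.cons_val, Matrix.cons_val_zero, Matrix.cons_val_one] <;>
    first
      | ring1
      | linear_combination h1
      | linear_combination -h1

lemma mul_star {R : Type} [CommRing R] {ω : Fin 4 → Fin 4 → R} (h : IsAlt ω) (h0 : pf ω = 0)
    (k m : Fin 4) : ∑ j, ω j k * star ω j m = 0 := by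
  have h1 := star_mul h h0 k m
  have h2 : ∑ j, ω j k * star ω j m = - ∑ j, ω k j * star ω j m := by
    rw [← Finset.sum_neg_distrib]
    exact Finset.sum_congr rfl fun j _ => by rw [h.swap j k]; ring
  rw [h2, h1, neg_zero]

lemma star_add {R : Type} [CommRing R] {ω ω' : Fin 4 → Fin 4 → R} (h : IsAlt ω) (h' : IsAlt ω')
    (i j : Fin 4) : ∑ m, star ω' j m * ω m i + ∑ m, star ω j m * ω' m i =
      if i = j then - bil ω ω' else 0 := by
  obtain ⟨x, rfl⟩ : ∃ x, ω = alt x := ⟨up ω, (alt_up h).symm⟩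
  obtain ⟨y, rfl⟩ : ∃ y, ω' = alt y := ⟨up ω', (alt_up h').symm⟩
  clear h h'
  fin_cases i <;> fin_cases j <;>
    simp [star, alt, bil, Fin.sum_univ_four] <;> ring

/-- the data of the decomposition -/
structure Frame (p : ℕ) (K : Type) [Field K] [CharP K p] (l : Fin 4 → Fin 4 → ZMod p) where
  /-- an isotropic solution -/
  ω : Fin 4 → Fin 4 → K
  /-- the conjugate solution -/
  ω' : Fin 4 → Fin 4 → K
  /-- the projection on the first plane -/
  P : Fin 4 → Fin 4 → K
  /-- the projection on the second plane -/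
  Q : Fin 4 → Fin 4 → K
  alt : IsAlt ω
  alt' : IsAlt ω'
  frob : ∀ i j, ω' i j = ω i j ^ p
  frob' : ∀ i j, ω i j = ω' i j ^ p
  ne : ∀ i j, i ≠ j → ω i j ≠ 0
  ne' : ∀ i j, i ≠ j → ω' i j ≠ 0
  rel : ∀ i, ∑ j, ZMod.castHom dvd_rfl K (l i j) * ω i j = 0
  rel' : ∀ i, ∑ j, ZMod.castHom dvd_rfl K (l i j) * ω' i j = 0
  sum : ∀ i j, P i j + Q i j = if i = j then 1 else 0
  pow : ∀ i j, Q i j = P i j ^ p
  pow' : ∀ i j, P i j = Q i j ^ p
  lin : ∀ i j k m, ω i j * P k m = ω k j * P i m + ω i k * P j m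
  lin' : ∀ i j k m, ω' i j * Q k m = ω' k j * Q i m + ω' i k * Q j m
  kill : ∀ (M : Type) [AddCommGroup M] [Module K M] (C : Fin 4 → Fin 4 → M), IsAlt C →
    (∀ i, eqs (fun i j => ZMod.castHom dvd_rfl K (l i j)) C i = 0) →
    ∀ i j, ∑ k, ∑ m, (P i k * Q j m) • C k m = 0

/-- The frame exists. -/
theorem nonempty_frame {p : ℕ} [Fact p.Prime] (K : Type) [Field K] [CharP K p] [IsAlgClosed K]
    {l : Fin 4 → Fin 4 → ZMod p} (hA : Aniso l) : Nonempty (Frame p K l) := by
  have hpp : p.Prime := Fact.out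
  obtain ⟨ω, ω', h1, h2, h3, h4, h5, h6, h7, h8, h9, h10⟩ := exists_pair K hA
  set B := bil ω ω' with hB
  have hfr : ∀ (x y z : K), (x * y) ^ p = x ^ p * y ^ p := fun x y _ => mul_pow x y p
  have hBp : B ^ p = B := by
    rw [hB, ← frobenius_def]
    simp only [bil, map_add, map_sub, map_mul, frobenius_def, ← h5, ← h6]
    ring
  have hF : ∀ i j, frobenius K p (ω i j) = ω' i j := fun i j => by rw [frobenius_def, h5]
  have hF' : ∀ i j, frobenius K p (ω' i j) = ω i j := fun i j => by rw [frobenius_def, ← h6]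
  have hstar : ∀ i j, star ω' i j = star ω i j ^ p := by
    intro i j
    rw [← frobenius_def]
    fin_cases i <;> fin_cases j <;> simp [star, T5.alt, hF]
  have hstar' : ∀ i j, star ω i j = star ω' i j ^ p := by
    intro i j
    rw [← frobenius_def]
    fin_cases i <;> fin_cases j <;> simp [star, T5.alt, hF']
  let P : Fin 4 → Fin 4 → K := fun i j => - (B⁻¹ * ∑ m, star ω' j m * ω m i)
  let Q : Fin 4 → Fin 4 → K := fun i j => - (B⁻¹ * ∑ m, star ω j m * ω' m i)
  have hlin : ∀ (ω ω' : Fin 4 → Fin 4 → K), IsAlt ω → pf ω = 0 → ∀ i j k m,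
      ω i j * (- (B⁻¹ * ∑ a, star ω' m a * ω a k)) = ω k j * (- (B⁻¹ * ∑ a, star ω' m a * ω a i)) +
        ω i k * (- (B⁻¹ * ∑ a, star ω' m a * ω a j)) := by
    intro ω ω' ha h0 i j k m
    have h11 : ω i j * (∑ a, star ω' m a * ω a k) = ω k j * (∑ a, star ω' m a * ω a i) +
        ω i k * (∑ a, star ω' m a * ω a j) := by
      rw [Finset.mul_sum, Finset.mul_sum, Finset.mul_sum, ← Finset.sum_add_distrib]
      refine Finset.sum_congr rfl fun a _ => ?_
      have h12 := plucker ha h0 i j k a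
      rw [ha.swap a k, ha.swap a i, ha.swap a j, ha.swap k j]
      linear_combination (- star ω' m a) * h12
    linear_combination (- B⁻¹) * h11
  refine ⟨⟨ω, ω', P, Q, h1, h2, h5, h6, h7, ?_, ?_, ?_, ?_, ?_, ?_, ?_, ?_, ?_⟩⟩
  · intro i j hij
    rw [h5]
    exact pow_ne_zero _ (h7 i j hij)
  · intro i
    exact h9 i
  · intro i
    have h11 := congrArg (fun z => z ^ p) (h9 i)
    simp only [eqs, zero_pow hpp.ne_zero, smul_eq_mul] at h11
    rw [← frobenius_def, map_sum] at h11
    rw [← h11]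
    refine Finset.sum_congr rfl fun j _ => ?_
    rw [map_mul, frobenius_def, frobenius_def, ← map_pow, ZMod.pow_card, h5]
  · intro i j
    have h11 := star_add h1 h2 i j
    change - (B⁻¹ * _) + - (B⁻¹ * _) = _
    rw [← neg_add, ← mul_add, h11]
    split_ifs
    · rw [mul_neg, neg_neg, inv_mul_cancel₀ h8]
    · rw [mul_zero, neg_zero]
  · intro i j
    change - (B⁻¹ * _) = (- (B⁻¹ * _)) ^ p
    rw [← frobenius_def, map_neg, map_mul, map_inv₀, map_sum, frobenius_def, hBp]
    congr 2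
    refine Finset.sum_congr rfl fun m _ => ?_
    rw [map_mul, frobenius_def, frobenius_def, ← hstar', ← h5]
  · intro i j
    change - (B⁻¹ * _) = (- (B⁻¹ * _)) ^ p
    rw [← frobenius_def, map_neg, map_mul, map_inv₀, map_sum, frobenius_def, hBp]
    congr 2
    refine Finset.sum_congr rfl fun m _ => ?_
    rw [map_mul, frobenius_def, frobenius_def, ← hstar, ← h6]
  · exact fun i j k m => hlin ω ω' h1 h3 i j k m
  · exact fun i j k m => hlin ω' ω h2 h4 i j k m
  · intro M _ _ C hC hrel i j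
    obtain ⟨Z, Z', hZ⟩ := h10 M C hC hrel
    have h11 : ∀ k, ∑ m, Q j m * ω k m = 0 := by
      intro k
      have h12 : ∑ m, Q j m * ω k m = - (B⁻¹ * ∑ a, (∑ m, ω k m * star ω m a) * ω' a j) := by
        simp only [Q, Finset.mul_sum, Finset.sum_mul, ← Finset.sum_neg_distrib]
        rw [Finset.sum_comm]
        exact Finset.sum_congr rfl fun a _ => Finset.sum_congr rfl fun b _ => by ring
      rw [h12]
      simp only [star_mul h1 h3, zero_mul, Finset.sum_const_zero, mul_zero, neg_zero]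
    have h13 : ∀ m, ∑ k, P i k * ω' k m = 0 := by
      intro m
      have h12 : ∑ k, P i k * ω' k m = - (B⁻¹ * ∑ a, ω a i * (∑ k, ω' k m * star ω' k a)) := by
        simp only [P, Finset.mul_sum, Finset.sum_mul, ← Finset.sum_neg_distrib]
        rw [Finset.sum_comm]
        exact Finset.sum_congr rfl fun a _ => Finset.sum_congr rfl fun b _ => by ring
      rw [h12]
      simp only [mul_star h2 h4, mul_zero, Finset.sum_const_zero, neg_zero]
    have h14 : ∑ k, ∑ m, (P i k * Q j m) • C k m =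
        (∑ k, P i k * ∑ m, Q j m * ω k m) • Z + (∑ m, Q j m * ∑ k, P i k * ω' k m) • Z' := by
      simp only [hZ, smul_add, smul_smul, Finset.sum_add_distrib, Finset.mul_sum, Finset.sum_smul]
      congr 1
      · exact Finset.sum_congr rfl fun a _ => Finset.sum_congr rfl fun b _ => by
          congr 1; ring
      · rw [Finset.sum_comm]
        exact Finset.sum_congr rfl fun a _ => Finset.sum_congr rfl fun b _ => by
          congr 1; ring
    rw [h14]
    simp only [h11, h13, mul_zero, Finset.sum_const_zero, zero_smul, add_zero]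

end Pool.Agent.Helper84.T5
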