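import Pool.Agent.Helper84.T5.Small

/-!
# The homogeneous case: nilpotent pencils
-/

set_option autoImplicit false

open Module

namespace Pool.Agent.Helper84.T5

section

variable {K : Type} [Field K] {V : Type} [AddCommGroup V] [Module K V]

/-- three term relations between the members of a pencil -/
def Lin (ω : Fin 4 → Fin 4 → K) (A : Fin 4 → End K V) : Prop :=
  ∀ i j k, ω i j • A k = ω k j • A i + ω i k • A j

lemma sq_zero [FiniteDimensional K V] {S : End K V} (hS : IsNilpotent S) (h : finrank K V ≤ 2) :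
    S * S = 0 := by
  have h1 := hS.charpoly_eq_X_pow_finrank
  have h2 := LinearMap.aeval_self_charpoly S
  rw [h1, map_pow, Polynomial.aeval_X] at h2
  rw [← pow_two]
  exact pow_eq_zero_of_le h h2

/-- anticommuting operators of square zero have a common kernel -/
lemma common_ker_of_anti [Nontrivial V] {S T : End K V} (hS : S * S = 0) (hT : T * T = 0)
    (hST : S * T = - (T * S)) : ∃ v : V, v ≠ 0 ∧ S v = 0 ∧ T v = 0 := by
  obtain ⟨x, hx, hx'⟩ := exists_ker_of_nilpotent (T := S) ⟨2, by rw [pow_two, hS]⟩
  by_cases h : T x = 0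
  · exact ⟨x, hx, hx', h⟩
  · refine ⟨T x, h, ?_, ?_⟩
    · rw [← Module.End.mul_apply, hST, LinearMap.neg_apply, Module.End.mul_apply, hx', map_zero,
        neg_zero]
    · rw [← Module.End.mul_apply, hT, LinearMap.zero_apply]

/-- two nilpotent operators in dimension two with a nilpotent combination -/
lemma small [FiniteDimensional K V] [Nontrivial V] {S T : End K V}
    (hS : IsNilpotent S) (hT : IsNilpotent T) {s t : K} (hs : s ≠ 0) (ht : t ≠ 0)
    (hST : IsNilpotent (s • S + t • T)) (h : finrank K V ≤ 2) :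
    ∃ v : V, v ≠ 0 ∧ S v = 0 ∧ T v = 0 := by
  have hS2 := sq_zero hS h
  have hT2 := sq_zero hT h
  have h3 := sq_zero hST h
  refine common_ker_of_anti hS2 hT2 ?_
  have h4 : (s * t) • (S * T + T * S) = 0 := by
    rw [add_mul, mul_add, mul_add, smul_mul_smul_comm, smul_mul_smul_comm, smul_mul_smul_comm,
      smul_mul_smul_comm, hS2, hT2, smul_zero, smul_zero, zero_add, add_zero, mul_comm t s,
      ← smul_add] at h3
    exact h3
  exact eq_neg_of_add_eq_zero_left ((smul_eq_zero.1 h4).resolve_left (mul_ne_zero hs ht))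

/-- the eigenvalues satisfy the relations -/
lemma scal_rel [FiniteDimensional K V] {ω : Fin 4 → Fin 4 → K} {A : Fin 4 → End K V}
    (hA : Lin ω A) (hd : (finrank K V : K) ≠ 0) {c : Fin 4 → K}
    (hc : ∀ i, IsNilpotent (A i - c i • (1 : End K V))) :
    Lin ω (fun i => A i - c i • (1 : End K V)) := by
  have htr : ∀ i, LinearMap.trace K V (A i) = c i * finrank K V := by
    intro i
    have h1 := (LinearMap.isNilpotent_trace_of_isNilpotent (hc i)).eq_zero
    rw [map_sub, map_smul, LinearMap.trace_one, smul_eq_mul, sub_eq_zero] at h1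
    exact h1
  intro i j k
  have h1 := hA i j k
  have h2 : ω i j * c k = ω k j * c i + ω i k * c j := by
    have h3 := congrArg (LinearMap.trace K V) h1
    rw [map_smul, map_add, map_smul, map_smul, htr, htr, htr, smul_eq_mul, smul_eq_mul,
      smul_eq_mul] at h3
    have h4 : (ω i j * c k - (ω k j * c i + ω i k * c j)) * (finrank K V : K) = 0 := by
      linear_combination h3
    exact sub_eq_zero.1 ((mul_eq_zero.1 h4).resolve_right hd)
  simp only [smul_sub, smul_smul, h1, h2]
  module

/-- The factors of an irreducible pair of nilpotent families. -/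
theorem factor [FiniteDimensional K V] {ω : Fin 4 → Fin 4 → K}
    (hω : ∀ i j, i ≠ j → ω i j ≠ 0) {A B : Fin 4 → End K V} (h : Min A B (⊤ : Submodule K V))
    (hcomm : ∀ i j, A i * B j = B j * A i) (hA : ∀ i, IsNilpotent (A i))
    (hB : ∀ i, IsNilpotent (B i)) (hlin : Lin ω A) :
    (∀ i, A i = 0) ∨ ((∀ i, B i = 0) ∧ 3 ≤ finrank K V) ∨ 6 ≤ finrank K V := by
  have hnt := h.nontrivial
  obtain ⟨Y, -, hY⟩ := exists_min A A (⊤ : Submodule K V) (fun _ _ _ => Submodule.mem_top)
    (fun _ _ _ => Submodule.mem_top) top_ne_bot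
  have hYmin : ∀ W ≤ Y, Stab A W → W ≠ ⊥ → W = Y := fun W h1 h2 h3 => hY.min W h1 h2 h2 h3
  by_cases hdim : finrank K Y ≤ 2
  · left
    -- a common kernel vector
    have hYnt : Nontrivial Y := Submodule.nontrivial_iff_ne_bot.2 hY.ne
    have hres : ∀ i, IsNilpotent ((A i).restrict (hY.stabA i)) := by
      intro i
      obtain ⟨m, hm⟩ := hA i
      refine ⟨m, ?_⟩
      rw [Module.End.pow_restrict]
      ext x
      simp [hm]
    have hl : (ω 2 1 / ω 0 1) • (A 0).restrict (hY.stabA 0) +
        (ω 0 2 / ω 0 1) • (A 1).restrict (hY.stabA 1) = (A 2).restrict (hY.stabA 2) := by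
      ext x
      have h3 := LinearMap.congr_fun (hlin 0 1 2) (x : V)
      have h4 : ω 0 1 ≠ 0 := hω 0 1 (by decide)
      simp only [LinearMap.add_apply, LinearMap.smul_apply, LinearMap.coe_restrict_apply,
        Submodule.coe_add, Submodule.coe_smul] at h3 ⊢
      rw [div_eq_inv_mul, div_eq_inv_mul, mul_smul, mul_smul, ← smul_add, ← h3, inv_smul_smul₀ h4]
    obtain ⟨v, hv, hv0, hv1⟩ := small (V := Y) (hres 0) (hres 1)
      (s := ω 2 1 / ω 0 1) (t := ω 0 2 / ω 0 1)
      (div_ne_zero (hω _ _ (by decide)) (hω _ _ (by decide)))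
      (div_ne_zero (hω _ _ (by decide)) (hω _ _ (by decide))) (by rw [hl]; exact hres 2) hdim
    have hvA : ∀ i, A i (v : V) = 0 := by
      intro i
      have h3 := LinearMap.congr_fun (hlin 0 1 i) (v : V)
      have h4 : A 0 (v : V) = 0 := congrArg Subtype.val hv0
      have h5 : A 1 (v : V) = 0 := congrArg Subtype.val hv1
      rw [LinearMap.add_apply, LinearMap.smul_apply, LinearMap.smul_apply, LinearMap.smul_apply, h4,
        h5, smul_zero, smul_zero, add_zero] at h3
      exact (smul_eq_zero.1 h3).resolve_left (hω _ _ (by decide))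
    intro i
    ext y
    rw [LinearMap.zero_apply]
    have h6 := h.all (⨅ i, LinearMap.ker (A i)) ?_ ?_ (x := (v : V)) ?_ ?_ y
    · rw [Submodule.mem_iInf] at h6
      exact LinearMap.mem_ker.1 (h6 i)
    · intro j x hx
      rw [Submodule.mem_iInf] at hx
      rw [LinearMap.mem_ker.1 (hx j)]
      exact Submodule.zero_mem _
    · intro j x hx
      rw [Submodule.mem_iInf] at hx ⊢
      intro m
      rw [LinearMap.mem_ker, ← Module.End.mul_apply, hcomm, Module.End.mul_apply,
        LinearMap.mem_ker.1 (hx m), map_zero]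
    · rw [Submodule.mem_iInf]
      exact fun m => LinearMap.mem_ker.2 (hvA m)
    · exact fun h7 => hv (Subtype.ext h7)
  · right
    push Not at hdim
    by_cases hst : Stab B Y
    · left
      have hYtop : Y = ⊤ := h.min Y le_top hY.stabA hst hY.ne
      refine ⟨fun j => ?_, by rw [hYtop, finrank_top] at hdim; omega⟩
      obtain ⟨x, hx, hx'⟩ := exists_ker_of_nilpotent (hB j)
      have h3 := hYmin (LinearMap.ker (B j)) (by rw [hYtop]; exact le_top) ?_ ?_
      · ext y
        rw [LinearMap.zero_apply, ← LinearMap.mem_ker, h3, hYtop]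
        exact Submodule.mem_top
      · intro i z hz
        rw [LinearMap.mem_ker] at hz ⊢
        rw [← Module.End.mul_apply, ← hcomm, Module.End.mul_apply, hz, map_zero]
      · intro h4
        apply hx
        have h5 : x ∈ LinearMap.ker (B j) := LinearMap.mem_ker.2 hx'
        rwa [h4, Submodule.mem_bot] at h5
    · right
      unfold Stab at hst
      push Not at hst
      obtain ⟨j, y, hy, hy'⟩ := hst
      have hnle : ¬ Y.map (B j) ≤ Y := fun h3 => hy' (h3 ⟨y, hy, rfl⟩)
      have hst' : Stab A (Y.map (B j)) := by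
        rintro i _ ⟨x, hx, rfl⟩
        refine ⟨A i x, hY.stabA i x hx, ?_⟩
        rw [← Module.End.mul_apply, ← hcomm, Module.End.mul_apply]
      have hker : LinearMap.ker (B j) ⊓ Y = ⊥ := by
        by_contra hne
        have h3 := hYmin (LinearMap.ker (B j) ⊓ Y) inf_le_right ?_ hne
        · apply hnle
          rintro _ ⟨x, hx, rfl⟩
          have h4 : x ∈ LinearMap.ker (B j) ⊓ Y := by rw [h3]; exact hx
          rw [LinearMap.mem_ker.1 h4.1]
          exact Submodule.zero_mem _
        · intro i z hz
          refine ⟨?_, hY.stabA i z hz.2⟩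
          have hz1 := hz.1
          rw [SetLike.mem_coe, LinearMap.mem_ker] at hz1 ⊢
          rw [← Module.End.mul_apply, ← hcomm, Module.End.mul_apply, hz1, map_zero]
      have hfr : finrank K (Y.map (B j)) = finrank K Y := by
        have h3 : Function.Injective ((B j).domRestrict Y) := by
          rw [← LinearMap.ker_eq_bot, Submodule.eq_bot_iff]
          intro z hz
          rw [LinearMap.mem_ker, LinearMap.domRestrict_apply] at hz
          have h4 : (z : V) ∈ LinearMap.ker (B j) ⊓ Y := ⟨LinearMap.mem_ker.2 hz, z.2⟩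
          rw [hker, Submodule.mem_bot] at h4
          exact Subtype.ext h4
        have h4 := LinearMap.finrank_range_of_inj h3
        rwa [LinearMap.range_domRestrict] at h4
      have hinf : Y ⊓ Y.map (B j) = ⊥ := by
        by_contra hne
        have h3 := hYmin (Y ⊓ Y.map (B j)) inf_le_left
          (fun i z hz => ⟨hY.stabA i z hz.1, hst' i z hz.2⟩) hne
        have h4 : Y ≤ Y.map (B j) := h3.ge.trans inf_le_right
        apply hnle
        exact (Submodule.eq_of_le_of_finrank_eq h4 hfr.symm).ge
      have h3 := Submodule.finrank_sup_add_finrank_inf_eq Y (Y.map (B j))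
      rw [hinf, finrank_bot, add_zero, hfr] at h3
      have h4 := Submodule.finrank_le (Y ⊔ Y.map (B j))
      omega

/-- The factors of a minimal subspace. -/
theorem factor_min [IsAlgClosed K] [FiniteDimensional K V] {ω : Fin 4 → Fin 4 → K}
    (hω : ∀ i j, i ≠ j → ω i j ≠ 0) {A B : Fin 4 → End K V} {X : Submodule K V} (h : Min A B X)
    (hcomm : ∀ i j, A i * B j = B j * A i) (hnil : ∀ i, IsNilpotent (A i + B i)) (hlin : Lin ω A)
    (hd : (finrank K X : K) ≠ 0 ∨ finrank K X = 3 ∨ finrank K X = 5) :
    Sc A X ∨ (Sc B X ∧ 3 ≤ finrank K X) ∨ 6 ≤ finrank K X := by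
  have hr := h.restrict
  set A' : Fin 4 → End K X := fun i => (A i).restrict (h.stabA i) with hA'
  set B' : Fin 4 → End K X := fun i => (B i).restrict (h.stabB i) with hB'
  have hA'v : ∀ i (x : X), ((A' i x : X) : V) = A i x := fun i x => rfl
  have hB'v : ∀ i (x : X), ((B' i x : X) : V) = B i x := fun i x => rfl
  have hcomm' : ∀ i j, A' i * B' j = B' j * A' i := by
    intro i j
    ext x
    rw [Module.End.mul_apply, Module.End.mul_apply, hA'v, hB'v, hB'v, hA'v,
      ← Module.End.mul_apply, hcomm, Module.End.mul_apply]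
  have hnil' : ∀ i, IsNilpotent (A' i + B' i) := by
    intro i
    obtain ⟨m, hm⟩ := hnil i
    refine ⟨m, ?_⟩
    have h1 : ∀ (m : ℕ) (x : X), ((((A' i + B' i) ^ m) x : X) : V) = ((A i + B i) ^ m) x := by
      intro m
      induction m with
      | zero => intro x; rfl
      | succ m ih =>
        intro x
        rw [pow_succ, pow_succ, Module.End.mul_apply, Module.End.mul_apply, ih]
        rfl
    ext x
    rw [h1, hm]
    rfl
  have hlin' : Lin ω A' := by
    intro i j k
    ext x
    have h1 := LinearMap.congr_fun (hlin i j k) (x : V)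
    exact h1
  rcases hd with hd | hd
  swap
  · rcases scalar_of_small hr hcomm' hd with ⟨c, hc⟩ | ⟨c, hc⟩
    · left
      refine ⟨c, fun i x hx => ?_⟩
      exact congrArg Subtype.val (hc i ⟨x, hx⟩ Submodule.mem_top)
    · right
      left
      refine ⟨⟨c, fun i x hx => ?_⟩, by omega⟩
      exact congrArg Subtype.val (hc i ⟨x, hx⟩ Submodule.mem_top)
  choose c hcA hcB using fun i => exists_scalars hr hcomm' hnil' i
  have hlin0 := scal_rel hlin' hd hcA
  have hr0 : Min (fun i => A' i - c i • (1 : End K X)) (fun i => B' i + c i • (1 : End K X))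
      (⊤ : Submodule K X) := by
    refine ⟨fun _ _ _ => Submodule.mem_top, fun _ _ _ => Submodule.mem_top, hr.ne,
      fun W hW h1 h2 h3 => hr.min W hW ?_ ?_ h3⟩
    · intro i x hx
      have h4 := W.add_mem (h1 i x hx) (W.smul_mem (c i) hx)
      simpa using h4
    · intro i x hx
      have h4 := W.sub_mem (h2 i x hx) (W.smul_mem (c i) hx)
      simpa using h4
  have hcomm0 : ∀ i j, (A' i - c i • (1 : End K X)) * (B' j + c j • (1 : End K X)) =
      (B' j + c j • (1 : End K X)) * (A' i - c i • (1 : End K X)) := by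
    intro i j
    have h1 : Commute (A' i) (B' j) := hcomm' i j
    exact (h1.add_right ((Commute.one_right _).smul_right (c j))).sub_left
      ((Commute.one_left _).smul_left (c i))
  rcases factor hω hr0 hcomm0 hcA hcB hlin0 with h1 | ⟨h1, h2⟩ | h1
  · left
    refine ⟨c, fun i x hx => ?_⟩
    have h3 := LinearMap.congr_fun (h1 i) ⟨x, hx⟩
    have h4 := congrArg Subtype.val h3
    exact sub_eq_zero.1 h4
  · right
    left
    refine ⟨⟨fun i => - c i, fun i x hx => ?_⟩, h2⟩
    have h3 := LinearMap.congr_fun (h1 i) ⟨x, hx⟩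
    have h4 := congrArg Subtype.val h3
    rw [neg_smul]
    exact eq_neg_of_add_eq_zero_left h4
  · exact Or.inr (Or.inr h1)

end

end Pool.Agent.Helper84.T5
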