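import Pool.Agent.Helper84.T5.Hom

/-!
# One inhomogeneous relation
-/

set_option autoImplicit false

open Module

namespace Pool.Agent.Helper84.T5

section

variable {K : Type} [Field K] {V : Type} [AddCommGroup V] [Module K V] [FiniteDimensional K V]

/-- the set of eigenvalues is not stable under a translation -/
lemma exists_gap [IsAlgClosed K] [Nontrivial V] (p : ℕ) [Fact p.Prime] [CharP K p] (T : End K V)
    (hdim : finrank K V < p) {a : K} (ha : a ≠ 0) :
    ∃ μ, T.HasEigenvalue μ ∧ ¬ T.HasEigenvalue (μ + a) := by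
  by_contra hcon
  push Not at hcon
  obtain ⟨c, hc⟩ := Module.End.exists_eigenvalue T
  have h1 : ∀ j : ℕ, T.HasEigenvalue (c + j * a) := by
    intro j
    induction j with
    | zero => simpa using hc
    | succ j ih =>
      have := hcon _ ih
      have h2 : c + (j : K) * a + a = c + ((j + 1 : ℕ) : K) * a := by push_cast; ring
      rwa [h2] at this
  choose v hv using fun j => (h1 j).exists_hasEigenvector
  have h2 : LinearIndependent K (fun j : Fin p => v j) := by
    refine Module.End.eigenvectors_linearIndependent' T (fun j : Fin p => c + ((j : ℕ) : K) * a) ?_ _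
      fun j => hv j
    intro i j hij
    have h3 : ((i : ℕ) : K) = ((j : ℕ) : K) := by
      have h4 : (((i : ℕ) : K) - ((j : ℕ) : K)) * a = 0 := by
        have h5 : c + ((i : ℕ) : K) * a = c + ((j : ℕ) : K) * a := hij
        linear_combination h5
      exact sub_eq_zero.1 ((mul_eq_zero.1 h4).resolve_right ha)
    rw [CharP.natCast_eq_natCast K p] at h3
    exact Fin.ext (Nat.ModEq.eq_of_lt_of_lt h3 i.2 j.2)
  have h3 := h2.fintype_card_le_finrank
  rw [Fintype.card_fin] at h3
  omega

/-- an eigenvalue of `- q` is an eigenvalue of `p` -/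
lemma transfer {p q : End K V} {a : K} (ha : a ≠ 0) (hpq : p * q - q * p = a • (p + q))
    (hnil : IsNilpotent (p + q)) {μ : K} {z : V} (hz : z ≠ 0) (hqz : q z = (-μ) • z) :
    p.HasEigenvalue μ := by
  set e := p + q with he
  have hqe : ∀ x, q (e x) = e (q x) - a • e x := by
    intro x
    have h1 : q * e = e * q - a • e := by
      rw [← hpq, he, mul_add, add_mul]
      abel
    have h2 := LinearMap.congr_fun h1 x
    simpa using h2
  have hq : ∀ j : ℕ, q ((e ^ j) z) = (- (μ + j * a)) • (e ^ j) z := by
    intro j
    induction j with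
    | zero => simpa using hqz
    | succ j ih =>
      rw [pow_succ', Module.End.mul_apply, hqe, ih, map_smul, ← sub_smul]
      congr 1
      push_cast
      ring
  have hp : ∀ j : ℕ, p ((e ^ j) z) = (e ^ (j + 1)) z + (μ + j * a) • (e ^ j) z := by
    intro j
    have h1 : p ((e ^ j) z) = e ((e ^ j) z) - q ((e ^ j) z) := by
      rw [he, LinearMap.add_apply]
      abel
    rw [h1, hq, pow_succ', Module.End.mul_apply, neg_smul, sub_neg_eq_add]
  -- the cyclic subspace
  set Z : Submodule K V := Submodule.span K (Set.range fun j : ℕ => (e ^ j) z) with hZ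
  have hzZ : z ∈ Z := Submodule.subset_span ⟨0, by simp⟩
  have heZ : ∀ x ∈ Z, e x ∈ Z := by
    intro x hx
    refine Submodule.span_induction (p := fun x _ => e x ∈ Z) ?_ ?_ ?_ ?_ hx
    · rintro _ ⟨j, rfl⟩
      exact Submodule.subset_span ⟨j + 1, by simp [pow_succ']⟩
    · rw [map_zero]
      exact Z.zero_mem
    · intro x y _ _ hx hy
      rw [map_add]
      exact Z.add_mem hx hy
    · intro c x _ hx
      rw [map_smul]
      exact Z.smul_mem c hx
  have hmap : ∀ x ∈ Z, p x - μ • x ∈ Z.map e := by
    intro x hx
    refine Submodule.span_induction (p := fun x _ => p x - μ • x ∈ Z.map e) ?_ ?_ ?_ ?_ hx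
    · rintro _ ⟨j, rfl⟩
      simp only
      have h1 : p ((e ^ j) z) - μ • (e ^ j) z = (e ^ (j + 1)) z + ((j : K) * a) • (e ^ j) z := by
        rw [hp, add_smul]; abel
      rw [h1]
      refine Submodule.add_mem _ ⟨(e ^ j) z, Submodule.subset_span ⟨j, rfl⟩, ?_⟩ ?_
      · rw [pow_succ', Module.End.mul_apply]
      · cases j with
        | zero =>
          rw [Nat.cast_zero, zero_mul, zero_smul]
          exact Submodule.zero_mem _
        | succ j =>
          refine Submodule.smul_mem _ _ ⟨(e ^ j) z, Submodule.subset_span ⟨j, rfl⟩, ?_⟩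
          rw [pow_succ', Module.End.mul_apply]
    · rw [map_zero, smul_zero, sub_zero]
      exact Submodule.zero_mem _
    · intro x y _ _ hx hy
      have h1 : p (x + y) - μ • (x + y) = (p x - μ • x) + (p y - μ • y) := by
        rw [map_add, smul_add]; abel
      rw [h1]
      exact Submodule.add_mem _ hx hy
    · intro c x _ hx
      have h1 : p (c • x) - μ • (c • x) = c • (p x - μ • x) := by
        rw [map_smul, smul_sub, smul_comm]
      rw [h1]
      exact Submodule.smul_mem _ c hx
  by_contra hno
  -- dimension count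
  have hinj : Function.Injective ((p - μ • (1 : End K V)).domRestrict Z) := by
    rw [← LinearMap.ker_eq_bot, Submodule.eq_bot_iff]
    intro x hx
    by_contra hx0
    rw [LinearMap.mem_ker, LinearMap.domRestrict_apply] at hx
    apply hno
    refine Module.End.hasEigenvalue_of_hasEigenvector (x := (x : V)) ⟨?_, ?_⟩
    · rw [Module.End.mem_eigenspace_iff]
      have h1 : p (x : V) - μ • (x : V) = 0 := by simpa using hx
      exact sub_eq_zero.1 h1
    · exact fun h => hx0 (Subtype.ext h)
  have h1 := LinearMap.finrank_range_of_inj hinj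
  rw [LinearMap.range_domRestrict] at h1
  have h2 : Z.map (p - μ • (1 : End K V)) ≤ Z.map e := by
    rintro _ ⟨x, hx, rfl⟩
    have := hmap x hx
    simpa using this
  have h3 := Submodule.finrank_mono h2
  have h4 : finrank K (Z.map e) < finrank K Z := by
    have h5 := LinearMap.finrank_range_add_finrank_ker (e.domRestrict Z)
    rw [LinearMap.range_domRestrict] at h5
    have h6 : 0 < finrank K (LinearMap.ker (e.domRestrict Z)) := by
      have hZnt : Nontrivial Z := ⟨⟨z, hzZ⟩, 0, fun h => hz (congrArg Subtype.val h)⟩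
      have hnil' : IsNilpotent (e.restrict heZ) := by
        obtain ⟨m, hm⟩ := hnil
        refine ⟨m, ?_⟩
        rw [Module.End.pow_restrict]
        ext x
        simp [hm]
      obtain ⟨x, hx, hx'⟩ := exists_ker_of_nilpotent hnil'
      have hx'' : x ∈ LinearMap.ker (e.domRestrict Z) := by
        rw [LinearMap.mem_ker, LinearMap.domRestrict_apply]
        exact congrArg Subtype.val hx'
      have : Nontrivial (LinearMap.ker (e.domRestrict Z)) :=
        ⟨⟨x, hx''⟩, 0, fun h => hx (congrArg Subtype.val h)⟩
      exact finrank_pos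
    omega
  omega

/-- The first operator vanishes. -/
theorem Min.first [IsAlgClosed K] (p : ℕ) [Fact p.Prime] [CharP K p] {A B : Fin 4 → End K V}
    (h : Min A B (⊤ : Submodule K V)) {η : Fin 4 → Fin 4 → K}
    (hcomm : ∀ i j, A i * B j - B j * A i = η i j • (A 0 + B 0)) (h00 : η 0 0 ≠ 0)
    (hnil : IsNilpotent (A 0 + B 0)) (hdim : finrank K V < p) : A 0 + B 0 = 0 := by
  have hnt := h.nontrivial
  set e := A 0 + B 0 with he
  have hcx : ∀ i j x, A i (B j x) = B j (A i x) + η i j • e x := by
    intro i j x
    have h1 := LinearMap.congr_fun (hcomm i j) x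
    simp only [LinearMap.sub_apply, Module.End.mul_apply, LinearMap.smul_apply] at h1
    rw [← h1]
    abel
  obtain ⟨c, hc, hc'⟩ := exists_gap p (A 0) hdim h00
  -- the eigenspace is killed by the sum
  have hAe : ∀ x, A 0 (e x) = e (A 0 x) + η 0 0 • e x := by
    intro x
    rw [he, LinearMap.add_apply, LinearMap.add_apply, map_add, hcx 0 0 x]
    rw [he, LinearMap.add_apply]
    abel
  have hBe : ∀ x, B 0 (e x) = e (B 0 x) - η 0 0 • e x := by
    intro x
    rw [he, LinearMap.add_apply, LinearMap.add_apply, map_add, hcx 0 0 x]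
    rw [he, LinearMap.add_apply]
    abel
  have hkill : ∀ x, A 0 x = c • x → e x = 0 := by
    intro x hx
    by_contra h1
    apply hc'
    refine Module.End.hasEigenvalue_of_hasEigenvector (x := e x) ⟨?_, h1⟩
    rw [Module.End.mem_eigenspace_iff, hAe, hx, map_smul, add_smul]
  have hkill' : ∀ x, B 0 x = (-c) • x → e x = 0 := by
    intro x hx
    by_contra h1
    apply hc'
    refine transfer h00 (hcomm 0 0) hnil h1 ?_
    rw [hBe, hx, map_smul, ← sub_smul]
    congr 1
    ring
  have hiff : ∀ x, A 0 x = c • x ↔ B 0 x = (-c) • x := by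
    intro x
    constructor
    · intro hx
      have h1 := hkill x hx
      rw [he, LinearMap.add_apply, hx] at h1
      rw [neg_smul]
      exact eq_neg_of_add_eq_zero_right h1
    · intro hx
      have h1 := hkill' x hx
      rw [he, LinearMap.add_apply, hx, neg_smul] at h1
      have h2 := eq_neg_of_add_eq_zero_left h1
      rwa [neg_neg] at h2
  obtain ⟨x, hx⟩ := hc.exists_hasEigenvector
  have hall := h.all ((A 0).eigenspace c) ?_ ?_ hx.1 hx.2
  · ext y
    exact hkill y (Module.End.mem_eigenspace_iff.1 (hall y))
  · intro i y hy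
    rw [Module.End.mem_eigenspace_iff] at hy ⊢
    rw [hiff]
    have h1 := hcx i 0 y
    rw [hkill y hy, smul_zero, add_zero, (hiff y).1 hy, map_smul] at h1
    exact h1.symm
  · intro j y hy
    rw [Module.End.mem_eigenspace_iff] at hy ⊢
    rw [hcx, hkill y hy, smul_zero, add_zero, hy, map_smul]

end

end Pool.Agent.Helper84.T5
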