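import Pool.Agent.Helper84.T5.Hom

/-!
# The homogeneous case with two operators of square zero
-/

set_option autoImplicit false

open Module

namespace Pool.Agent.Helper84.T5

section

variable {K : Type} [Field K] {V : Type} [AddCommGroup V] [Module K V]

lemma commute_prod {ι : Type} {A : ι → End K V} {T : End K V} (h : ∀ i, T * A i = A i * T)
    (l : List ι) : T * (l.map A).prod = (l.map A).prod * T := by
  induction l with
  | nil => simp
  | cons i l ih => rw [List.map_cons, List.prod_cons, ← mul_assoc, h, mul_assoc, ih, mul_assoc]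

/-- products of operators from the two sides -/
lemma Min.mul_eq_zero {ι : Type} {A B : ι → End K V} (h : Min A B (⊤ : Submodule K V))
    (hcomm : ∀ i j, A i * B j = B j * A i) {S T : End K V} (hSB : ∀ j, S * B j = B j * S)
    (hTA : ∀ j, T * A j = A j * T) (hST : S * T = 0) : S = 0 ∨ T = 0 := by
  by_cases hT : T = 0
  · exact Or.inr hT
  left
  obtain ⟨y, hy⟩ : ∃ y, T y ≠ 0 := by
    by_contra hcon
    push Not at hcon
    exact hT (LinearMap.ext hcon)
  have hall := h.all (⨅ l : List ι, LinearMap.ker (S * (l.map A).prod)) ?_ ?_ (x := T y) ?_ hy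
  · ext x
    have h1 := hall x
    rw [Submodule.mem_iInf] at h1
    simpa using h1 []
  · intro i x hx
    rw [Submodule.mem_iInf] at hx ⊢
    intro l
    have h1 := LinearMap.mem_ker.1 (hx (l ++ [i]))
    rw [LinearMap.mem_ker]
    rw [List.map_append, List.prod_append] at h1
    simpa [Module.End.mul_apply] using h1
  · intro j x hx
    rw [Submodule.mem_iInf] at hx ⊢
    intro l
    have h1 := LinearMap.mem_ker.1 (hx l)
    rw [LinearMap.mem_ker]
    have h2 : S * (l.map A).prod * B j = B j * (S * (l.map A).prod) := by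
      rw [mul_assoc, ← commute_prod (fun i => (hcomm i j).symm) l, ← mul_assoc, hSB, mul_assoc]
    rw [← Module.End.mul_apply, h2, Module.End.mul_apply, h1, map_zero]
  · rw [Submodule.mem_iInf]
    intro l
    rw [LinearMap.mem_ker, ← Module.End.mul_apply, mul_assoc, ← commute_prod hTA, ← mul_assoc, hST,
      zero_mul, LinearMap.zero_apply]

/-- one of the two parts of an operator of square zero vanishes -/
lemma Min.zero_or {A B : Fin 4 → End K V} (h : Min A B (⊤ : Submodule K V)) (h2 : (2 : K) ≠ 0)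
    (hcomm : ∀ i j, A i * B j = B j * A i) (hA : ∀ i, IsNilpotent (A i))
    (hB : ∀ i, IsNilpotent (B i)) (a : Fin 4) (ha : (A a + B a) * (A a + B a) = 0) :
    A a = 0 ∨ B a = 0 := by
  by_contra hcon
  push Not at hcon
  obtain ⟨hA0, hB0⟩ := hcon
  -- the last nonzero powers
  have hlast : ∀ T : End K V, IsNilpotent T → T ≠ 0 → ∃ m : ℕ, T ^ (m + 1) ≠ 0 ∧
      T ^ (m + 2) = 0 := by
    intro T hT hT0
    classical
    have hex : ∃ m, T ^ m = 0 := hT
    have h1 := Nat.find_spec hex
    have h3 : Nat.find hex ≠ 0 := by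
      intro h4
      rw [h4, pow_zero] at h1
      apply hT0
      rw [← one_mul T, h1, zero_mul]
    have h5 : Nat.find hex ≠ 1 := by
      intro h4
      rw [h4, pow_one] at h1
      exact hT0 h1
    obtain ⟨m, hm⟩ : ∃ m, Nat.find hex = m + 2 := ⟨Nat.find hex - 2, by omega⟩
    refine ⟨m, ?_, by rw [← hm]; exact h1⟩
    exact Nat.find_min hex (by omega)
  obtain ⟨m, hm, hm'⟩ := hlast _ (hA a) hA0
  obtain ⟨k, hk, hk'⟩ := hlast _ (hB a) hB0
  have hc : Commute (A a) (B a) := hcomm a a
  have h3 : A a ^ (m + 1) * B a ^ (k + 1) = 0 := by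
    have h4 : A a ^ m * ((A a + B a) * (A a + B a)) * B a ^ k =
        A a ^ (m + 2) * B a ^ k + (2 : K) • (A a ^ (m + 1) * B a ^ (k + 1)) +
          A a ^ m * B a ^ (k + 2) := by
      have h5 : (A a + B a) * (A a + B a) = A a ^ 2 + (2 : K) • (A a * B a) + B a ^ 2 := by
        rw [add_mul, mul_add, mul_add, ← hc.eq, two_smul, pow_two, pow_two]
        abel
      rw [h5, mul_add, mul_add, add_mul, add_mul, ← pow_add, mul_smul_comm, smul_mul_assoc,
        mul_assoc (A a ^ m) (B a ^ 2), ← pow_add, add_comm 2 k, ← mul_assoc, ← pow_succ, mul_assoc,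
        ← pow_succ']
    rw [ha, mul_zero, zero_mul, hm', hk', zero_mul, mul_zero, zero_add, add_zero] at h4
    exact (smul_eq_zero.1 h4.symm).resolve_left h2
  rcases h.mul_eq_zero hcomm (fun j => ((show Commute (A a) (B j) from hcomm a j).pow_left _).eq)
    (fun j => ((show Commute (A j) (B a) from hcomm j a).pow_right _).symm.eq) h3 with h4 | h4
  · exact hm h4
  · exact hk h4

/-- vanishing of one side implies vanishing of the other side -/
lemma Min.other {ω : Fin 4 → Fin 4 → K} (hω : ∀ i j, i ≠ j → ω i j ≠ 0) {A B : Fin 4 → End K V}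
    (h : Min A B (⊤ : Submodule K V)) (hB : ∀ i, IsNilpotent (B i)) (hlin : Lin ω B)
    (hA : ∀ i, A i = 0) {a b : Fin 4} (hab : a ≠ b) (ha : B a * B a = 0) (hb : B b * B b = 0) :
    ∀ i, B i = 0 := by
  have hnt := h.nontrivial
  obtain ⟨k, hka, hkb⟩ : ∃ k : Fin 4, k ≠ a ∧ k ≠ b := by
    have h1 : ∀ a b : Fin 4, ∃ k : Fin 4, k ≠ a ∧ k ≠ b := by decide
    exact h1 a b
  have hω' := hω a b hab
  have hBi : ∀ i, B i = (ω a b)⁻¹ • (ω i b • B a + ω a i • B b) := by
    intro i
    rw [← hlin a b i, inv_smul_smul₀ hω']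
  have hD : B a * B b + B b * B a = 0 := by
    refine h.eq_zero ?_ ?_ ?_
    · have h1 : (ω k b * ω a k) • (B a * B b + B b * B a) = (ω a b * ω a b) • (B k * B k) := by
        rw [← smul_mul_smul_comm, hlin a b k, add_mul, mul_add, mul_add, smul_mul_smul_comm,
          smul_mul_smul_comm, smul_mul_smul_comm, smul_mul_smul_comm, ha, hb, smul_zero, smul_zero,
          zero_add, add_zero, mul_comm (ω a k), ← smul_add]
      have h2 : B a * B b + B b * B a =
          ((ω k b * ω a k)⁻¹ * (ω a b * ω a b)) • (B k * B k) := by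
        rw [mul_smul, ← h1, inv_smul_smul₀ (mul_ne_zero (hω _ _ hkb) (hω _ _ hka.symm))]
      rw [h2]
      obtain ⟨m, hm⟩ := hB k
      exact ⟨m, by rw [smul_pow, (Commute.refl (B k)).mul_pow, hm, mul_zero, smul_zero]⟩
    · intro i
      rw [hA, mul_zero, zero_mul]
    · intro i
      have h1 : (B a * B b + B b * B a) * B a = B a * (B a * B b + B b * B a) := by
        rw [add_mul, mul_add, mul_assoc (B b), ha, mul_zero, add_zero, ← mul_assoc (B a) (B a), ha,
          zero_mul, zero_add, mul_assoc]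
      have h2 : (B a * B b + B b * B a) * B b = B b * (B a * B b + B b * B a) := by
        rw [add_mul, mul_add, mul_assoc (B a), hb, mul_zero, zero_add, ← mul_assoc (B b) (B b), hb,
          zero_mul, add_zero, mul_assoc]
      have h3 : Commute (B a * B b + B b * B a) (B i) := by
        rw [hBi i]
        exact (((show Commute _ _ from h1).smul_right _).add_right
          ((show Commute _ _ from h2).smul_right _)).smul_right _
      exact h3.eq
  obtain ⟨v, hv, hva, hvb⟩ := common_ker_of_anti ha hb (eq_neg_of_add_eq_zero_left hD)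
  have hvi : ∀ i, B i v = 0 := by
    intro i
    rw [hBi, LinearMap.smul_apply, LinearMap.add_apply, LinearMap.smul_apply, LinearMap.smul_apply,
      hva, hvb, smul_zero, smul_zero, add_zero, smul_zero]
  intro i
  ext y
  rw [LinearMap.zero_apply]
  have h6 := h.all (⨅ i, LinearMap.ker (B i)) ?_ ?_ (x := v) ?_ hv y
  · rw [Submodule.mem_iInf] at h6
    exact LinearMap.mem_ker.1 (h6 i)
  · intro j x hx
    rw [hA, LinearMap.zero_apply]
    exact Submodule.zero_mem _
  · intro j x hx
    rw [Submodule.mem_iInf] at hx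
    rw [LinearMap.mem_ker.1 (hx j)]
    exact Submodule.zero_mem _
  · rw [Submodule.mem_iInf]
    exact fun m => LinearMap.mem_ker.2 (hvi m)

/-- vanishing of one member implies vanishing of the side -/
lemma Min.side {ω : Fin 4 → Fin 4 → K} (hω : ∀ i j, i ≠ j → ω i j ≠ 0) {A B : Fin 4 → End K V}
    (h : Min A B (⊤ : Submodule K V)) (hcomm : ∀ i j, A i * B j = B j * A i)
    (hA : ∀ i, IsNilpotent (A i)) (hlin : Lin ω A) {a : Fin 4} (ha : A a = 0) : ∀ i, A i = 0 := by
  obtain ⟨b, hb⟩ : ∃ b : Fin 4, a ≠ b := by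
    have h1 : ∀ a : Fin 4, ∃ k : Fin 4, a ≠ k := by decide
    exact h1 a
  have hAi : ∀ i, A i = ((ω a b)⁻¹ * ω a i) • A b := by
    intro i
    have h1 := hlin a b i
    rw [ha, smul_zero, zero_add] at h1
    rw [mul_smul, ← h1, inv_smul_smul₀ (hω a b hb)]
  have hb0 : A b = 0 := by
    refine h.eq_zero (hA b) ?_ fun i => hcomm b i
    intro i
    rw [hAi i, mul_smul_comm, smul_mul_assoc]
  intro i
  rw [hAi, hb0, smul_zero]

/-- Two operators of square zero. -/
theorem Min.sq_irr {ω ω' : Fin 4 → Fin 4 → K} (hω : ∀ i j, i ≠ j → ω i j ≠ 0)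
    (hω' : ∀ i j, i ≠ j → ω' i j ≠ 0) {A B : Fin 4 → End K V}
    (h : Min A B (⊤ : Submodule K V)) (h2 : (2 : K) ≠ 0) (hcomm : ∀ i j, A i * B j = B j * A i)
    (hA : ∀ i, IsNilpotent (A i)) (hB : ∀ i, IsNilpotent (B i)) (hlin : Lin ω A)
    (hlin' : Lin ω' B) {a b : Fin 4} (hab : a ≠ b) (ha : (A a + B a) * (A a + B a) = 0)
    (hb : (A b + B b) * (A b + B b) = 0) : (∀ i, A i = 0) ∧ ∀ i, B i = 0 := by
  by_cases h0 : ∀ i, A i = 0
  · refine ⟨h0, h.other hω' hB hlin' h0 hab ?_ ?_⟩
    · rwa [h0, zero_add] at ha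
    · rwa [h0, zero_add] at hb
  · have hAa : ∀ i, A i ≠ 0 := fun i hi => h0 (h.side hω hcomm hA hlin hi)
    have h1 : ∀ i, B i = 0 := h.symm.side hω' (fun i j => (hcomm j i).symm) hB hlin'
      ((h.zero_or h2 hcomm hA hB a ha).resolve_left (hAa a))
    refine absurd (h.symm.other hω hA hlin h1 hab ?_ ?_) h0
    · rwa [h1, add_zero] at ha
    · rwa [h1, add_zero] at hb

/-- one scalar member makes the side scalar -/
lemma Min.scal_side {ω : Fin 4 → Fin 4 → K} (hω : ∀ i j, i ≠ j → ω i j ≠ 0)
    {A B : Fin 4 → End K V} (h : Min A B (⊤ : Submodule K V))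
    (hcomm : ∀ i j, A i * B j = B j * A i) {c : Fin 4 → K}
    (hA : ∀ i, IsNilpotent (A i - c i • (1 : End K V))) (hlin : Lin ω A) {a : Fin 4}
    (ha : A a = c a • (1 : End K V)) : ∀ i, ∃ c : K, A i = c • (1 : End K V) := by
  obtain ⟨b, hb⟩ : ∃ b : Fin 4, a ≠ b := by
    have h1 : ∀ a : Fin 4, ∃ k : Fin 4, a ≠ k := by decide
    exact h1 a
  have hAi : ∀ i, A i = (ω a b)⁻¹ • (ω i b • A a + ω a i • A b) := by
    intro i
    rw [← hlin a b i, inv_smul_smul₀ (hω a b hb)]
  have hb0 : A b - c b • (1 : End K V) = 0 := by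
    refine h.eq_zero (hA b) ?_ fun i => ?_
    · intro i
      have h1 : Commute (A b - c b • (1 : End K V)) (A i) := by
        rw [hAi i, ha]
        refine Commute.smul_right (Commute.add_right ?_ ?_) _
        · exact ((Commute.one_right _).smul_right _).smul_right _
        · exact (Commute.sub_left (Commute.refl _)
            ((Commute.one_left _).smul_left _)).smul_right _
      exact h1.eq
    · have h1 : Commute (A b - c b • (1 : End K V)) (B i) :=
        Commute.sub_left (hcomm b i) ((Commute.one_left _).smul_left _)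
      exact h1.eq
  have hb1 : A b = c b • (1 : End K V) := sub_eq_zero.1 hb0
  intro i
  refine ⟨(ω a b)⁻¹ * (ω i b * c a + ω a i * c b), ?_⟩
  rw [hAi, ha, hb1]
  module

lemma comm_left {R : Type} [Ring R] {S T : R} (hS : S * S = 0) : Commute (S * T + T * S) S := by
  change (S * T + T * S) * S = S * (S * T + T * S)
  rw [add_mul, mul_add, mul_assoc T, hS, mul_zero, add_zero, ← mul_assoc S S, hS, zero_mul,
    zero_add, mul_assoc]

lemma comm_right {R : Type} [Ring R] {S T : R} (hT : T * T = 0) :
    Commute (S * T + T * S) T := by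
  rw [add_comm]
  exact comm_left hT

/-- the dimension is at most two -/
lemma Min.le_two [IsAlgClosed K] [FiniteDimensional K V] {ω : Fin 4 → Fin 4 → K}
    (hω : ∀ i j, i ≠ j → ω i j ≠ 0) {A B : Fin 4 → End K V}
    (h : Min A B (⊤ : Submodule K V)) (hA : ∀ i, ∃ c : K, A i = c • (1 : End K V))
    (hlin : Lin ω B) {a b : Fin 4} (hab : a ≠ b) (ha : (A a + B a) * (A a + B a) = 0)
    (hb : (A b + B b) * (A b + B b) = 0) : finrank K V ≤ 2 := by
  have hnt := h.nontrivial
  choose c hc using hA
  have hBi : ∀ i, B i = (ω a b)⁻¹ • (ω i b • B a + ω a i • B b) := by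
    intro i
    rw [← hlin a b i, inv_smul_smul₀ (hω a b hab)]
  set S := A a + B a with hS
  set T := A b + B b with hT
  have hBa : B a = S - c a • (1 : End K V) := by rw [hS, hc]; abel
  have hBb : B b = T - c b • (1 : End K V) := by rw [hT, hc]; abel
  -- the central element
  have hZS : Commute (S * T + T * S) S := comm_left ha
  have hZT : Commute (S * T + T * S) T := comm_right hb
  have hZB : ∀ i, Commute (S * T + T * S) (B i) := by
    intro i
    rw [hBi i, hBa, hBb]
    refine Commute.smul_right (Commute.add_right ?_ ?_) _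
    · exact (hZS.sub_right ((Commute.one_right _).smul_right _)).smul_right _
    · exact (hZT.sub_right ((Commute.one_right _).smul_right _)).smul_right _
  obtain ⟨ζ, hζ⟩ := Module.End.exists_eigenvalue (S * T + T * S)
  obtain ⟨x, hx⟩ := hζ.exists_hasEigenvector
  have hZ : ∀ y, (S * T + T * S) y = ζ • y := by
    intro y
    have h1 := h.all (Module.End.eigenspace (S * T + T * S) ζ) ?_ ?_ (x := x) hx.1 hx.2 y
    · exact Module.End.mem_eigenspace_iff.1 h1
    · intro i z hz
      rw [hc, LinearMap.smul_apply, Module.End.one_apply]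
      exact Submodule.smul_mem _ _ hz
    · intro i z hz
      rw [Module.End.mem_eigenspace_iff] at hz ⊢
      rw [← Module.End.mul_apply, (hZB i).eq, Module.End.mul_apply, hz, map_smul]
  obtain ⟨v, hv, hv'⟩ := exists_ker_of_nilpotent (T := S) ⟨2, by rw [pow_two, ha]⟩
  have hSTv : S (T v) = ζ • v := by
    have h1 := hZ v
    rw [LinearMap.add_apply, Module.End.mul_apply, Module.End.mul_apply, hv', map_zero,
      add_zero] at h1
    exact h1
  have hTTv : T (T v) = 0 := by rw [← Module.End.mul_apply, hb, LinearMap.zero_apply]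
  let W : Submodule K V := Submodule.span K {v, T v}
  have hvW : v ∈ W := Submodule.subset_span (Set.mem_insert _ _)
  have hTvW : T v ∈ W := Submodule.subset_span (Set.mem_insert_of_mem _ rfl)
  have hWS : ∀ x ∈ W, S x ∈ W := by
    intro x hx
    obtain ⟨r, s, rfl⟩ := Submodule.mem_span_pair.1 hx
    rw [map_add, map_smul, map_smul, hv', hSTv, smul_zero, zero_add]
    exact W.smul_mem _ (W.smul_mem _ hvW)
  have hWT : ∀ x ∈ W, T x ∈ W := by
    intro x hx
    obtain ⟨r, s, rfl⟩ := Submodule.mem_span_pair.1 hx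
    rw [map_add, map_smul, map_smul, hTTv, smul_zero, add_zero]
    exact W.smul_mem _ hTvW
  have hWtop : W = ⊤ := by
    refine h.min W le_top ?_ ?_ ?_
    · intro i x hx
      rw [hc, LinearMap.smul_apply, Module.End.one_apply]
      exact W.smul_mem _ hx
    · intro i x hx
      rw [hBi i, hBa, hBb]
      simp only [LinearMap.smul_apply, LinearMap.add_apply, LinearMap.sub_apply,
        Module.End.one_apply]
      refine W.smul_mem _ (W.add_mem (W.smul_mem _ (W.sub_mem (hWS x hx) (W.smul_mem _ hx)))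
        (W.smul_mem _ (W.sub_mem (hWT x hx) (W.smul_mem _ hx))))
    · intro h0
      apply hv
      rwa [h0, Submodule.mem_bot] at hvW
  have h1 : finrank K W ≤ 2 := by
    classical
    have h2 := finrank_span_finset_le_card (R := K) ({v, T v} : Finset V)
    have h3 : ((({v, T v} : Finset V) : Set V)) = {v, T v} := by simp
    rw [Set.finrank, h3] at h2
    exact h2.trans Finset.card_le_two
  rwa [hWtop, finrank_top] at h1

/-- A common kernel vector, if two of the operators have square zero. -/
theorem common_ker_sq [IsAlgClosed K] [FiniteDimensional K V] [Nontrivial V]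
    {ω ω' : Fin 4 → Fin 4 → K} (hω : ∀ i j, i ≠ j → ω i j ≠ 0)
    (hω' : ∀ i j, i ≠ j → ω' i j ≠ 0) (h2 : (2 : K) ≠ 0) {A B : Fin 4 → End K V}
    (hcomm : ∀ i j, A i * B j = B j * A i) (hnil : ∀ i, IsNilpotent (A i + B i))
    (hlin : Lin ω A) (hlin' : Lin ω' B) {a b : Fin 4} (hab : a ≠ b)
    (ha : (A a + B a) * (A a + B a) = 0) (hb : (A b + B b) * (A b + B b) = 0) :
    ∃ x : V, x ≠ 0 ∧ ∀ i, (A i + B i) x = 0 := by
  obtain ⟨X, -, h⟩ := exists_min A B (⊤ : Submodule K V) (fun _ _ _ => Submodule.mem_top)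
    (fun _ _ _ => Submodule.mem_top) top_ne_bot
  have hXnt : Nontrivial X := Submodule.nontrivial_iff_ne_bot.2 h.ne
  have hr := h.restrict
  set A' : Fin 4 → End K X := fun i => (A i).restrict (h.stabA i) with hA'
  set B' : Fin 4 → End K X := fun i => (B i).restrict (h.stabB i) with hB'
  have hA'v : ∀ i (x : X), ((A' i x : X) : V) = A i x := fun i x => rfl
  have hB'v : ∀ i (x : X), ((B' i x : X) : V) = B i x := fun i x => rfl
  have hcomm' : ∀ i j, A' i * B' j = B' j * A' i := by
    intro i j
    ext x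
    rw [Module.End.mul_apply, Module.End.mul_apply, hA'v, hB'v, hB'v, hA'v,
      ← Module.End.mul_apply, hcomm, Module.End.mul_apply]
  have hpow : ∀ (i : Fin 4) (m : ℕ) (x : X),
      ((((A' i + B' i) ^ m) x : X) : V) = ((A i + B i) ^ m) x := by
    intro i m
    induction m with
    | zero => intro x; rfl
    | succ m ih =>
      intro x
      rw [pow_succ, pow_succ, Module.End.mul_apply, Module.End.mul_apply, ih]
      rfl
  have hnil' : ∀ i, IsNilpotent (A' i + B' i) := by
    intro i
    obtain ⟨m, hm⟩ := hnil i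
    refine ⟨m, ?_⟩
    ext x
    rw [hpow, hm]
    rfl
  have hsq : ∀ i, (A i + B i) * (A i + B i) = 0 → (A' i + B' i) * (A' i + B' i) = 0 := by
    intro i hi
    ext x
    rw [← pow_two, hpow, pow_two, hi]
    rfl
  have hlinA : Lin ω A' := by
    intro i j k
    ext x
    exact LinearMap.congr_fun (hlin i j k) (x : V)
  have hlinB : Lin ω' B' := by
    intro i j k
    ext x
    exact LinearMap.congr_fun (hlin' i j k) (x : V)
  choose c hcA hcB using fun i => exists_scalars hr hcomm' hnil' i
  have hneg : ∀ i, (-c i) • (1 : End K X) = - (c i • (1 : End K X)) := by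
    intro i
    ext x
    simp
  have hcB' : ∀ i, IsNilpotent (B' i - (-c i) • (1 : End K X)) := by
    intro i
    rw [hneg, sub_neg_eq_add]
    exact hcB i
  have hr0 : Min (fun i => A' i - c i • (1 : End K X)) (fun i => B' i - (-c i) • (1 : End K X))
      (⊤ : Submodule K X) := by
    refine ⟨fun _ _ _ => Submodule.mem_top, fun _ _ _ => Submodule.mem_top, hr.ne,
      fun W hW h1 h2 h3 => hr.min W hW ?_ ?_ h3⟩
    · intro i x hx
      have h4 := W.add_mem (h1 i x hx) (W.smul_mem (c i) hx)
      simpa using h4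
    · intro i x hx
      have h4 := W.add_mem (h2 i x hx) (W.smul_mem (-c i) hx)
      simpa using h4
  have hcomm0 : ∀ i j, (A' i - c i • (1 : End K X)) * (B' j - (-c j) • (1 : End K X)) =
      (B' j - (-c j) • (1 : End K X)) * (A' i - c i • (1 : End K X)) := by
    intro i j
    have h1 : Commute (A' i) (B' j) := hcomm' i j
    exact (h1.sub_right ((Commute.one_right _).smul_right (-c j))).sub_left
      ((Commute.one_left _).smul_left (c i))
  have hsum : ∀ i, (A' i - c i • (1 : End K X)) + (B' i - (-c i) • (1 : End K X)) =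
      A' i + B' i := by
    intro i
    rw [hneg]
    abel
  have hle : finrank K X ≤ 2 := by
    rcases hr0.zero_or h2 hcomm0 hcA hcB' a (by rw [hsum]; exact hsq a ha) with h0 | h0
    · exact hr.le_two hω' (hr.scal_side hω hcomm' hcA hlinA (sub_eq_zero.1 h0)) hlinB hab
        (hsq a ha) (hsq b hb)
    · refine hr.symm.le_two hω (hr.symm.scal_side hω' (fun i j => (hcomm' j i).symm) hcB' hlinB
        (sub_eq_zero.1 h0)) hlinA hab ?_ ?_
      · rw [add_comm]; exact hsq a ha
      · rw [add_comm]; exact hsq b hb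
  have hpos : 0 < finrank K X := finrank_pos
  have hdX : (finrank K X : K) ≠ 0 := by
    have h1 : finrank K X = 1 ∨ finrank K X = 2 := by omega
    rcases h1 with h1 | h1
    · rw [h1, Nat.cast_one]; exact one_ne_zero
    · rw [h1]; exact_mod_cast h2
  have hlin0 := scal_rel hlinA hdX hcA
  have hlin0' := scal_rel hlinB hdX hcB'
  obtain ⟨h3, h4⟩ := hr0.sq_irr hω hω' h2 hcomm0 hcA hcB' hlin0 hlin0' hab
    (by rw [hsum]; exact hsq a ha) (by rw [hsum]; exact hsq b hb)
  obtain ⟨x, hx⟩ := exists_ne (0 : X)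
  refine ⟨x, fun h => hx (Subtype.ext h), fun i => ?_⟩
  have h5 : A' i + B' i = 0 := by rw [← hsum, h3, h4, add_zero]
  have h6 := LinearMap.congr_fun h5 x
  exact congrArg Subtype.val h6

end

end Pool.Agent.Helper84.T5
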