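import Pool.Agent.Helper84.T5.Base
import Pool.Agent.Helper84.T5.Frame
import Pool.Agent.Helper84.T5.Conj
import Pool.Agent.Helper84.T5.Sq
import Pool.Agent.Helper84.T5.Inh

/-!
# Common kernel vectors
-/

set_option autoImplicit false
set_option linter.unusedSectionVars false

open Module

namespace Pool.Agent.Helper84.T5

section

variable {p : ℕ} [Fact p.Prime] {K : Type} [Field K] [CharP K p] {l : Fin 4 → Fin 4 → ZMod p}
  (F : Frame p K l) {V : Type} [AddCommGroup V] [Module K V]

/-- the first components -/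
def opA (N : Fin 4 → End K V) (i : Fin 4) : End K V := ∑ j, F.P i j • N j

/-- the second components -/
def opB (N : Fin 4 → End K V) (i : Fin 4) : End K V := ∑ j, F.Q i j • N j

lemma opA_add_opB (N : Fin 4 → End K V) (i : Fin 4) : opA F N i + opB F N i = N i := by
  unfold opA opB
  rw [← Finset.sum_add_distrib]
  have h1 : ∀ j, F.P i j • N j + F.Q i j • N j = if i = j then N j else 0 := by
    intro j
    rw [← add_smul, F.sum]
    split_ifs <;> simp
  simp only [h1]
  simp

lemma lin_opA (N : Fin 4 → End K V) : Lin F.ω (opA F N) := by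
  intro i j k
  simp only [opA, Finset.smul_sum, smul_smul, ← Finset.sum_add_distrib]
  refine Finset.sum_congr rfl fun m _ => ?_
  rw [← add_smul, F.lin]

lemma lin_opB (N : Fin 4 → End K V) : Lin F.ω' (opB F N) := by
  intro i j k
  simp only [opB, Finset.smul_sum, smul_smul, ← Finset.sum_add_distrib]
  refine Finset.sum_congr rfl fun m _ => ?_
  rw [← add_smul, F.lin']

lemma comm_op (N : Fin 4 → End K V) (i j : Fin 4) :
    opA F N i * opB F N j - opB F N j * opA F N i =
      ∑ k, ∑ m, (F.P i k * F.Q j m) • (N k * N m - N m * N k) := by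
  have h1 : opA F N i * opB F N j = ∑ k, ∑ m, (F.P i k * F.Q j m) • (N k * N m) := by
    unfold opA opB
    rw [Finset.sum_mul_sum]
    exact Finset.sum_congr rfl fun k _ => Finset.sum_congr rfl fun m _ => smul_mul_smul_comm _ _ _ _
  have h2 : opB F N j * opA F N i = ∑ k, ∑ m, (F.P i k * F.Q j m) • (N m * N k) := by
    unfold opA opB
    rw [Finset.sum_mul_sum, Finset.sum_comm]
    refine Finset.sum_congr rfl fun k _ => Finset.sum_congr rfl fun m _ => ?_
    rw [smul_mul_smul_comm, mul_comm (F.Q j m)]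
  rw [h1, h2, ← Finset.sum_sub_distrib]
  refine Finset.sum_congr rfl fun k _ => ?_
  rw [← Finset.sum_sub_distrib]
  exact Finset.sum_congr rfl fun m _ => (smul_sub _ _ _).symm

/-- the relations, with the equations for the commutators -/
lemma eqs_comm {N : Fin 4 → End K V} {w : Fin 4 → K}
    (h : Rel (fun i j => ZMod.castHom dvd_rfl K (l i j)) w N) (i : Fin 4) :
    eqs (fun i j => ZMod.castHom dvd_rfl K (l i j)) (fun i j => N i * N j - N j * N i) i =
      (- w i) • N i := by
  unfold eqs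
  rw [← Finset.add_sum_erase _ _ (Finset.mem_univ i)]
  simp only [sub_self, smul_zero, zero_add]
  rw [neg_smul, ← h i, ← Finset.sum_neg_distrib]
  refine Finset.sum_congr rfl fun j _ => ?_
  rw [← smul_neg, neg_sub]

lemma isAlt_comm (N : Fin 4 → End K V) : IsAlt (fun i j => N i * N j - N j * N i) :=
  ⟨fun i j => by rw [neg_sub], fun i => sub_self _⟩

/-- homogeneous relations -/
lemma op_commute {N : Fin 4 → End K V} {w : Fin 4 → K}
    (h : Rel (fun i j => ZMod.castHom dvd_rfl K (l i j)) w N) (hw : ∀ i, w i = 0) (i j : Fin 4) :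
    opA F N i * opB F N j = opB F N j * opA F N i := by
  rw [← sub_eq_zero, comm_op]
  refine F.kill _ _ (isAlt_comm N) (fun i => ?_) i j
  rw [eqs_comm h, hw, neg_zero, zero_smul]

/-- one inhomogeneous relation -/
lemma op_commute_inh (hA : Aniso l) {N : Fin 4 → End K V} {w : Fin 4 → K}
    (h : Rel (fun i j => ZMod.castHom dvd_rfl K (l i j)) w N) (hw : ∀ i, i ≠ 0 → w i = 0) :
    ∃ η : Fin 4 → Fin 4 → K, ∀ i j,
      opA F N i * opB F N j - opB F N j * opA F N i = η i j • N 0 := by
  set c : ZMod p →+* K := ZMod.castHom dvd_rfl K with hc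
  obtain ⟨y, hy⟩ := eqsL_surjective hA (Pi.single 0 1)
  have hy' : ∀ i, ∑ j, c (l i j) * c (alt y i j) = if i = 0 then 1 else 0 := by
    intro i
    have h1 := congrArg c (congrFun hy i)
    change c (eqs l (alt y) i) = _ at h1
    simp only [eqs, map_sum, smul_eq_mul, map_mul] at h1
    rw [h1, Pi.single_apply]
    split_ifs <;> simp
  have h0 : ∀ i j, ∑ k, ∑ m, (F.P i k * F.Q j m) • ((N k * N m - N m * N k) +
      (w 0 * c (alt y k m)) • N 0) = 0 := by
    refine F.kill _ _ ⟨fun i j => ?_, fun i => ?_⟩ (fun i => ?_)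
    · rw [(isAlt_alt y).swap i j, map_neg]
      module
    · rw [(isAlt_alt y).diag i, map_zero]
      simp
    · have h1 := eqs_comm h i
      unfold eqs at h1 ⊢
      simp only [smul_add, Finset.sum_add_distrib]
      rw [h1]
      have h2 : ∑ j, (ZMod.castHom dvd_rfl K) (l i j) • (w 0 * c (alt y i j)) • N 0 =
          (w 0 * ∑ j, c (l i j) * c (alt y i j)) • N 0 := by
        rw [Finset.mul_sum, Finset.sum_smul]
        refine Finset.sum_congr rfl fun j _ => ?_
        rw [smul_smul, ← hc]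
        congr 1
        ring
      rw [h2, hy']
      by_cases hi : i = 0
      · rw [if_pos hi, mul_one, hi, neg_smul, neg_add_cancel]
      · rw [if_neg hi, hw i hi]
        simp
  refine ⟨fun i j => - (w 0 * ∑ k, ∑ m, F.P i k * F.Q j m * c (alt y k m)), fun i j => ?_⟩
  rw [comm_op]
  have h1 := h0 i j
  simp only [smul_add, Finset.sum_add_distrib] at h1
  rw [eq_neg_of_add_eq_zero_left h1, neg_smul]
  congr 1
  rw [Finset.mul_sum, Finset.sum_smul]
  refine Finset.sum_congr rfl fun a _ => ?_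
  rw [Finset.mul_sum, Finset.sum_smul]
  refine Finset.sum_congr rfl fun b _ => ?_
  rw [smul_smul]
  congr 1
  ring

/-- the sum in the relation -/
lemma opA_sum (N : Fin 4 → End K V) : ∃ g : K,
    ∑ j ∈ Finset.univ.erase 0, ZMod.castHom dvd_rfl K (l 0 j) • opA F N j = g • opA F N 0 := by
  have h01 : F.ω 0 1 ≠ 0 := F.ne 0 1 (by decide)
  refine ⟨(F.ω 0 1)⁻¹ * ∑ j ∈ Finset.univ.erase 0, ZMod.castHom dvd_rfl K (l 0 j) * F.ω j 1, ?_⟩
  have h1 : ∀ j, opA F N j = (F.ω 0 1)⁻¹ • (F.ω j 1 • opA F N 0 + F.ω 0 j • opA F N 1) := by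
    intro j
    rw [← lin_opA F N 0 1 j, inv_smul_smul₀ h01]
  have h2 : ∑ j ∈ Finset.univ.erase 0, ZMod.castHom dvd_rfl K (l 0 j) * F.ω 0 j = 0 := by
    have h3 := F.rel 0
    rw [← Finset.add_sum_erase _ _ (Finset.mem_univ 0), F.alt.diag, mul_zero, zero_add] at h3
    exact h3
  have h4 : ∀ j, ZMod.castHom dvd_rfl K (l 0 j) • opA F N j =
      (F.ω 0 1)⁻¹ • ((ZMod.castHom dvd_rfl K (l 0 j) * F.ω j 1) • opA F N 0 +
        (ZMod.castHom dvd_rfl K (l 0 j) * F.ω 0 j) • opA F N 1) := by
    intro j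
    rw [h1 j, smul_comm, smul_add, smul_smul, smul_smul]
  rw [Finset.sum_congr rfl fun j _ => h4 j, ← Finset.smul_sum, Finset.sum_add_distrib,
    ← Finset.sum_smul, ← Finset.sum_smul, h2, zero_smul, add_zero, smul_smul]

lemma opB_sum (N : Fin 4 → End K V) : ∃ g : K,
    ∑ j ∈ Finset.univ.erase 0, ZMod.castHom dvd_rfl K (l 0 j) • opB F N j = g • opB F N 0 := by
  have h01 : F.ω' 0 1 ≠ 0 := F.ne' 0 1 (by decide)
  refine ⟨(F.ω' 0 1)⁻¹ * ∑ j ∈ Finset.univ.erase 0, ZMod.castHom dvd_rfl K (l 0 j) * F.ω' j 1, ?_⟩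
  have h1 : ∀ j, opB F N j = (F.ω' 0 1)⁻¹ • (F.ω' j 1 • opB F N 0 + F.ω' 0 j • opB F N 1) := by
    intro j
    rw [← lin_opB F N 0 1 j, inv_smul_smul₀ h01]
  have h2 : ∑ j ∈ Finset.univ.erase 0, ZMod.castHom dvd_rfl K (l 0 j) * F.ω' 0 j = 0 := by
    have h3 := F.rel' 0
    rw [← Finset.add_sum_erase _ _ (Finset.mem_univ 0), F.alt'.diag, mul_zero, zero_add] at h3
    exact h3
  have h4 : ∀ j, ZMod.castHom dvd_rfl K (l 0 j) • opB F N j =
      (F.ω' 0 1)⁻¹ • ((ZMod.castHom dvd_rfl K (l 0 j) * F.ω' j 1) • opB F N 0 +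
        (ZMod.castHom dvd_rfl K (l 0 j) * F.ω' 0 j) • opB F N 1) := by
    intro j
    rw [h1 j, smul_comm, smul_add, smul_smul, smul_smul]
  rw [Finset.sum_congr rfl fun j _ => h4 j, ← Finset.smul_sum, Finset.sum_add_distrib,
    ← Finset.sum_smul, ← Finset.sum_smul, h2, zero_smul, add_zero, smul_smul]

/-- the commutator of the two components of the first operator does not vanish -/
lemma eta_ne {N : Fin 4 → End K V} {w : Fin 4 → K}
    (h : Rel (fun i j => ZMod.castHom dvd_rfl K (l i j)) w N) (hw : w 0 ≠ 0) (hN : N 0 ≠ 0)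
    {η : K} (hη : opA F N 0 * opB F N 0 - opB F N 0 * opA F N 0 = η • N 0) : η ≠ 0 := by
  intro h0
  rw [h0, zero_smul, sub_eq_zero] at hη
  obtain ⟨g, hg⟩ := opA_sum F N
  obtain ⟨g', hg'⟩ := opB_sum F N
  set S : End K V := ∑ j ∈ Finset.univ.erase 0, ZMod.castHom dvd_rfl K (l 0 j) • N j with hS
  have hS' : S = g • opA F N 0 + g' • opB F N 0 := by
    rw [← hg, ← hg', ← Finset.sum_add_distrib]
    refine Finset.sum_congr rfl fun j _ => ?_
    rw [← smul_add, opA_add_opB]
  have h1 : S * N 0 - N 0 * S = w 0 • N 0 := by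
    rw [← h 0, hS, Finset.sum_mul, Finset.mul_sum, ← Finset.sum_sub_distrib]
    refine Finset.sum_congr rfl fun j _ => ?_
    rw [smul_mul_assoc, mul_smul_comm, smul_sub]
  have h2 : S * N 0 - N 0 * S = 0 := by
    rw [hS', ← opA_add_opB F N 0, sub_eq_zero]
    have h3 : Commute (opA F N 0) (opB F N 0) := hη
    exact ((((Commute.refl _).add_right h3).smul_left g).add_left
      ((h3.symm.add_right (Commute.refl _)).smul_left g')).eq
  rw [h2] at h1
  exact hN ((smul_eq_zero.1 h1.symm).resolve_left hw)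

/-- the determinant in extension fields -/
lemma det_ne_cast (hA : Aniso l) :
    (ZMod.castHom dvd_rfl K (l 1 3)) * (ZMod.castHom dvd_rfl K (l 2 1)) *
      (ZMod.castHom dvd_rfl K (l 3 2)) - (ZMod.castHom dvd_rfl K (l 1 2)) *
      (ZMod.castHom dvd_rfl K (l 2 3)) * (ZMod.castHom dvd_rfl K (l 3 1)) ≠ 0 := by
  intro h0
  rw [← map_mul, ← map_mul, ← map_mul, ← map_mul, ← map_sub,
    map_eq_zero_iff _ (ZMod.castHom dvd_rfl K).injective] at h0
  exact det_ne hA h0

/-- The case of one inhomogeneous relation. -/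
theorem common_ker_inh [IsAlgClosed K] [FiniteDimensional K V] [Nontrivial V] (hA : Aniso l)
    {N : Fin 4 → End K V} {w : Fin 4 → K}
    (h : Rel (fun i j => ZMod.castHom dvd_rfl K (l i j)) w N) (hnil : ∀ i, IsNilpotent (N i))
    (hdim : finrank K V < p) (hw0 : w 0 ≠ 0) (hw : ∀ i, i ≠ 0 → w i = 0) :
    ∃ x : V, x ≠ 0 ∧ ∀ i, N i x = 0 := by
  by_cases hN : N 0 = 0
  · exact common_ker_zero h hnil hN (det_ne_cast hA) (c := 1) (by decide) (hw 1 (by decide))
  obtain ⟨F⟩ := nonempty_frame K hA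
  obtain ⟨η, hη⟩ := op_commute_inh F hA h hw
  have hη0 := eta_ne F h hw0 hN (hη 0 0)
  obtain ⟨X, -, hX⟩ := exists_min (opA F N) (opB F N) (⊤ : Submodule K V)
    (fun _ _ _ => Submodule.mem_top) (fun _ _ _ => Submodule.mem_top) top_ne_bot
  have hXnt : Nontrivial X := Submodule.nontrivial_iff_ne_bot.2 hX.ne
  have hXN : ∀ i, ∀ x ∈ X, N i x ∈ X := by
    intro i x hx
    rw [← opA_add_opB F N i, LinearMap.add_apply]
    exact X.add_mem (hX.stabA i x hx) (hX.stabB i x hx)
  set N' : Fin 4 → End K X := fun i => (N i).restrict (hXN i) with hN'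
  have hN'v : ∀ i (x : X), ((N' i x : X) : V) = N i x := fun i x => rfl
  have hpow : ∀ (i : Fin 4) (m : ℕ) (x : X), ((((N' i) ^ m) x : X) : V) = ((N i) ^ m) x := by
    intro i m
    induction m with
    | zero => intro x; rfl
    | succ m ih =>
      intro x
      rw [pow_succ, pow_succ, Module.End.mul_apply, Module.End.mul_apply, ih]
      rfl
  have hnil' : ∀ i, IsNilpotent (N' i) := by
    intro i
    obtain ⟨m, hm⟩ := hnil i
    refine ⟨m, ?_⟩
    apply LinearMap.ext
    intro x
    apply Subtype.ext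
    rw [hpow, hm]
    rfl
  have hrel' : Rel (fun i j => ZMod.castHom dvd_rfl K (l i j)) w N' := by
    intro i
    apply LinearMap.ext
    intro x
    apply Subtype.ext
    have h1 := LinearMap.congr_fun (h i) (x : V)
    rw [LinearMap.sum_apply] at h1 ⊢
    rw [AddSubmonoidClass.coe_finsetSum]
    exact h1
  have h0 : N' 0 = 0 := by
    have hr := hX.restrict
    have hsum : (opA F N 0).restrict (hX.stabA 0) + (opB F N 0).restrict (hX.stabB 0) = N' 0 := by
      apply LinearMap.ext
      intro x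
      apply Subtype.ext
      have h1 := LinearMap.congr_fun (opA_add_opB F N 0) (x : V)
      exact h1
    rw [← hsum]
    refine hr.first p (η := η) ?_ hη0 ?_ ?_
    · intro i j
      apply LinearMap.ext
      intro x
      apply Subtype.ext
      have h1 := LinearMap.congr_fun (hη i j) (x : V)
      rw [← opA_add_opB F N 0] at h1
      exact h1
    · have h1 := hnil' 0
      rw [← hsum] at h1
      exact h1
    · exact (Submodule.finrank_le X).trans_lt hdim
  obtain ⟨x, hx, hx'⟩ := common_ker_zero hrel' hnil' h0 (det_ne_cast hA) (c := 1) (by decide)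
    (hw 1 (by decide))
  refine ⟨x, fun h1 => hx (Subtype.ext h1), fun i => ?_⟩
  exact congrArg Subtype.val (hx' i)

end

end Pool.Agent.Helper84.T5
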