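import Mathlib

/-!
# Pairs of commuting families of operators: generalities
-/

set_option autoImplicit false

open Module

namespace Pool.Agent.Helper84.T5

section

variable {K : Type} [Field K] {V : Type} [AddCommGroup V] [Module K V] {ι : Type}

/-- stable subspaces -/
def Stab (N : ι → End K V) (W : Submodule K V) : Prop := ∀ i, ∀ x ∈ W, N i x ∈ W

/-- minimal stable subspaces of a pair of families -/
structure Min (A B : ι → End K V) (X : Submodule K V) : Prop where
  stabA : Stab A X
  stabB : Stab B X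
  ne : X ≠ ⊥
  min : ∀ W : Submodule K V, W ≤ X → Stab A W → Stab B W → W ≠ ⊥ → W = X

lemma Min.symm {A B : ι → End K V} {X : Submodule K V} (h : Min A B X) : Min B A X :=
  ⟨h.stabB, h.stabA, h.ne, fun W h1 h2 h3 h4 => h.min W h1 h3 h2 h4⟩

lemma exists_min [FiniteDimensional K V] (A B : ι → End K V) (X : Submodule K V) (hA : Stab A X)
    (hB : Stab B X) (hX : X ≠ ⊥) : ∃ Y ≤ X, Min A B Y := by
  obtain ⟨Y, hY⟩ := WellFoundedLT.exists_minimal
    (s := {W : Submodule K V | W ≤ X ∧ Stab A W ∧ Stab B W ∧ W ≠ ⊥}) inferInstance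
      ⟨X, le_rfl, hA, hB, hX⟩
  refine ⟨Y, hY.1.1, hY.1.2.1, hY.1.2.2.1, hY.1.2.2.2, fun W h1 h2 h3 h4 => ?_⟩
  exact le_antisymm h1 (hY.2 ⟨h1.trans hY.1.1, h2, h3, h4⟩ h1)

/-- restriction to a minimal subspace -/
lemma Min.restrict {A B : ι → End K V} {X : Submodule K V} (h : Min A B X) :
    Min (fun i => (A i).restrict (h.stabA i)) (fun i => (B i).restrict (h.stabB i))
      (⊤ : Submodule K X) := by
  have key : ∀ W : Submodule K X, (∀ i, ∀ x ∈ W, (A i).restrict (h.stabA i) x ∈ W) →
      (∀ i, ∀ x ∈ W, (B i).restrict (h.stabB i) x ∈ W) → W ≠ ⊥ → W = ⊤ := by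
    intro W hA hB hW
    have h1 : W.map X.subtype = X := by
      refine h.min _ (Submodule.map_subtype_le X W) ?_ ?_ ?_
      · rintro i _ ⟨x, hx, rfl⟩
        exact ⟨_, hA i x hx, rfl⟩
      · rintro i _ ⟨x, hx, rfl⟩
        exact ⟨_, hB i x hx, rfl⟩
      · intro h0
        exact hW (Submodule.map_injective_of_injective X.injective_subtype
          (by rw [h0, Submodule.map_bot]))
    exact Submodule.map_injective_of_injective X.injective_subtype
      (h1.trans (Submodule.map_subtype_top X).symm)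
  refine ⟨fun _ _ _ => Submodule.mem_top, fun _ _ _ => Submodule.mem_top, ?_,
    fun W _ hA hB hW => key W hA hB hW⟩
  intro h0
  apply h.ne
  have h1 := congrArg (Submodule.map X.subtype) h0
  rwa [Submodule.map_subtype_top, Submodule.map_bot] at h1

/-- a stable property holds everywhere -/
lemma Min.all {A B : ι → End K V} (h : Min A B (⊤ : Submodule K V)) (W : Submodule K V)
    (hA : Stab A W) (hB : Stab B W) {x : V} (hx : x ∈ W) (hx0 : x ≠ 0) (y : V) : y ∈ W := by
  have h1 := h.min W le_top hA hB (fun h0 => hx0 (by rwa [h0, Submodule.mem_bot] at hx))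
  rw [h1]
  exact Submodule.mem_top

lemma Min.nontrivial {A B : ι → End K V} (h : Min A B (⊤ : Submodule K V)) : Nontrivial V := by
  obtain ⟨x, -, hx⟩ := Submodule.exists_mem_ne_zero_of_ne_bot h.ne
  exact ⟨x, 0, hx⟩

/-- nilpotent operators on nonzero spaces have kernels -/
lemma exists_ker_of_nilpotent [Nontrivial V] {T : End K V} (hT : IsNilpotent T) :
    ∃ x : V, x ≠ 0 ∧ T x = 0 := by
  by_contra hcon
  push Not at hcon
  obtain ⟨m, hm⟩ := hT
  obtain ⟨x, hx⟩ := exists_ne (0 : V)
  have h1 : ∀ k : ℕ, (T ^ k) x ≠ 0 := by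
    intro k
    induction k with
    | zero => simpa using hx
    | succ k ih =>
      rw [pow_succ', Module.End.mul_apply]
      exact hcon _ ih
  apply h1 m
  rw [hm, LinearMap.zero_apply]

/-- a nilpotent operator which commutes with everything vanishes -/
lemma Min.eq_zero {A B : ι → End K V} (h : Min A B (⊤ : Submodule K V)) {T : End K V}
    (hT : IsNilpotent T) (hA : ∀ i, T * A i = A i * T) (hB : ∀ i, T * B i = B i * T) : T = 0 := by
  have := h.nontrivial
  obtain ⟨x, hx, hx'⟩ := exists_ker_of_nilpotent hT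
  ext y
  rw [LinearMap.zero_apply]
  refine h.all (LinearMap.ker T) ?_ ?_ (LinearMap.mem_ker.2 hx') hx y
  · intro i z hz
    rw [LinearMap.mem_ker] at hz ⊢
    rw [← Module.End.mul_apply, hA, Module.End.mul_apply, hz, map_zero]
  · intro i z hz
    rw [LinearMap.mem_ker] at hz ⊢
    rw [← Module.End.mul_apply, hB, Module.End.mul_apply, hz, map_zero]

lemma pow_sub_apply {S T : End K V} (h : Commute S T) {r k : ℕ} (hS : S ^ r = 0) {x : V}
    (hT : (T ^ k) x = 0) : ((S - T) ^ (r + k)) x = 0 := by
  rw [sub_eq_add_neg, (h.neg_right).add_pow]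
  rw [LinearMap.sum_apply]
  refine Finset.sum_eq_zero fun m hm => ?_
  rw [Finset.mem_range] at hm
  by_cases hmr : r ≤ m
  · rw [pow_eq_zero_of_le hmr hS, zero_mul, zero_mul, LinearMap.zero_apply]
  · have h1 : ((-T) ^ (r + k - m)) x = 0 := by
      obtain ⟨d, hd⟩ : ∃ d, r + k - m = d + k := ⟨r - m, by omega⟩
      rw [hd, neg_pow, pow_add T, Module.End.mul_apply, Module.End.mul_apply, hT, map_zero, map_zero]
    rw [mul_assoc, ← Nat.cast_comm, Module.End.mul_apply, Module.End.mul_apply, h1, map_zero,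
      map_zero]

/-- If the sums are nilpotent, the operators have opposite single eigenvalues. -/
theorem exists_scalars [IsAlgClosed K] [FiniteDimensional K V] {A B : ι → End K V}
    (h : Min A B (⊤ : Submodule K V)) (hcomm : ∀ i j, A i * B j = B j * A i)
    (hnil : ∀ i, IsNilpotent (A i + B i)) (i : ι) : ∃ c : K,
      IsNilpotent (A i - c • (1 : End K V)) ∧ IsNilpotent (B i + c • (1 : End K V)) := by
  have := h.nontrivial
  obtain ⟨c, hc⟩ := Module.End.exists_eigenvalue (A i)
  obtain ⟨x, hx⟩ := hc.exists_hasEigenvector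
  obtain ⟨r, hr⟩ := hnil i
  have hcomm1 : Commute (A i + B i) (A i - c • (1 : End K V)) := by
    refine Commute.sub_right ?_ ((Commute.one_right _).smul_right c)
    exact (Commute.refl _).add_left (hcomm i i).symm
  have hcomm2 : Commute (A i + B i) (B i + c • (1 : End K V)) := by
    refine Commute.add_right ?_ ((Commute.one_right _).smul_right c)
    exact Commute.add_left (hcomm i i) (Commute.refl _)
  have hBA : B i - (-c) • (1 : End K V) = (A i + B i) - (A i - c • (1 : End K V)) := by
    rw [neg_smul]; abel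
  have hAB : A i - c • (1 : End K V) = (A i + B i) - (B i + c • (1 : End K V)) := by abel
  have heq : ∀ y, y ∈ (A i).maxGenEigenspace c ↔ y ∈ (B i).maxGenEigenspace (-c) := by
    intro y
    rw [Module.End.mem_maxGenEigenspace, Module.End.mem_maxGenEigenspace]
    constructor
    · rintro ⟨k, hk⟩
      exact ⟨r + k, by rw [hBA]; exact pow_sub_apply hcomm1 hr hk⟩
    · rintro ⟨k, hk⟩
      refine ⟨r + k, ?_⟩
      rw [hAB]
      refine pow_sub_apply hcomm2 hr ?_
      rwa [neg_smul, sub_neg_eq_add] at hk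
  have hall : ∀ y, y ∈ (A i).maxGenEigenspace c := by
    refine h.all _ ?_ ?_ (x := x) ?_ hx.2
    · intro j y hy
      rw [heq] at hy ⊢
      exact Module.End.mapsTo_maxGenEigenspace_of_comm (hcomm j i).symm (-c) hy
    · intro j y hy
      exact Module.End.mapsTo_maxGenEigenspace_of_comm (hcomm i j) c hy
    · exact Module.End.eigenspace_le_maxGenEigenspace hx.1
  refine ⟨c, ?_, ?_⟩
  · rw [LinearMap.isNilpotent_iff_charpoly, LinearMap.charpoly_eq_X_pow_iff]
    intro y
    exact (Module.End.mem_maxGenEigenspace _ _ _).1 (hall y)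
  · rw [LinearMap.isNilpotent_iff_charpoly, LinearMap.charpoly_eq_X_pow_iff]
    intro y
    obtain ⟨k, hk⟩ := (Module.End.mem_maxGenEigenspace _ _ _).1 ((heq y).1 (hall y))
    exact ⟨k, by rwa [neg_smul, sub_neg_eq_add] at hk⟩

end

end Pool.Agent.Helper84.T5
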