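import Pool.Agent.Helper84.T5.Entry

/-!
# Two conjugate isotropic solutions
-/

set_option autoImplicit false

namespace Pool.Agent.Helper84.T5

/-- the polar form of the Pfaffian -/
def bil {R : Type} [CommRing R] (ω ω' : Fin 4 → Fin 4 → R) : R :=
  ω 0 1 * ω' 2 3 + ω 2 3 * ω' 0 1 - (ω 0 2 * ω' 1 3 + ω 1 3 * ω' 0 2) +
    (ω 0 3 * ω' 1 2 + ω 1 2 * ω' 0 3)

section

variable {p : ℕ} [Fact p.Prime] {K : Type} [Field K] [CharP K p]

lemma mem_range_of_pow (x : K) (hx : x ^ p = x) : ∃ a : ZMod p, ZMod.castHom dvd_rfl K a = x := by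
  have h1 : x ∈ (⊥ : Subfield K) := (Subfield.mem_bot_iff_pow_eq_self K p).2 hx
  rw [← ZMod.fieldRange_castHom_eq_bot p] at h1
  exact h1

variable (K) in
/-- the conjugate solutions -/
theorem exists_pair [IsAlgClosed K] {l : Fin 4 → Fin 4 → ZMod p} (hA : Aniso l) :
    ∃ ω ω' : Fin 4 → Fin 4 → K, IsAlt ω ∧ IsAlt ω' ∧ pf ω = 0 ∧ pf ω' = 0 ∧
      (∀ i j, ω' i j = ω i j ^ p) ∧ (∀ i j, ω i j = ω' i j ^ p) ∧ (∀ i j, i ≠ j → ω i j ≠ 0) ∧
      bil ω ω' ≠ 0 ∧
      (∀ i, eqs (fun i j => ZMod.castHom dvd_rfl K (l i j)) ω i = 0) ∧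
      ∀ (M : Type) [AddCommGroup M] [Module K M] (C : Fin 4 → Fin 4 → M), IsAlt C →
        (∀ i, eqs (fun i j => ZMod.castHom dvd_rfl K (l i j)) C i = 0) →
        ∃ Z Z' : M, ∀ i j, C i j = ω i j • Z + ω' i j • Z' := by
  have hpp : p.Prime := Fact.out
  obtain ⟨x, y, hx, hy, hind, hval⟩ := exists_basis hA
  set c : ZMod p →+* K := ZMod.castHom dvd_rfl K with hc
  have hcinj : Function.Injective c := c.injective
  set A : ZMod p := pf (alt x) with hAdef
  set E : ZMod p := pf (alt y) with hEdef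
  set D : ZMod p := bil (alt x) (alt y) with hDdef
  have hx0 : x ≠ 0 := by
    intro h
    have := hind 1 0 (by rw [h]; simp)
    exact one_ne_zero this.1
  have hA0 : A ≠ 0 := fun h => hx0 (hA x hx h)
  have hcA0 : c A ≠ 0 := by rwa [Ne, map_eq_zero_iff c hcinj]
  have hpfst : ∀ s t : ZMod p, pf (alt (s • x + t • y)) = A * s ^ 2 + D * s * t + E * t ^ 2 := by
    intro s t
    simp only [hAdef, hDdef, hEdef, pf, bil, alt, Matrix.cons_val, Matrix.cons_val_zero,
      Matrix.cons_val_one, Pi.add_apply, Pi.smul_apply, smul_eq_mul]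
    ring
  -- the root
  obtain ⟨θ, hθ⟩ := IsAlgClosed.exists_root
    (Polynomial.C (c A) * Polynomial.X ^ 2 + Polynomial.C (c D) * Polynomial.X +
      Polynomial.C (c E) : Polynomial K) (by
      rw [Polynomial.degree_quadratic hcA0]; decide)
  have hθ' : c A * θ ^ 2 + c D * θ + c E = 0 := by simpa [Polynomial.IsRoot] using hθ
  have hfrob : ∀ a : ZMod p, (c a) ^ p = c a := by
    intro a
    rw [← map_pow, ZMod.pow_card]
  have hroot : ∀ z : K, c A * z ^ 2 + c D * z + c E = 0 →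
      c A * (z ^ p) ^ 2 + c D * z ^ p + c E = 0 := by
    intro z hz
    have h1 := congrArg (frobenius K p) hz
    rw [map_add, map_add, map_mul, map_mul, map_zero, frobenius_def, frobenius_def, frobenius_def,
      frobenius_def, frobenius_def, hfrob, hfrob, hfrob, ← pow_mul, mul_comm 2 p, pow_mul] at h1
    exact h1
  have hne : ∀ z : K, c A * z ^ 2 + c D * z + c E = 0 → z ^ p ≠ z := by
    intro z hz hzp
    obtain ⟨a, rfl⟩ := mem_range_of_pow z hzp
    have h1 : A * a ^ 2 + D * a * 1 + E * 1 ^ 2 = 0 := by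
      apply hcinj
      rw [map_add, map_add, map_mul, map_mul, map_mul, map_mul, map_pow, map_pow, map_zero, map_one]
      linear_combination hz
    rw [← hpfst] at h1
    have h2 := hA (a • x + (1 : ZMod p) • y) (by rw [map_add, map_smul, map_smul, hx, hy]; simp) h1
    exact one_ne_zero (hind a 1 h2).2
  set θ' := θ ^ p with hθdef
  have hθ'' := hroot θ hθ'
  rw [← hθdef] at hθ''
  have hdiff : θ' - θ ≠ 0 := sub_ne_zero.2 (hne θ hθ')
  have hback : θ' ^ p = θ := by
    have h1 := hroot θ' hθ''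
    have h2 := hne θ' hθ''
    have h3 : (θ' ^ p - θ') * (c A * (θ' ^ p + θ') + c D) = 0 := by linear_combination h1 - hθ''
    have h4 := (mul_eq_zero.1 h3).resolve_left (sub_ne_zero.2 h2)
    have h5 : (θ' - θ) * (c A * (θ' + θ) + c D) = 0 := by linear_combination hθ'' - hθ'
    have h6 := (mul_eq_zero.1 h5).resolve_left hdiff
    have h7 : c A * (θ' ^ p - θ) = 0 := by linear_combination h4 - h6
    exact sub_eq_zero.1 ((mul_eq_zero.1 h7).resolve_left hcA0)
  -- the solutions
  let ωf : K → Fin 4 → Fin 4 → K := fun z => alt fun m => z * c (x m) + c (y m)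
  have hωf : ∀ z i j, ωf z i j = z * c (alt x i j) + c (alt y i j) := by
    intro z i j
    fin_cases i <;> fin_cases j <;> simp [ωf, alt] <;> ring
  have hωf' : ∀ z i j, ωf z i j ^ p = ωf (z ^ p) i j := by
    intro z i j
    rw [hωf, hωf, ← frobenius_def, map_add, map_mul, frobenius_def, frobenius_def, frobenius_def,
      hfrob, hfrob]
  have hpfω : ∀ z, pf (ωf z) = c A * z ^ 2 + c D * z + c E := by
    intro z
    simp only [pf, hωf]
    simp only [hAdef, hDdef, hEdef, pf, bil, map_add, map_sub, map_mul]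
    ring
  refine ⟨ωf θ, ωf θ', isAlt_alt _, isAlt_alt _, ?_, ?_, ?_, ?_, ?_, ?_, ?_, ?_⟩
  · rw [hpfω, hθ']
  · rw [hpfω, hθ'']
  · intro i j
    rw [hωf', hθdef]
  · intro i j
    rw [hωf', hback]
  · -- the entries
    intro a b hab h0
    rw [hωf] at h0
    by_cases h1 : alt x a b = 0
    · rw [h1, map_zero, mul_zero, zero_add, map_eq_zero_iff c hcinj] at h0
      have hex : ∀ a b : Fin 4, a ≠ b → ∃ cc d : Fin 4, [a, b, cc, d].Nodup := by decide
      obtain ⟨cc, d, hn⟩ := hex a b hab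
      obtain ⟨z, hz, hz'⟩ := entry_ne hA a b cc d hn
      apply hz'
      obtain ⟨Z, Z', hZ⟩ := hval (ZMod p) (alt z) (isAlt_alt z) (fun i => congrFun hz i)
      rw [hZ, h1, h0, zero_smul, zero_smul, add_zero]
    · have h2 : θ = c (- alt y a b / alt x a b) := by
        have h3 : c (alt x a b) ≠ 0 := by rwa [Ne, map_eq_zero_iff c hcinj]
        rw [map_div₀, map_neg, eq_div_iff h3]
        linear_combination h0
      apply hne θ hθ'
      rw [h2, hfrob]
  · -- the polar form
    have h1 : bil (ωf θ) (ωf θ') = - (θ' - θ) ^ 2 * c A := by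
      have h2 : bil (ωf θ) (ωf θ') = 2 * c A * (θ * θ') + c D * (θ + θ') + 2 * c E := by
        simp only [bil, hωf]
        simp only [hAdef, hDdef, hEdef, pf, bil, map_add, map_sub, map_mul]
        ring
      rw [h2]
      linear_combination hθ' + hθ''
    rw [h1]
    exact mul_ne_zero (neg_ne_zero.2 (pow_ne_zero _ hdiff)) hcA0
  · intro i
    have h1 := congrFun hx i
    have h2 := congrFun hy i
    change eqs l (alt x) i = 0 at h1
    change eqs l (alt y) i = 0 at h2
    have h3 := congrArg c h1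
    have h4 := congrArg c h2
    simp only [eqs, map_sum, smul_eq_mul, map_mul, map_zero] at h3 h4
    simp only [eqs, smul_eq_mul, hωf, mul_add, Finset.sum_add_distrib, h4, add_zero]
    rw [← mul_zero θ, ← h3, Finset.mul_sum]
    exact Finset.sum_congr rfl fun j _ => by ring
  · intro M _ _ C hC hrel
    let _ : Module (ZMod p) M := Module.compHom M c
    have hsmul : ∀ (a : ZMod p) (m : M), a • m = c a • m := fun a m => rfl
    obtain ⟨Z, Z', hZ⟩ := hval M C hC (fun i => hrel i)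
    refine ⟨(θ' - θ)⁻¹ • (θ' • Z' - Z), (θ' - θ)⁻¹ • (Z - θ • Z'), fun i j => ?_⟩
    rw [hZ, hsmul, hsmul, hωf, hωf]
    have h1 : ∀ m : M, (θ' - θ)⁻¹ • ((θ' - θ) • m) = m := fun m => inv_smul_smul₀ hdiff m
    rw [← h1 (c (alt x i j) • Z + c (alt y i j) • Z'), smul_comm _ (θ' - θ)⁻¹,
      smul_comm _ (θ' - θ)⁻¹, ← smul_add]
    congr 1
    module

end

end Pool.Agent.Helper84.T5
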