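import Pool.Agent.Helper84.T5.Op

/-!
# Irreducible pairs in dimension three and five
-/

set_option autoImplicit false

open Module

namespace Pool.Agent.Helper84.T5

section

variable {K : Type} [Field K] {V : Type} [AddCommGroup V] [Module K V]

/-- The operators are scalar on a subspace. -/
def Sc (A : Fin 4 → End K V) (X : Submodule K V) : Prop :=
  ∃ c : Fin 4 → K, ∀ i, ∀ x ∈ X, A i x = c i • x

/-- images of a minimal subspace -/
lemma grow [FiniteDimensional K V] {A : Fin 4 → End K V} {Y Z : Submodule K V}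
    (hYA : Stab A Y) (hYmin : ∀ W ≤ Y, Stab A W → W ≠ ⊥ → W = Y) (hZ : Stab A Z) {T : End K V}
    (hT : ∀ i, A i * T = T * A i) (hnle : ¬ Y.map T ≤ Z) :
    finrank K (Z ⊔ Y.map T : Submodule K V) = finrank K Z + finrank K Y := by
  have hW : Y ⊓ Z.comap T = ⊥ := by
    by_contra hne
    have h1 := hYmin (Y ⊓ Z.comap T) inf_le_left ?_ hne
    · apply hnle
      rintro _ ⟨x, hx, rfl⟩
      have h2 : x ∈ Y ⊓ Z.comap T := by rw [h1]; exact hx
      exact h2.2
    · intro i x hx
      refine ⟨hYA i x hx.1, ?_⟩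
      change T (A i x) ∈ Z
      rw [← Module.End.mul_apply, ← hT, Module.End.mul_apply]
      exact hZ i _ hx.2
  have hinf : Z ⊓ Y.map T = ⊥ := by
    rw [Submodule.eq_bot_iff]
    rintro _ ⟨h1, y, hy, rfl⟩
    have h2 : y ∈ Y ⊓ Z.comap T := ⟨hy, h1⟩
    rw [hW, Submodule.mem_bot] at h2
    rw [h2, map_zero]
  have hfr : finrank K (Y.map T) = finrank K Y := by
    have h3 : Function.Injective (T.domRestrict Y) := by
      rw [← LinearMap.ker_eq_bot, Submodule.eq_bot_iff]
      intro z hz
      rw [LinearMap.mem_ker, LinearMap.domRestrict_apply] at hz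
      have h4 : (z : V) ∈ Y ⊓ Z.comap T := ⟨z.2, by
        rw [Submodule.comap_coe, Set.mem_preimage, hz]
        exact Z.zero_mem⟩
      rw [hW, Submodule.mem_bot] at h4
      exact Subtype.ext h4
    have h4 := LinearMap.finrank_range_of_inj h3
    rwa [LinearMap.range_domRestrict] at h4
  have h3 := Submodule.finrank_sup_add_finrank_inf_eq Z (Y.map T)
  rw [hinf, finrank_bot, add_zero, hfr] at h3
  exact h3

/-- In dimension three and five one of the families is scalar. -/
theorem scalar_of_small [IsAlgClosed K] [FiniteDimensional K V] {A B : Fin 4 → End K V}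
    (h : Min A B (⊤ : Submodule K V)) (hcomm : ∀ i j, A i * B j = B j * A i)
    (hd : finrank K V = 3 ∨ finrank K V = 5) :
    Sc A (⊤ : Submodule K V) ∨ Sc B (⊤ : Submodule K V) := by
  have hnt := h.nontrivial
  obtain ⟨Y, -, hY⟩ := exists_min A A (⊤ : Submodule K V) (fun _ _ _ => Submodule.mem_top)
    (fun _ _ _ => Submodule.mem_top) top_ne_bot
  have hYmin : ∀ W ≤ Y, Stab A W → W ≠ ⊥ → W = Y := fun W h1 h2 h3 => hY.min W h1 h2 h2 h3
  have hYnt : Nontrivial Y := Submodule.nontrivial_iff_ne_bot.2 hY.ne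
  have hYpos : 0 < finrank K Y := finrank_pos
  by_cases hone : finrank K Y = 1
  · -- a common eigenvector
    left
    obtain ⟨v, hv, hvall⟩ := finrank_eq_one_iff'.1 hone
    have hc : ∀ i, ∃ c : K, A i (v : V) = c • (v : V) := by
      intro i
      obtain ⟨c, hc⟩ := hvall ⟨A i v, hY.stabA i v v.2⟩
      exact ⟨c, (congrArg Subtype.val hc).symm⟩
    choose c hc using hc
    refine ⟨c, fun i x _ => ?_⟩
    have h6 := h.all (⨅ i, LinearMap.ker (A i - c i • (1 : End K V))) ?_ ?_ (x := (v : V)) ?_ ?_ x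
    · rw [Submodule.mem_iInf] at h6
      have h7 := LinearMap.mem_ker.1 (h6 i)
      exact sub_eq_zero.1 h7
    · intro j x hx
      rw [Submodule.mem_iInf] at hx
      have h7 : A j x = c j • x := sub_eq_zero.1 (LinearMap.mem_ker.1 (hx j))
      rw [h7]
      exact Submodule.smul_mem _ _ (by rw [Submodule.mem_iInf]; exact hx)
    · intro j x hx
      rw [Submodule.mem_iInf] at hx ⊢
      intro m
      have h7 : A m x = c m • x := sub_eq_zero.1 (LinearMap.mem_ker.1 (hx m))
      rw [LinearMap.mem_ker]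
      change A m (B j x) - c m • B j x = 0
      rw [← Module.End.mul_apply, hcomm, Module.End.mul_apply, h7, map_smul, sub_self]
    · rw [Submodule.mem_iInf]
      intro m
      rw [LinearMap.mem_ker]
      exact sub_eq_zero.2 (hc m)
    · exact fun h7 => hv (Subtype.ext h7)
  by_cases hst : Stab B Y
  · right
    have hYtop : Y = ⊤ := h.min Y le_top hY.stabA hst hY.ne
    have key : ∀ j, ∃ b : K, ∀ x, B j x = b • x := by
      intro j
      obtain ⟨b, hb⟩ := Module.End.exists_eigenvalue (B j)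
      obtain ⟨x, hx⟩ := hb.exists_hasEigenvector
      refine ⟨b, fun y => ?_⟩
      have h3 := hYmin (Module.End.eigenspace (B j) b) (by rw [hYtop]; exact le_top) ?_ ?_
      · have h4 : y ∈ Module.End.eigenspace (B j) b := by rw [h3, hYtop]; exact Submodule.mem_top
        exact Module.End.mem_eigenspace_iff.1 h4
      · intro i z hz
        rw [Module.End.mem_eigenspace_iff] at hz ⊢
        rw [← Module.End.mul_apply, ← hcomm, Module.End.mul_apply, hz, map_smul]
      · intro h4
        apply hx.2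
        have h5 : x ∈ Module.End.eigenspace (B j) b := hx.1
        rwa [h4, Submodule.mem_bot] at h5
    choose b hb using key
    exact ⟨b, fun i x _ => hb i x⟩
  exfalso
  unfold Stab at hst
  push Not at hst
  obtain ⟨j, y, hy, hy'⟩ := hst
  have h1 := grow hY.stabA hYmin hY.stabA (fun i => hcomm i j) (fun h3 => hy' (h3 ⟨y, hy, rfl⟩))
  set Z := Y ⊔ Y.map (B j) with hZ
  have h2 := Submodule.finrank_le Z
  have h4 : finrank K Z = 4 ∧ finrank K Y = 2 ∧ finrank K V = 5 := by omega
  have hZA : Stab A Z := by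
    intro i x hx
    obtain ⟨u, hu, w, hw, rfl⟩ := Submodule.mem_sup.1 hx
    obtain ⟨w, hw, rfl⟩ := hw
    rw [map_add]
    refine Submodule.add_mem _ (Submodule.mem_sup_left (hY.stabA i u hu))
      (Submodule.mem_sup_right ⟨A i w, hY.stabA i w hw, ?_⟩)
    rw [← Module.End.mul_apply, ← hcomm, Module.End.mul_apply]
  have hZne : Z ≠ ⊤ := by
    intro h5
    rw [h5, finrank_top] at h4
    omega
  have hZ0 : Z ≠ ⊥ := by
    intro h5
    rw [h5, finrank_bot] at h4
    omega
  have hZst : ¬ Stab B Z := fun h5 => hZne (h.min Z le_top hZA h5 hZ0)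
  unfold Stab at hZst
  push Not at hZst
  obtain ⟨k, z, hz, hz'⟩ := hZst
  obtain ⟨u, hu, w, hw, rfl⟩ := Submodule.mem_sup.1 hz
  obtain ⟨w, hw, rfl⟩ := hw
  have h6 : ∃ T : End K V, (∀ i, A i * T = T * A i) ∧ ¬ Y.map T ≤ Z := by
    by_cases h7 : B k u ∈ Z
    · refine ⟨B k * B j, fun i => ?_, fun h8 => hz' ?_⟩
      · rw [← mul_assoc, hcomm, mul_assoc, hcomm, mul_assoc]
      · rw [map_add]
        exact Submodule.add_mem _ h7 (h8 ⟨w, hw, rfl⟩)
    · exact ⟨B k, fun i => hcomm i k, fun h8 => h7 (h8 ⟨u, hu, rfl⟩)⟩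
  obtain ⟨T, hT, hT'⟩ := h6
  have h8 := grow hY.stabA hYmin hZA hT hT'
  have h9 := Submodule.finrank_le (Z ⊔ Y.map T)
  omega

end

end Pool.Agent.Helper84.T5
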