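import Pool.Agent.Helper84.T5.Hom
import Pool.Agent.Helper84.T5.Entry

/-!
# Three operators
-/

set_option autoImplicit false

open Module

namespace Pool.Agent.Helper84.T5

section

variable {K : Type} [Field K] {V : Type} [AddCommGroup V] [Module K V]

/-- nilpotent operators do not scale by nonzero factors -/
lemma scale_zero {N C : End K V} (hN : IsNilpotent N) {β : K} (h : N * C - C * N = β • C)
    (hC : C ≠ 0) : β = 0 := by
  by_contra hβ
  obtain ⟨m, hm⟩ := hN
  have h1 : SemiconjBy C (N + β • (1 : End K V)) N := by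
    unfold SemiconjBy
    rw [mul_add, mul_smul_comm, mul_one, ← h]
    abel
  have h2 := (h1.pow_right m).eq
  rw [hm, zero_mul] at h2
  have h3 : IsUnit (N + β • (1 : End K V)) := by
    have h4 : IsUnit (β • (1 : End K V)) := by
      rw [← Algebra.algebraMap_eq_smul_one]
      exact (isUnit_iff_ne_zero.2 hβ).map _
    exact IsNilpotent.isUnit_add_right_of_commute ⟨m, hm⟩ h4 ((Commute.one_right N).smul_right β)
  apply hC
  exact ((h3.pow m).mul_left_eq_zero).1 h2

lemma last_nonzero {T : End K V} (hT : IsNilpotent T) {x : V} (hx : x ≠ 0) :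
    ∃ k : ℕ, (T ^ k) x ≠ 0 ∧ T ((T ^ k) x) = 0 := by
  by_contra hcon
  push Not at hcon
  obtain ⟨m, hm⟩ := hT
  have h1 : ∀ k : ℕ, (T ^ k) x ≠ 0 := by
    intro k
    induction k with
    | zero => simpa using hx
    | succ k ih =>
      rw [pow_succ', Module.End.mul_apply]
      exact hcon _ ih
  apply h1 m
  rw [hm, LinearMap.zero_apply]

/-- three nilpotent operators, the commutators of which are combinations of two of them -/
theorem common_ker_three [Nontrivial V] {A B C : End K V} (hA : IsNilpotent A)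
    (hB : IsNilpotent B) (hC : IsNilpotent C) {a1 b1 a2 b2 a3 b3 : K}
    (hAB : A * B - B * A = a1 • A + b1 • B) (hAC : A * C - C * A = a2 • A + b2 • B)
    (hBC : B * C - C * B = a3 • A + b3 • B) : ∃ x : V, x ≠ 0 ∧ A x = 0 ∧ B x = 0 ∧ C x = 0 := by
  have hcomm : A * B = B * A := by
    by_contra hne
    have hD : A * B - B * A ≠ 0 := sub_ne_zero.2 hne
    have h1 : A * (A * B - B * A) - (A * B - B * A) * A = b1 • (A * B - B * A) := by
      conv_lhs => rw [hAB]
      rw [mul_add, add_mul, mul_smul_comm, mul_smul_comm, smul_mul_assoc, smul_mul_assoc, smul_sub]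
      abel
    have h2 : B * (A * B - B * A) - (A * B - B * A) * B = (-a1) • (A * B - B * A) := by
      conv_lhs => rw [hAB]
      rw [mul_add, add_mul, mul_smul_comm, mul_smul_comm, smul_mul_assoc, smul_mul_assoc, smul_sub,
        neg_smul, neg_smul]
      abel
    have h3 := scale_zero hA h1 hD
    have h4 := neg_eq_zero.1 (scale_zero hB h2 hD)
    rw [h3, h4, zero_smul, zero_smul, add_zero] at hAB
    exact hD hAB
  obtain ⟨x, hx, hAx⟩ := exists_ker_of_nilpotent hA
  obtain ⟨k, hk, hk'⟩ := last_nonzero hB hx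
  set y := (B ^ k) x with hy
  have hAy : A y = 0 := by
    rw [hy, ← Module.End.mul_apply, (show Commute A B from hcomm).pow_right k |>.eq,
      Module.End.mul_apply, hAx, map_zero]
  have hCs : ∀ z : V, A z = 0 → B z = 0 → A (C z) = 0 ∧ B (C z) = 0 := by
    intro z hz1 hz2
    have h1 := LinearMap.congr_fun hAC z
    have h2 := LinearMap.congr_fun hBC z
    simp only [LinearMap.sub_apply, Module.End.mul_apply, LinearMap.add_apply,
      LinearMap.smul_apply, hz1, hz2, map_zero, smul_zero, add_zero, sub_zero] at h1 h2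
    exact ⟨h1, h2⟩
  obtain ⟨j, hj, hj'⟩ := last_nonzero hC hk
  have hCj : ∀ j : ℕ, A ((C ^ j) y) = 0 ∧ B ((C ^ j) y) = 0 := by
    intro j
    induction j with
    | zero => exact ⟨by simpa using hAy, by simpa using hk'⟩
    | succ j ih =>
      rw [pow_succ', Module.End.mul_apply]
      exact hCs _ ih.1 ih.2
  exact ⟨_, hj, (hCj j).1, (hCj j).2, hj'⟩

/-- the determinant of three of the equations -/
lemma det_ne {F : Type} [Field F] {l : Fin 4 → Fin 4 → F} (hA : Aniso l) :
    l 1 3 * l 2 1 * l 3 2 - l 1 2 * l 2 3 * l 3 1 ≠ 0 := by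
  intro h0
  have h1 : (!![l 1 2, l 1 3, 0; - l 2 1, 0, l 2 3; 0, l 3 1, l 3 2] :
      Matrix (Fin 3) (Fin 3) F).det = 0 := by
    rw [Matrix.det_fin_three]
    simp
    linear_combination h0
  obtain ⟨v, hv, hv'⟩ := Matrix.exists_mulVec_eq_zero_iff.2 h1
  have e0 := congrFun hv' 0
  have e1 := congrFun hv' 1
  have e2 := congrFun hv' 2
  simp [Matrix.mulVec, dotProduct, Fin.sum_univ_three] at e0 e1 e2
  have h2 := hA ![0, 0, 0, v 0, v 1, v 2] ?_ ?_
  · apply hv
    funext i
    fin_cases i
    · exact congrFun h2 3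
    · exact congrFun h2 4
    · exact congrFun h2 5
  · funext i
    change eqs l (alt ![0, 0, 0, v 0, v 1, v 2]) i = 0
    fin_cases i <;> simp [eqs, alt, Fin.sum_univ_four]
    · linear_combination e0
    · linear_combination e1
    · linear_combination -e2
  · simp [pf, alt]

/-- the commutators as combinations of the right sides of the equations -/
lemma solve_three {a b c : Fin 4} {l : Fin 4 → Fin 4 → K}
    {N : Fin 4 → End K V} {w : Fin 4 → K} {D : K}
    (hDd : D = l a c * l b a * l c b - l a b * l b c * l c a) (hD : D ≠ 0)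
    (ha : l a b • (N b * N a - N a * N b) + l a c • (N c * N a - N a * N c) = w a • N a)
    (hb : l b a • (N a * N b - N b * N a) + l b c • (N c * N b - N b * N c) = w b • N b)
    (hc : l c a • (N a * N c - N c * N a) + l c b • (N b * N c - N c * N b) = 0) :
    ∃ a1 b1 a2 b2 a3 b3 : K, N a * N b - N b * N a = a1 • N a + b1 • N b ∧
      N a * N c - N c * N a = a2 • N a + b2 • N b ∧ N b * N c - N c * N b = a3 • N a + b3 • N b := by
  set x := N a * N b - N b * N a with hx
  set y := N a * N c - N c * N a with hy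
  set z := N b * N c - N c * N b with hz
  have e1 : l a b • x + l a c • y = (- w a) • N a := by
    rw [neg_smul, ← ha, hx, hy]
    module
  have e2 : (- l b a) • x + l b c • z = (- w b) • N b := by
    rw [neg_smul (w b), ← hb, hx, hz]
    module
  have hx' : D • x = (l b c * l c a * w a) • N a + (l a c * l c b * w b) • N b := by
    have h1 : D • x = - (l b c * l c a) • (l a b • x + l a c • y) -
        (l a c * l c b) • ((- l b a) • x + l b c • z) + (l a c * l b c) • (l c a • y + l c b • z) := by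
      rw [hDd]; module
    rw [h1, e1, e2, hc]; module
  have hy' : D • y = (- (l b a * l c b * w a)) • N a + (- (l a b * l c b * w b)) • N b := by
    have h1 : D • y = (l a b * l c b) • ((- l b a) • x + l b c • z) +
        (l b a * l c b) • (l a b • x + l a c • y) - (l a b * l b c) • (l c a • y + l c b • z) := by
      rw [hDd]; module
    rw [h1, e1, e2, hc]; module
  have hz' : D • z = (l b a * l c a * w a) • N a + (l a b * l c a * w b) • N b := by
    have h1 : D • z = - (l a b * l c a) • ((- l b a) • x + l b c • z) -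
        (l b a * l c a) • (l a b • x + l a c • y) + (l b a * l a c) • (l c a • y + l c b • z) := by
      rw [hDd]; module
    rw [h1, e1, e2, hc]; module
  refine ⟨D⁻¹ * (l b c * l c a * w a), D⁻¹ * (l a c * l c b * w b),
    D⁻¹ * (- (l b a * l c b * w a)), D⁻¹ * (- (l a b * l c b * w b)),
    D⁻¹ * (l b a * l c a * w a), D⁻¹ * (l a b * l c a * w b), ?_, ?_, ?_⟩
  · rw [← inv_smul_smul₀ hD x, hx', smul_add, smul_smul, smul_smul]
  · rw [← inv_smul_smul₀ hD y, hy', smul_add, smul_smul, smul_smul]
  · rw [← inv_smul_smul₀ hD z, hz', smul_add, smul_smul, smul_smul]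

/-- the relations between the operators -/
def Rel (l : Fin 4 → Fin 4 → K) (w : Fin 4 → K) (N : Fin 4 → End K V) : Prop :=
  ∀ i, ∑ j ∈ Finset.univ.erase i, l i j • (N j * N i - N i * N j) = w i • N i

lemma Rel.three {l : Fin 4 → Fin 4 → K} {w : Fin 4 → K} {N : Fin 4 → End K V} (h : Rel l w N)
    (h0 : N 0 = 0) {a b c : Fin 4} (hn : [a, b, c, 0].Nodup) :
    l a b • (N b * N a - N a * N b) + l a c • (N c * N a - N a * N c) = w a • N a := by
  obtain ⟨hab, hac, had, hbc, hbd, hcd⟩ := nodup4 hn
  have h1 : (Finset.univ : Finset (Fin 4)).erase a = {b, c, 0} := by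
    have h2 : ∀ a b c : Fin 4, [a, b, c, 0].Nodup →
        (Finset.univ : Finset (Fin 4)).erase a = {b, c, 0} := by decide
    exact h2 a b c hn
  have h2 := h a
  rw [h1, Finset.sum_insert (by simp [hbc, hbd]), Finset.sum_insert (by simp [hcd]),
    Finset.sum_singleton, h0, zero_mul, mul_zero, sub_zero, smul_zero, add_zero] at h2
  exact h2

/-- A common kernel vector, if the first operator vanishes. -/
theorem common_ker_zero [Nontrivial V] {l : Fin 4 → Fin 4 → K} {w : Fin 4 → K}
    {N : Fin 4 → End K V} (h : Rel l w N) (hnil : ∀ i, IsNilpotent (N i)) (h0 : N 0 = 0)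
    (hD : l 1 3 * l 2 1 * l 3 2 - l 1 2 * l 2 3 * l 3 1 ≠ 0) {c : Fin 4} (hc0 : c ≠ 0)
    (hc : w c = 0) : ∃ x : V, x ≠ 0 ∧ ∀ i, N i x = 0 := by
  obtain ⟨a, b, hn, hDc⟩ : ∃ a b : Fin 4, [a, b, c, 0].Nodup ∧
      l a c * l b a * l c b - l a b * l b c * l c a ≠ 0 := by
    have hcc : ∀ c : Fin 4, c ≠ 0 → c = 1 ∨ c = 2 ∨ c = 3 := by decide
    rcases hcc c hc0 with rfl | rfl | rfl
    · exact ⟨2, 3, by decide, fun h => hD (by linear_combination h)⟩
    · exact ⟨3, 1, by decide, fun h => hD (by linear_combination h)⟩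
    · exact ⟨1, 2, by decide, hD⟩
  have ha := h.three h0 hn
  have hn2 : [b, a, c, 0].Nodup ∧ [c, a, b, 0].Nodup := by
    have h2 : ∀ a b c : Fin 4, [a, b, c, 0].Nodup → [b, a, c, 0].Nodup ∧ [c, a, b, 0].Nodup := by
      decide
    exact h2 a b c hn
  have hb := h.three h0 hn2.1
  have hc' := h.three h0 hn2.2
  rw [hc, zero_smul] at hc'
  obtain ⟨a1, b1, a2, b2, a3, b3, h1, h2, h3⟩ := solve_three rfl hDc ha hb hc'
  obtain ⟨x, hx, hxa, hxb, hxc⟩ := common_ker_three (hnil a) (hnil b) (hnil c) h1 h2 h3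
  refine ⟨x, hx, fun i => ?_⟩
  have huniv : ∀ a b c : Fin 4, [a, b, c, 0].Nodup → ∀ i, i = a ∨ i = b ∨ i = c ∨ i = 0 := by
    decide
  rcases huniv a b c hn i with rfl | rfl | rfl | rfl
  · exact hxa
  · exact hxb
  · exact hxc
  · rw [h0, LinearMap.zero_apply]

end

end Pool.Agent.Helper84.T5
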